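import Pool.Agent.N571.SS.WR

/-!
# Project SS: groups acting on trees, statements
-/

set_option autoImplicit false

namespace Pool.Agent.N571.SS

open Filter Topology
open scoped symmDiff

noncomputable section

/-! ### Properties of groups -/

/-- The Herz-Schur norm of `φ` is at most `C`. -/
structure HS {G : Type} [Group G] (φ : G → ℝ) (C : ℝ) : Prop where
  ex : ∃ (H : Type) (_ : NormedAddCommGroup H) (_ : InnerProductSpace ℝ H) (_ : CompleteSpace H)
    (ξ η : G → H), (∀ x y, inner ℝ (ξ x) (η y) = φ (y⁻¹ * x)) ∧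
      ∀ x, ‖ξ x‖ ^ 2 ≤ C ∧ ‖η x‖ ^ 2 ≤ C

/-- Weak amenability with constant `1` (CMAP). -/
structure CMAP (G : Type) [Group G] : Prop where
  ex : ∀ (E : Finset G) (ε : ℝ), 0 < ε → ∃ φ : G → ℝ, {g | φ g ≠ 0}.Finite ∧
    (∀ g ∈ E, |φ g - 1| < ε) ∧ HS φ (1 + ε)

/-- `p` is a finitely supported probability measure. -/
structure Pr {G : Type} (p : G →₀ ℝ) : Prop where
  nonneg : ∀ g, 0 ≤ p g
  one : (p.sum fun _ a => a) = 1

/-- the norm of `ℓ¹` -/
def l1 {G : Type} (p : G →₀ ℝ) : ℝ := p.sum fun _ a => |a|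

/-- the translate `s p` of the measure `p` -/
def tr {G : Type} [Group G] (s : G) (p : G →₀ ℝ) : G →₀ ℝ := p.mapDomain (s * ·)

/-- Exactness (the action on the Stone-Cech compactification is amenable). -/
structure Exact (G : Type) [Group G] : Prop where
  ex : ∀ (E : Finset G) (ε : ℝ), 0 < ε → ∃ (F : Finset G) (ν : G → (G →₀ ℝ)),
    (∀ x, Pr (ν x) ∧ (ν x).support ⊆ F) ∧ ∀ s ∈ E, ∀ x, l1 (ν (s * x) - tr s (ν x)) < ε

/-- Bi-exactness, the condition on measures, local form. -/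
structure BELoc (G : Type) [Group G] : Prop where
  ex : ∀ (E : Finset G) (ε : ℝ), 0 < ε → ∃ (F : Finset G) (μ : G → (G →₀ ℝ)),
    (∀ x, Pr (μ x)) ∧ ∀ x, x ∉ F → ∀ s ∈ E, ∀ t ∈ E, l1 (μ (s * x * t) - tr s (μ x)) < ε

/-- Bi-exactness (Ozawa). -/
structure BiExact (G : Type) [Group G] : Prop where
  exact : Exact G
  ex : ∃ μ : G → (G →₀ ℝ), (∀ x, Pr (μ x)) ∧
    ∀ s t, Tendsto (fun x => l1 (μ (s * x * t) - tr s (μ x))) cofinite (𝓝 0)

/-! ### Actions on trees -/

/-- `G` acts on the locally finite tree `T` with finite stabilizers. -/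
structure TreeAct (G V : Type) [Group G] [MulAction G V] (T : SimpleGraph V) : Prop where
  tree : T.IsTree
  adj : ∀ (g : G) (x y : V), T.Adj x y → T.Adj (g • x) (g • y)
  lf : ∀ x, {y | T.Adj x y}.Finite
  stab : ∀ x : V, {g : G | g • x = x}.Finite

/-- PRP: first properties. -/
def S_PRP : Prop :=
  ∀ (G V : Type) [Group G] [MulAction G V] (T : SimpleGraph V), TreeAct G V T →
    (∀ (g : G) x y, T.dist (g • x) (g • y) = T.dist x y) ∧ (∀ x n, {y | T.dist x y ≤ n}.Finite) ∧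
    (∀ x y n, {g : G | T.dist x (g • y) ≤ n}.Finite) ∧ Countable G

/-- PAR: the parent map of a rooted tree. -/
def S_PAR : Prop :=
  ∀ (V : Type) (T : SimpleGraph V) (o : V), T.IsTree →
    ∃ π : V → V, π o = o ∧ (∀ x, x ≠ o → T.Adj x (π x) ∧ T.dist o (π x) + 1 = T.dist o x) ∧
      ∀ x y, ∃ i j, i + j = T.dist x y ∧ i ≤ T.dist o x ∧ j ≤ T.dist o y ∧ π^[i] x = π^[j] y ∧
        ∀ a b, a ≤ T.dist o x → b ≤ T.dist o y → π^[a] x = π^[b] y → ∃ k, a = i + k ∧ b = j + k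

/-- SEG: geodesic segments of a tree. -/
def S_SEG : Prop :=
  ∀ (V : Type) (T : SimpleGraph V), T.IsTree →
    ∃ seg : V → V → Set V, (∀ a b v, v ∈ seg a b ↔ T.dist a v + T.dist v b = T.dist a b) ∧
      (∀ a b, (seg a b).ncard = T.dist a b + 1) ∧ (∀ a b, (seg a b).Finite) ∧
      ∀ a a' b, (seg a b \ seg a' b).ncard ≤ T.dist a a'

/-- XCM: groups acting properly on trees have CMAP. -/
def S_XCM : Prop :=
  ∀ (G V : Type) [Group G] [MulAction G V] (T : SimpleGraph V), TreeAct G V T → CMAP G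

/-- XEX: groups acting properly on trees are exact. -/
def S_XEX : Prop :=
  ∀ (G V : Type) [Group G] [MulAction G V] (T : SimpleGraph V), TreeAct G V T → Exact G

/-- XBE: groups acting properly on trees are bi-exact. -/
def S_XBE : Prop :=
  ∀ (G V : Type) [Group G] [MulAction G V] (T : SimpleGraph V), TreeAct G V T → BELoc G

/-- GLB: from the local to the global form of bi-exactness. -/
def S_GLB : Prop := ∀ (G : Type) [Group G] [Countable G], Exact G → BELoc G → BiExact G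

/-! ### Coverings -/

/-- `p` is a covering of graphs. -/
structure Cov {Y X : Type} (B : SimpleGraph Y) (A : SimpleGraph X) (p : Y → X) : Prop where
  adj : ∀ y z, B.Adj y z → A.Adj (p y) (p z)
  lift : ∀ y x, A.Adj (p y) x → ∃! z, B.Adj y z ∧ p z = x

/-- UC: universal coverings. -/
def S_UC : Prop :=
  ∀ (X : Type) (A : SimpleGraph X) (o : X),
    ∃ (Y : Type) (B : SimpleGraph Y) (p : Y → X) (o' : Y), B.IsTree ∧ Cov B A p ∧ p o' = o

/-- LF: lifts of maps of a tree to a covering. -/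
def S_LF : Prop :=
  ∀ (Z Y X : Type) (C : SimpleGraph Z) (B : SimpleGraph Y) (A : SimpleGraph X) (p : Y → X)
    (φ : Z → X), C.IsTree → Cov B A p → (∀ a b, C.Adj a b → A.Adj (φ a) (φ b)) →
    ∀ z y, p y = φ z →
      ∃! s : Z → Y, (∀ a b, C.Adj a b → B.Adj (s a) (s b)) ∧ (∀ a, p (s a) = φ a) ∧ s z = y

/-- LIFT: the group of the lifts of the elements of `Λ` to the universal covering. -/
def S_LIFT : Prop :=
  ∀ (X : Type) (A : SimpleGraph X) (Λ : Type) [Group Λ] [MulAction Λ X] (o : X),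
    (∀ (l : Λ) x y, A.Adj x y → A.Adj (l • x) (l • y)) →
    ∃ (Y : Type) (B : SimpleGraph Y) (p : Y → X) (o' : Y) (P : Type) (_ : Group P)
      (_ : MulAction P Y) (ρ : P →* Λ), B.IsTree ∧ Cov B A p ∧ p o' = o ∧
      (∀ (q : P) y z, B.Adj y z → B.Adj (q • y) (q • z)) ∧ (∀ (q : P) y, p (q • y) = ρ q • p y) ∧
      ∀ (l : Λ) y z, p z = l • p y → ∃! q : P, ρ q = l ∧ q • y = z

/-- STX: the graph of the lamplighter on the tree `T` which cannot see the lamps `g` with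
`dist (g x0) x ≤ r`, from `x`. -/
def S_STX : Prop :=
  ∀ (G V : Type) [Group G] [MulAction G V] (T : SimpleGraph V) (x0 : V) (r : ℕ), TreeAct G V T →
    ∃ (X : Type) (A : SimpleGraph X) (_ : MulAction (WR G) X) (s : V → X),
      (∀ (w : WR G) x y, A.Adj x y → A.Adj (w • x) (w • y)) ∧ (∀ x, {y | A.Adj x y}.Finite) ∧
      (∀ x : X, {w : WR G | w • x = x}.Finite) ∧ (∀ x y, T.Adj x y → A.Adj (s x) (s y)) ∧
      Function.Injective s ∧ (∀ (g : G) x, (⟨∅, g⟩ : WR G) • s x = s (g • x)) ∧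
      (∀ (g : G) x, T.dist (g • x0) x ≤ r → (⟨{g}, 1⟩ : WR G) • s x = s x) ∧
      ∀ (w : WR G) x y, w.pos = 1 → w • s x = s y → x = y ∧ ∀ g ∈ w.lamp, T.dist (g • x0) x ≤ r

/-- MALG: an element which moves a subtree almost off itself. -/
def S_MALG : Prop :=
  ∀ (P Y G V : Type) [Group P] [MulAction P Y] (B : SimpleGraph Y) [Group G] [MulAction G V]
    (T : SimpleGraph V) (s : V → Y) (ι : G →* P) (q : P), TreeAct P Y B → T.IsTree →
    Function.Injective ι → (∀ x y, T.Adj x y → B.Adj (s x) (s y)) →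
    (∀ g x, ι g • s x = s (g • x)) → {x | ∃ y, s x = q • s y}.Finite →
    {g : G | ∃ h : G, ι g * q = q * ι h}.Finite

/-- `P` is an extension of `G` by a lamp with range `r`. -/
structure Ext {G V P V' : Type} [Group G] [MulAction G V] [Group P] [MulAction P V']
    (T : SimpleGraph V) (T' : SimpleGraph V') (x0 : V) (x0' : V') (r : ℕ) (ι : G →* P) (c : P)
    (ρ : P →* WR G) : Prop where
  tree : TreeAct P V' T'
  ret : ∀ g, ρ (ι g) = ⟨∅, g⟩
  lamp : ρ c = ⟨{1}, 1⟩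
  sq : c * c = 1
  comm : ∀ g, T.dist x0 (g • x0) ≤ r → Commute c (ι g * c * (ι g)⁻¹)
  mal : ∀ p, p ∉ ι.range → {g : G | ∃ h : G, ι g * p = p * ι h}.Finite
  dist : ∀ g, T'.dist x0' (ι g • x0') = T.dist x0 (g • x0)

/-- STEP: existence of the extension. -/
def S_STEP : Prop :=
  ∀ (G V : Type) [Group G] [MulAction G V] (T : SimpleGraph V) (x0 : V) (r : ℕ), TreeAct G V T →
    ∃ (P V' : Type) (_ : Group P) (_ : MulAction P V') (T' : SimpleGraph V') (x0' : V')
      (ι : G →* P) (c : P) (ρ : P →* WR G), Ext T T' x0 x0' r ι c ρ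

/-- BASE: the free group acts properly on a tree. -/
def S_BASE : Prop :=
  ∃ (G V : Type) (_ : Group G) (_ : MulAction G V) (T : SimpleGraph V) (_ : V)
    (f : FreeGroup (Fin 2) →* G), TreeAct G V T ∧ Function.Injective f

/-- LIM: direct limits of groups. -/
def S_LIM : Prop :=
  ∀ (G : ℕ → Type) [∀ n, Group (G n)] (f : ∀ n, G n →* G (n + 1)),
    (∀ n, Function.Injective (f n)) →
    ∃ (Γ : Type) (_ : Group Γ) (j : ∀ n, G n →* Γ), (∀ n, Function.Injective (j n)) ∧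
      (∀ n x, j (n + 1) (f n x) = j n x) ∧ ∀ x, ∃ n y, j n y = x

/-- The group `Γ` is the union of the increasing subgroups `K n`, which act properly on trees;
`K n` is almost malnormal in `K (n + 1)`; the elements `c n ∈ K (n + 1)` are involutions which
commute asymptotically with their conjugates; `K (n + 1)` has a retraction to `Z/2 wr K n`. -/
structure Chain (Γ : Type) [Group Γ] (K : ℕ → Subgroup Γ) (c : ℕ → Γ) : Prop where
  mono : Monotone K
  top : ∀ x, ∃ n, x ∈ K n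
  tree : ∀ n, ∃ (V : Type) (_ : MulAction (K n) V) (T : SimpleGraph V), TreeAct (K n) V T
  mal : ∀ n, ∀ p ∈ K (n + 1), p ∉ K n → {g | g ∈ K n ∧ ∃ h ∈ K n, g * p = p * h}.Finite
  memc : ∀ n, c n ∈ K (n + 1)
  sq : ∀ n, c n * c n = 1
  comm : ∀ g, ∀ᶠ n in atTop, Commute (c n) (g * c n * g⁻¹)
  ret : ∀ n, ∃ ρ : K (n + 1) →* WR (K n),
    (∀ g (h : g ∈ K n) (h' : g ∈ K (n + 1)), ρ ⟨g, h'⟩ = ⟨∅, ⟨g, h⟩⟩) ∧
      ρ ⟨c n, memc n⟩ = ⟨{1}, 1⟩
  free : ∃ f : FreeGroup (Fin 2) →* Γ, Function.Injective f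

/-- CHN: existence of the chain. -/
def S_CHN : Prop := ∃ (Γ : Type) (_ : Group Γ) (K : ℕ → Subgroup Γ) (c : ℕ → Γ), Chain Γ K c

/-- UN1: unions of groups with CMAP and of exact groups. -/
def S_UN1 : Prop :=
  ∀ (Γ : Type) [Group Γ] (K : ℕ → Subgroup Γ), Monotone K → (∀ x, ∃ n, x ∈ K n) →
    ((∀ n, CMAP (K n)) → CMAP Γ) ∧ ((∀ n, Exact (K n)) → Exact Γ)

/-- UN2: unions of bi-exact groups, each almost malnormal in the next one. -/
def S_UN2 : Prop :=
  ∀ (Γ : Type) [Group Γ] (K : ℕ → Subgroup Γ), Monotone K → (∀ x, ∃ n, x ∈ K n) →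
    (∀ n, ∀ p ∈ K (n + 1), p ∉ K n → {g | g ∈ K n ∧ ∃ h ∈ K n, g * p = p * h}.Finite) →
    (∀ n, BELoc (K n)) → BELoc Γ

/-- `G` has infinite conjugacy classes. -/
def ICC (G : Type) [Group G] : Prop :=
  ∀ g : G, g ≠ 1 → Set.Infinite {x : G | ∃ h : G, x = h * g * h⁻¹}

/-- CIC: the union of the chain has infinite conjugacy classes. -/
def S_CIC : Prop :=
  ∀ (Γ : Type) [Group Γ] (K : ℕ → Subgroup Γ) (c : ℕ → Γ), Chain Γ K c → ICC Γ ∧ Infinite Γ

/-- The maps `θ n : G → K` are eventually multiplicative and injective on every finite subset of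
`G`, and eventually the identity on every finite subset of `K`. -/
structure ExG (G : Type) [Group G] (K : Subgroup G) (θ : ℕ → G → G) : Prop where
  val : ∀ n x, θ n x ∈ K
  mul : ∀ x y, ∀ᶠ n in atTop, θ n (x * y) = θ n x * θ n y
  ne : ∀ x, x ≠ 1 → ∀ᶠ n in atTop, θ n x ≠ 1
  id : ∀ x ∈ K, ∀ᶠ n in atTop, θ n x = x

/-- the embedding of `Γ` in the lamplighter group -/
def emb (Γ : Type) [Group Γ] : Γ →* WR Γ where
  toFun g := ⟨∅, g⟩
  map_one' := rfl
  map_mul' a b := by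
    ext g
    · simp [WR.mem_mul]
    · rfl

/-- EXG: for the union of the chain, `Γ ≤ Z/2 wr Γ` is existential. -/
def S_EXG : Prop :=
  ∀ (Γ : Type) [Group Γ] (K : ℕ → Subgroup Γ) (c : ℕ → Γ), Chain Γ K c →
    ∃ θ : ℕ → WR Γ → WR Γ, ExG (WR Γ) (emb Γ).range θ

end

end Pool.Agent.N571.SS
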