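import Pool.Agent.N571.EX.Stm
import Pool.Agent.N571.SS.Stm

/-!
# Project SS: von Neumann algebras, definitions and statements
-/

set_option autoImplicit false

namespace Pool.Agent.N571.SS

open Filter Topology
open scoped InnerProductSpace ComplexOrder
open Pool.Agent.H494R3.GT (L2 dl)
open Pool.Agent.N557.QW (lam rgt LG LK cf rc)

section

variable {H : Type} [NormedAddCommGroup H] [InnerProductSpace ℂ H] [CompleteSpace H]

/-- `A` is a Cartan subalgebra of `M`: a maximal abelian von Neumann subalgebra whose normalizer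
(the unitaries `u ∈ M` with `u A u* = A`) generates `M`. -/
structure IsCartan (A M : VonNeumannAlgebra H) : Prop where
  sub : ∀ x ∈ A, x ∈ M
  abelian : ∀ x ∈ A, ∀ y ∈ A, x * y = y * x
  maximal : ∀ x ∈ M, (∀ a ∈ A, x * a = a * x) → x ∈ A
  regular : ∀ P : VonNeumannAlgebra H,
    (∀ u ∈ M, star u * u = 1 → u * star u = 1 → (∀ a ∈ A, u * a * star u ∈ A) →
      (∀ a ∈ A, star u * a * u ∈ A) → u ∈ P) → ∀ x ∈ M, x ∈ P

/-- `φ` is an `N`-central state on `B(H)` which restricts to the trace of `N` (a hypertrace). The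
existence of such a state is amenability of `N`. -/
structure Hypertrace (N : VonNeumannAlgebra H) (Ω : H) (φ : (H →L[ℂ] H) →ₗ[ℂ] ℂ) : Prop where
  nonneg : ∀ T : H →L[ℂ] H, 0 ≤ φ (star T * T)
  trace : ∀ x ∈ N, φ x = ⟪Ω, x Ω⟫_ℂ
  central : ∀ x ∈ N, ∀ T : H →L[ℂ] H, φ (x * T) = φ (T * x)

/-- `N` is the group von Neumann algebra of `Γ`, with the trace `⟪Ω, x Ω⟫` and with the canonical
unitaries `u g`. -/
structure IsGroupVN {Γ : Type} [Group Γ] (u : Γ → (H →L[ℂ] H)) (N : VonNeumannAlgebra H) (Ω : H) :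
    Prop where
  mem : ∀ g, u g ∈ N
  one : u 1 = 1
  mul : ∀ g h, u (g * h) = u g * u h
  adj : ∀ g, star (u g) = u g⁻¹
  trace : ∀ g, g ≠ 1 → ⟪Ω, u g Ω⟫_ℂ = 0
  generates : ∀ P : VonNeumannAlgebra H, (∀ g, u g ∈ P) → ∀ x ∈ N, x ∈ P

end

/-- COM: the commutation theorem for `L(K)`. -/
def S_COM : Prop :=
  ∀ (G : Type) [Group G] (K : Subgroup G),
    (∀ x ∈ LK K, ∀ y : L2 G →L[ℂ] L2 G, (∀ k ∈ K, y * lam k = lam k * y) → x * y = y * x) ∧
    ∀ x ∈ LG G, ∀ y : L2 G →L[ℂ] L2 G, (∀ k : G, y * lam k = lam k * y) → x * y = y * x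

/-- CAR: Cartan subalgebras from abelian normal subgroups. -/
def S_CAR : Prop :=
  ∀ (G : Type) [Group G] (D : Subgroup G), (∀ x ∈ D, ∀ y ∈ D, x * y = y * x) →
    (∀ g, ∀ d ∈ D, g * d * g⁻¹ ∈ D) → (∀ g, g ∉ D → {x | ∃ d ∈ D, x = d * g * d⁻¹}.Infinite) →
    IsCartan (LK D) (LG G)

/-- NAM: `L(K)` is not amenable if `K` contains a free group. -/
def S_NAM : Prop :=
  ∀ (G : Type) [Group G] (K : Subgroup G) (f : FreeGroup (Fin 2) →* G), Function.Injective f →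
    (∀ x, f x ∈ K) → ¬ ∃ φ, Hypertrace (LK K) (dl (1 : G)) φ

end Pool.Agent.N571.SS
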