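import Pool.Agent.N571.EX.Plain
import Pool.Agent.N571.SS.VN
import Pool.Agent.N571.SS.WEXI
import Pool.Agent.N571.SS.WRL1
import Pool.Agent.N571.SS.WRL2
import Pool.Agent.N571.SS.WPF

/-!
# Project SS: assembly
-/

set_option autoImplicit false

namespace Pool.Agent.N571.SS

open Filter Topology
open scoped InnerProductSpace ComplexOrder
open Pool.Agent.H494R3.GT (L2 dl inner_dl)
open Pool.Agent.N557.QW (lam rgt LG LK cf rc lam_dl star_lam lam_one lam_mul lam_mem mem_LG_iff)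
open Pool.Agent.N571.EX.Plain (Tracial IIOneFactor UltraEmb)

/-- The group `Γ` is countable, bi-exact, weakly amenable with constant `1` (CMAP), has infinite
conjugacy classes and contains a free group of rank two (so it is not amenable). -/
structure GoodGroup (Γ : Type) [Group Γ] : Prop where
  countable : Countable Γ
  biexact : BiExact Γ
  cmap : CMAP Γ
  icc : ∀ g : Γ, g ≠ 1 → Set.Infinite {x : Γ | ∃ h : Γ, x = h * g * h⁻¹}
  free : ∃ f : FreeGroup (Fin 2) →* Γ, Function.Injective f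

/-- `N` is the group von Neumann algebra of `Γ`, a non-amenable `II₁` factor; `M ⊇ N` is a tracial
von Neumann algebra with the Cartan subalgebra `A`, and the inclusion `N ⊆ M` is existential for
every non-principal ultrafilter. -/
structure IsExample {Γ : Type} [Group Γ] {H : Type} [NormedAddCommGroup H] [InnerProductSpace ℂ H]
    [CompleteSpace H] (u : Γ → (H →L[ℂ] H)) (N M A : VonNeumannAlgebra H) (Ω : H) : Prop where
  group : IsGroupVN u N Ω
  factor : IIOneFactor N Ω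
  nonamenable : ∀ φ, ¬ Hypertrace N Ω φ
  sub : ∀ x ∈ N, x ∈ M
  tracial : Tracial M Ω
  cartan : IsCartan A M
  existential : ∀ U : Ultrafilter ℕ, (U : Filter ℕ) ≤ cofinite → ∃ π, UltraEmb N M Ω U π

/-- The final statement. -/
def Final : Prop :=
  ∃ (Γ : Type) (_ : Group Γ) (H : Type) (_ : NormedAddCommGroup H) (_ : InnerProductSpace ℂ H)
    (_ : CompleteSpace H) (_ : TopologicalSpace.SeparableSpace H) (u : Γ → (H →L[ℂ] H))
    (N M A : VonNeumannAlgebra H) (Ω : H), GoodGroup Γ ∧ IsExample u N M A Ω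

namespace Asm

theorem generates {G : Type} [Group G] (hC : S_COM) (K : Subgroup G)
    (P : VonNeumannAlgebra (L2 G)) (h : ∀ k ∈ K, lam k ∈ P) {x : L2 G →L[ℂ] L2 G}
    (hx : x ∈ LK K) : x ∈ P := by
  have h1 : x ∈ P.commutant.commutant := by
    rw [VonNeumannAlgebra.mem_commutant_iff]
    intro y hy
    rw [VonNeumannAlgebra.mem_commutant_iff] at hy
    exact ((hC G K).1 x hx y (fun k hk => (hy _ (h k hk)).symm)).symm
  rwa [VonNeumannAlgebra.commutant_commutant] at h1

theorem emb_inj (Γ : Type) [Group Γ] : Function.Injective (emb Γ) := fun a b h =>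
  congrArg WR.pos h

/-- the group of the lamps -/
def Lamps (Γ : Type) [Group Γ] : Subgroup (WR Γ) where
  carrier := {w | w.pos = 1}
  mul_mem' {a b} ha hb := by
    have h1 : a.pos = 1 := ha
    have h2 : b.pos = 1 := hb
    change (a * b).pos = 1
    rw [WR.mul_pos, h1, h2, mul_one]
  one_mem' := rfl
  inv_mem' {a} ha := by
    have h1 : a.pos = 1 := ha
    change (a⁻¹).pos = 1
    rw [WR.inv_pos, h1, inv_one]

theorem mem_Lamps {Γ : Type} [Group Γ] (w : WR Γ) : w ∈ Lamps Γ ↔ w.pos = 1 := Iff.rfl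

theorem lamps_comm {Γ : Type} [Group Γ] : ∀ x ∈ Lamps Γ, ∀ y ∈ Lamps Γ, x * y = y * x := by
  intro x hx y hy
  rw [mem_Lamps] at hx hy
  ext g
  · simp only [WR.mem_mul, hx, hy, inv_one, one_mul]
    tauto
  · simp [hx, hy]

theorem lamps_normal {Γ : Type} [Group Γ] : ∀ g, ∀ d ∈ Lamps Γ, g * d * g⁻¹ ∈ Lamps Γ := by
  intro g d hd
  rw [mem_Lamps] at hd ⊢
  simp [hd]

theorem lamps_inf {Γ : Type} [Group Γ] [Infinite Γ] (g : WR Γ) (hg : g ∉ Lamps Γ) :
    {x | ∃ d ∈ Lamps Γ, x = d * g * d⁻¹}.Infinite := by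
  rw [mem_Lamps] at hg
  intro hfin
  -- the lamp parts of the conjugates by the single lamps `h` cover `Γ`
  have key : ∀ h : Γ, h ∉ g.lamp → g.pos⁻¹ * h ≠ h →
      ∃ x ∈ {x | ∃ d ∈ Lamps Γ, x = d * g * d⁻¹}, h ∈ x.lamp := by
    intro h hh hne
    obtain ⟨d, hd1, hd2⟩ : ∃ d : WR Γ, d.pos = 1 ∧ d.lamp = {h} := ⟨⟨{h}, 1⟩, rfl, rfl⟩
    have hd : d ∈ Lamps Γ := (mem_Lamps d).2 hd1
    refine ⟨d * g * d⁻¹, ⟨d, hd, rfl⟩, ?_⟩
    rw [WR.mem_mul, WR.mem_mul, WR.mem_inv]
    simp [hd1, hd2, hh, hne]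
  have h1 : ∀ h : Γ, g.pos⁻¹ * h ≠ h := by
    intro h h'
    apply hg
    have : g.pos⁻¹ = 1 := by
      have := congrArg (· * h⁻¹) h'
      simpa using this
    simpa using this
  have h2 : (Set.univ : Set Γ) ⊆ (↑g.lamp ∪ ⋃ x ∈ {x | ∃ d ∈ Lamps Γ, x = d * g * d⁻¹},
      (x.lamp : Set Γ)) := by
    intro h _
    by_cases hh : h ∈ g.lamp
    · exact Or.inl hh
    · obtain ⟨x, hx, hx'⟩ := key h hh (h1 h)
      exact Or.inr (Set.mem_biUnion hx hx')
  have h3 : (Set.univ : Set Γ).Finite :=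
    ((g.lamp.finite_toSet).union (hfin.biUnion fun x _ => x.lamp.finite_toSet)).subset h2
  exact Set.infinite_univ h3

end Asm

theorem final_of (hTR : Pool.Agent.N571.EX.S_TR) (hFAC : Pool.Agent.N571.EX.S_FAC)
    (hEXI : Pool.Agent.N571.EX.W.S_EXI) (hPRP : S_PRP)
    (hXCM : S_XCM) (hXEX : S_XEX) (hXBE : S_XBE) (hGLB : S_GLB) (hCHN : S_CHN) (hUN1 : S_UN1)
    (hUN2 : S_UN2) (hCIC : S_CIC) (hEXG : S_EXG) (hCOM : S_COM) (hCAR : S_CAR) (hNAM : S_NAM) :
    Final := by
  obtain ⟨Γ, _, K, c, hch⟩ := hCHN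
  obtain ⟨hicc, hinf⟩ := hCIC Γ K c hch
  obtain ⟨θ, hθ⟩ := hEXG Γ K c hch
  have hcm : ∀ n, CMAP (K n) := fun n => by
    obtain ⟨V, _, T, hT⟩ := hch.tree n
    exact hXCM _ V T hT
  have hex : ∀ n, Exact (K n) := fun n => by
    obtain ⟨V, _, T, hT⟩ := hch.tree n
    exact hXEX _ V T hT
  have hbe : ∀ n, BELoc (K n) := fun n => by
    obtain ⟨V, _, T, hT⟩ := hch.tree n
    exact hXBE _ V T hT
  have hcount : ∀ n, Countable (K n) := fun n => by
    obtain ⟨V, _, T, hT⟩ := hch.tree n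
    exact (hPRP _ V T hT).2.2.2
  have hcΓ : Countable Γ := by
    have h1 : (Set.univ : Set Γ) ⊆ ⋃ n, (K n : Set Γ) := by
      intro x _
      obtain ⟨n, hn⟩ := hch.top x
      exact Set.mem_iUnion.2 ⟨n, hn⟩
    exact Set.countable_univ_iff.1
      ((Set.countable_iUnion fun n => Set.countable_coe_iff.1 (hcount n)).mono h1)
  have hcW : Countable (WR Γ) := by
    have : Function.Injective (fun w : WR Γ => (w.lamp, w.pos)) := by
      intro a b h
      exact WR.ext (congrArg Prod.fst h) (congrArg Prod.snd h)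
    exact this.countable
  have hbx : BiExact Γ := hGLB Γ ((hUN1 Γ K hch.mono hch.top).2 hex)
    (hUN2 Γ K hch.mono hch.top hch.mal hbe)
  let R : Subgroup (WR Γ) := (emb Γ).range
  let e : Γ ≃* R := MonoidHom.ofInjective (Asm.emb_inj Γ)
  have hiR : Pool.Agent.N571.EX.ICC R :=
    Pool.Agent.N571.EX.icc_congr e (fun g hg => hicc g hg)
  have hinfR : Infinite R := Infinite.of_injective e e.injective
  obtain ⟨hLK, htG, htK, -, -, -⟩ := hTR (WR Γ) R
  have hfac : Pool.Agent.N571.EX.IsIIOne (LK R) (dl (1 : WR Γ)) := (hFAC (WR Γ) R).2 hiR hinfR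
  have hsub : ∀ x ∈ LK R, x ∈ LG (WR Γ) := fun x hx => ((hLK x).1 hx).1
  have hlam : ∀ g : Γ, lam (emb Γ g) ∈ LK R := by
    intro g
    rw [hLK]
    refine ⟨lam_mem _, fun k hk => ?_⟩
    classical
    rw [cf, lam_dl, mul_one, Pool.Agent.H494R3.GT.dl_inner, if_neg]
    rintro rfl
    exact hk ⟨g, rfl⟩
  have hExi : ∀ U : Ultrafilter ℕ, (U : Filter ℕ) ≤ cofinite →
      ∃ π, UltraEmb (LK R) (LG (WR Γ)) (dl (1 : WR Γ)) U π := by
    intro U hU
    refine Pool.Agent.N571.EX.Plain.exi hsub (hEXI (WR Γ) R (fun _ => R) θ ?_ U hU)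
    exact
      { mono := fun _ _ _ => le_rfl
        mem := fun x => ⟨fun h => ⟨0, h⟩, fun ⟨_, h⟩ => h⟩
        val := hθ.val
        mul := hθ.mul
        ne := hθ.ne
        id := hθ.id }
  obtain ⟨f, hf⟩ := hch.free
  refine ⟨Γ, inferInstance, L2 (WR Γ), inferInstance, inferInstance, inferInstance,
    Pool.Agent.N571.EX.sep (WR Γ), fun g => lam (emb Γ g), LK R, LG (WR Γ), LK (Asm.Lamps Γ), dl 1, ?_, ?_⟩
  · exact
      { countable := hcΓ
        biexact := hbx
        cmap := (hUN1 Γ K hch.mono hch.top).1 hcm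
        icc := hicc
        free := ⟨f, hf⟩ }
  · refine
      { group := ?_, factor := Pool.Agent.N571.EX.Plain.iione hfac, nonamenable := ?_,
        sub := hsub, tracial := ?_, cartan := ?_, existential := hExi }
    · refine
        { mem := hlam, one := ?_, mul := ?_, adj := ?_, trace := ?_, generates := ?_ }
      · rw [map_one, lam_one]
      · intro g h
        rw [map_mul, lam_mul]
      · intro g
        rw [star_lam, map_inv]
      · intro g hg
        classical
        rw [lam_dl, mul_one, Pool.Agent.H494R3.GT.dl_inner, if_neg]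
        intro h
        apply hg
        apply Asm.emb_inj Γ
        rw [map_one, ← h]
      · intro P hP x hx
        refine Asm.generates hCOM R P ?_ hx
        rintro _ ⟨g, rfl⟩
        exact hP g
    · intro φ hφ
      exact hNAM (WR Γ) R ((emb Γ).comp f) ((Asm.emb_inj Γ).comp hf) (fun x => ⟨f x, rfl⟩) ⟨φ, hφ⟩
    · exact { unit := htG.unit, tracial := htG.tracial, faithful := htG.faithful }
    · exact hCAR (WR Γ) (Asm.Lamps Γ) Asm.lamps_comm Asm.lamps_normal Asm.lamps_inf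

end Pool.Agent.N571.SS
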