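import Pool.Agent.N571.SS.Stm
import Pool.Agent.Helper73.Cayley

/-!
# Project SS: the free group acts on its Cayley tree (helper169)
-/

set_option autoImplicit false

namespace Pool.Agent.N571.SS

open Pool.Agent.Helper73 in
/-- BASE: the free group of rank two acts on its Cayley tree. -/
theorem t_base : S_BASE := by
  refine ⟨F, F, inferInstance, inferInstance, Cay, 1, MonoidHom.id _, ⟨cay_tree, ?_, ?_, ?_⟩,
    fun _ _ h => h⟩
  · rintro g x y ⟨l, rfl⟩
    exact ⟨l, by rw [smul_eq_mul, smul_eq_mul, mul_assoc]⟩
  · intro x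
    have h : {y | Cay.Adj x y} = Set.range fun l : L => x * gen l := by
      ext y
      constructor
      · rintro ⟨l, rfl⟩; exact ⟨l, rfl⟩
      · rintro ⟨l, rfl⟩; exact ⟨l, rfl⟩
    rw [h]
    exact Set.finite_range _
  · intro x
    refine (Set.finite_singleton (1 : F)).subset fun g hg => ?_
    have h : g * x = x := hg
    rw [Set.mem_singleton_iff]
    exact mul_eq_right.1 h

end Pool.Agent.N571.SS
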