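import Pool.Agent.N571.SS.VN

/-!
# Project SS: Cartan subalgebras from abelian normal subgroups (part CAR, by helper655)
-/

set_option autoImplicit false

namespace Pool.Agent.N571.SS

open Filter Topology
open Pool.Agent.H494R3.GT (L2 dl mul_ap inner_dl UU_apply dl_apply_ne)
open Pool.Agent.N557.QW (lam rgt LG LK cf rc lam_dl lam_mul lam_one star_lam lam_mem mem_LG_iff)

namespace CAR

variable {G : Type} [Group G]

theorem lam_apply (g : G) (v : L2 G) (t : G) : (lam g v) t = v (g⁻¹ * t) := by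
  rw [lam, UU_apply]
  rfl

theorem cf_eq (x : L2 G →L[ℂ] L2 G) (g : G) : cf x g = (x (dl 1)) g := inner_dl g _

theorem lam_mem_LK (h : Pool.Agent.N571.EX.S_TR) (D : Subgroup G) {d : G} (hd : d ∈ D) :
    lam d ∈ LK D := by
  rw [(h G D).1]
  refine ⟨lam_mem d, fun g hg => ?_⟩
  rw [cf_eq, lam_dl, mul_one]
  exact dl_apply_ne fun e => hg (e ▸ hd)

theorem conj_mem (h : Pool.Agent.N571.EX.S_TR) (D : Subgroup G)
    (hn : ∀ g : G, ∀ d ∈ D, g * d * g⁻¹ ∈ D) (g : G) {a : L2 G →L[ℂ] L2 G} (ha : a ∈ LK D) :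
    lam g * a * lam g⁻¹ ∈ LK D := by
  rw [(h G D).1] at ha ⊢
  refine ⟨mul_mem (mul_mem (lam_mem g) ha.1) (lam_mem g⁻¹), fun t ht => ?_⟩
  rw [cf_eq, mul_ap, mul_ap, lam_dl, mul_one, lam_apply, ← inner_dl, mem_LG_iff.1 ha.1]
  apply ha.2
  intro hc
  apply ht
  have := hn g _ hc
  have e : g * (g⁻¹ * t * (g⁻¹)⁻¹) * g⁻¹ = t := by group
  rwa [e] at this

theorem cf_conj {x : L2 G →L[ℂ] L2 G} (hx : x ∈ LG G) {d : G} (hd : x * lam d = lam d * x)
    (g : G) : cf x (d * g * d⁻¹) = cf x g := by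
  rw [← mem_LG_iff.1 hx d (d * g)]
  have h1 : x (dl d) = lam d (x (dl 1)) := by
    rw [← mul_ap, ← hd, mul_ap, lam_dl, mul_one]
  rw [h1, inner_dl, lam_apply, inv_mul_cancel_left, cf_eq]

/-- a coefficient which is repeated infinitely often is zero -/
theorem cf_zero (x : L2 G →L[ℂ] L2 G) {S : Set G} (hS : S.Infinite) {g : G}
    (h : ∀ t ∈ S, cf x t = cf x g) : cf x g = 0 := by
  by_contra hne
  have h2 : (0 : ℝ) < (2 : ENNReal).toReal := by norm_num
  have hs := (lp.memℓp (x (dl 1))).summable h2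
  have hpos : 0 < ‖cf x g‖ ^ (2 : ENNReal).toReal := by
    have := norm_pos_iff.2 hne
    positivity
  have h3 := hs.tendsto_cofinite_zero.eventually (gt_mem_nhds hpos)
  rw [Filter.eventually_cofinite] at h3
  apply hS
  refine h3.subset fun t ht => ?_
  simp only [Set.mem_ofPred_eq, not_lt]
  rw [← cf_eq, h t ht]

end CAR

open CAR

theorem t_car (h : Pool.Agent.N571.EX.S_TR) (h1 : S_COM) : S_CAR := by
  intro G _ D hab hn hinf
  have hcom : ∀ x ∈ LK D, ∀ d ∈ D, x * lam d = lam d * x := by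
    intro x hx d hd
    refine (h1 G D).1 x hx (lam d) fun k hk => ?_
    rw [← lam_mul, ← lam_mul, hab d hd k hk]
  refine ⟨fun x hx => (((h G D).1 x).1 hx).1, ?_, ?_, ?_⟩
  · intro x hx y hy
    exact (h1 G D).1 x hx y fun k hk => hcom y hy k hk
  · intro x hx hc
    rw [(h G D).1]
    refine ⟨hx, fun g hg => ?_⟩
    refine cf_zero x (hinf g hg) ?_
    rintro t ⟨d, hd, rfl⟩
    exact cf_conj hx (hc _ (lam_mem_LK h D hd)) g
  · intro P hP x hx
    have hl : ∀ g : G, lam g ∈ P := by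
      intro g
      refine hP (lam g) (lam_mem g) ?_ ?_ ?_ ?_
      · rw [star_lam, ← lam_mul, inv_mul_cancel, lam_one]
      · rw [star_lam, ← lam_mul, mul_inv_cancel, lam_one]
      · intro a ha
        rw [star_lam]
        exact conj_mem h D hn g ha
      · intro a ha
        rw [star_lam]
        have := conj_mem h D hn g⁻¹ ha
        rwa [inv_inv] at this
    rw [← VonNeumannAlgebra.commutant_commutant P, VonNeumannAlgebra.mem_commutant_iff]
    intro y hy
    rw [VonNeumannAlgebra.mem_commutant_iff] at hy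
    exact ((h1 G D).2 x hx y fun k => (hy _ (hl k)).symm).symm

end Pool.Agent.N571.SS
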