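import Pool.Agent.N571.SS.Stm

/-!
# Project SS (helper571): existence of the chain (leaf CHN, by helper300)
-/

set_option autoImplicit false

namespace Pool.Agent.N571.SS

namespace CHN_

open Filter Topology

/-- functoriality of the lamplighter group -/
noncomputable def wmap {G H : Type} [Group G] [Group H] (e : G ≃* H) : WR G →* WR H where
  toFun a := ⟨a.lamp.map e.toEquiv.toEmbedding, e a.pos⟩
  map_one' := by
    ext g
    · simp
    · simp
  map_mul' a b := by
    ext g
    · have h1 : ∀ (s : Finset G) (g : H), g ∈ s.map e.toEquiv.toEmbedding ↔ e.symm g ∈ s := by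
        intro s g
        rw [Finset.mem_map]
        constructor
        · rintro ⟨x, hx, rfl⟩
          simpa using hx
        · intro hx
          exact ⟨_, hx, by simp⟩
      rw [WR.mem_mul]
      change g ∈ (a * b).lamp.map e.toEquiv.toEmbedding ↔
        ¬ (g ∈ a.lamp.map e.toEquiv.toEmbedding ↔
          (e a.pos)⁻¹ * g ∈ b.lamp.map e.toEquiv.toEmbedding)
      rw [h1, h1, h1, WR.mem_mul]
      simp
    · simp

theorem wmap_apply {G H : Type} [Group G] [Group H] (e : G ≃* H) (a : WR G) :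
    wmap e a = ⟨a.lamp.map e.toEquiv.toEmbedding, e a.pos⟩ := rfl

theorem tree_transport {G H V : Type} [Group G] [Group H] [MulAction G V] {T : SimpleGraph V}
    (h : TreeAct G V T) (e : G ≃* H) :
    ∃ (V : Type) (_ : MulAction H V) (T : SimpleGraph V), TreeAct H V T := by
  refine ⟨V, MulAction.compHom V e.symm.toMonoidHom, T, ?_⟩
  refine @TreeAct.mk H V _ (MulAction.compHom V e.symm.toMonoidHom) T h.tree
    (fun g x y hxy => h.adj (e.symm g) x y hxy) h.lf (fun x => ?_)
  exact (h.stab x).preimage (e.symm.injective.injOn)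

theorem chain_of (h2 : S_LIM) (G V : ℕ → Type) [∀ n, Group (G n)] [∀ n, MulAction (G n) (V n)]
    (T : ∀ n, SimpleGraph (V n)) (x0 : ∀ n, V n) (f : ∀ n, G n →* G (n + 1))
    (c' : ∀ n, G (n + 1)) (ρ : ∀ n, G (n + 1) →* WR (G n))
    (hE : ∀ n, Ext (T n) (T (n + 1)) (x0 n) (x0 (n + 1)) n (f n) (c' n) (ρ n))
    (hT : ∀ n, TreeAct (G n) (V n) (T n)) (g0 : FreeGroup (Fin 2) →* G 0)
    (hg0 : Function.Injective g0) : S_CHN := by
  have hf : ∀ n, Function.Injective (f n) := fun n a b h => by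
    have h1 := congrArg (ρ n) h
    rw [(hE n).ret, (hE n).ret] at h1
    exact congrArg WR.pos h1
  obtain ⟨Γ, hΓ, j, hj, hjf, hjs⟩ := h2 G f hf
  let e : ∀ n, G n ≃* (j n).range := fun n => MonoidHom.ofInjective (hj n)
  have he : ∀ n x, ((e n x : (j n).range) : Γ) = j n x := fun n x => rfl
  have hes : ∀ n x (h : j n x ∈ (j n).range), (e n).symm ⟨j n x, h⟩ = x := fun n x h => by
    rw [MulEquiv.symm_apply_eq]
    exact Subtype.ext rfl
  refine ⟨Γ, hΓ, fun n => (j n).range, fun n => j (n + 1) (c' n), ?_⟩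
  refine ⟨?_, ?_, fun n => tree_transport (hT n) (e n), ?_,
    fun n => MonoidHom.mem_range.2 ⟨c' n, rfl⟩, fun n => ?_, ?_,
    fun n => ?_, ?_⟩
  · refine monotone_nat_of_le_succ fun n => ?_
    rintro _ ⟨x, rfl⟩
    exact ⟨f n x, hjf n x⟩
  · intro x
    obtain ⟨n, y, hy⟩ := hjs x
    exact ⟨n, y, hy⟩
  · rintro n _ ⟨p, rfl⟩ hp
    have hp' : p ∉ (f n).range := by
      rintro ⟨x, rfl⟩
      exact hp ⟨x, (hjf n x).symm⟩
    refine (((hE n).mal p hp').image (j n)).subset ?_
    rintro _ ⟨⟨g, rfl⟩, _, ⟨h, rfl⟩, hgh⟩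
    refine ⟨g, ⟨h, hj (n + 1) ?_⟩, rfl⟩
    rw [map_mul, map_mul, hjf, hjf]
    exact hgh
  · change j (n + 1) (c' n) * j (n + 1) (c' n) = 1
    rw [← map_mul, (hE n).sq, map_one]
  · intro g
    obtain ⟨k, g', rfl⟩ := hjs g
    let gg : ∀ m, G (k + m) := fun m => Nat.rec (motive := fun m => G (k + m)) g'
      (fun m x => f (k + m) x) m
    have g1 : ∀ m, gg (m + 1) = f (k + m) (gg m) := fun m => rfl
    have g2 : ∀ m, j (k + m) (gg m) = j k g' := by
      intro m
      induction m with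
      | zero => rfl
      | succ m ih =>
        rw [← ih]
        exact hjf (k + m) (gg m)
    have g3 : ∀ m, (T (k + m)).dist (x0 (k + m)) (gg m • x0 (k + m)) =
        (T k).dist (x0 k) (g' • x0 k) := by
      intro m
      induction m with
      | zero => rfl
      | succ m ih =>
        rw [← ih]
        exact (hE (k + m)).dist (gg m)
    filter_upwards [eventually_ge_atTop (max k ((T k).dist (x0 k) (g' • x0 k)))] with n hn
    obtain ⟨m, rfl⟩ := Nat.exists_eq_add_of_le ((le_max_left _ _).trans hn)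
    have h3 := (hE (k + m)).comm (gg m) (by
      rw [g3]
      exact (le_max_right _ _).trans hn)
    have h4 := h3.map (j (k + m + 1))
    rw [map_mul, map_mul, map_inv, hjf, g2] at h4
    exact h4
  · refine ⟨(wmap (e n)).comp ((ρ n).comp (e (n + 1)).symm.toMonoidHom), ?_, ?_⟩
    · rintro _ ⟨x, rfl⟩ h'
      change wmap (e n) (ρ n ((e (n + 1)).symm ⟨j n x, h'⟩)) = _
      have h3 : (e (n + 1)).symm ⟨j n x, h'⟩ = f n x := by
        rw [MulEquiv.symm_apply_eq]
        exact Subtype.ext (hjf n x).symm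
      rw [h3, (hE n).ret, wmap_apply]
      rfl
    · change wmap (e n) (ρ n ((e (n + 1)).symm ⟨j (n + 1) (c' n), _⟩)) = _
      have h3 := hes (n + 1) (c' n) (MonoidHom.mem_range.2 ⟨c' n, rfl⟩)
      rw [h3, (hE n).lamp, wmap_apply]
      simp
  · exact ⟨(j 0).comp g0, (hj 0).comp hg0⟩

/-- groups acting on trees -/
structure St : Type 1 where
  /-- the group -/
  G : Type
  /-- the vertices -/
  V : Type
  [grp : Group G]
  [act : MulAction G V]
  /-- the tree -/
  T : SimpleGraph V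
  /-- the root -/
  x0 : V
  ta : TreeAct G V T

attribute [instance] St.grp St.act

/-- an extension -/
structure Nx (n : ℕ) (S : St) : Type 1 where
  /-- the next group -/
  S' : St
  /-- the embedding -/
  ι : S.G →* S'.G
  /-- the lamp -/
  c : S'.G
  /-- the retraction -/
  ρ : S'.G →* WR S.G
  ext : Ext S.T S'.T S.x0 S'.x0 n ι c ρ

theorem nx (h : S_STEP) (n : ℕ) (S : St) : Nonempty (Nx n S) := by
  obtain ⟨P, V', i1, i2, T', x0', ι, c, ρ, hx⟩ := h S.G S.V S.T S.x0 n S.ta
  exact ⟨⟨⟨P, V', T', x0', hx.tree⟩, ι, c, ρ, hx⟩⟩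

end CHN_

open CHN_ in
/-- existence of the chain -/
theorem t_chn (h : S_STEP) (h1 : S_BASE) (h2 : S_LIM) : S_CHN := by
  obtain ⟨G, V, i1, i2, T, x0, f, hT, hf⟩ := h1
  let N : ∀ n (S : St), Nx n S := fun n S => Classical.choice (nx h n S)
  let Q : ℕ → St := fun n => Nat.rec (⟨G, V, T, x0, hT⟩ : St) (fun n S => (N n S).S') n
  exact @chain_of h2 (fun n => (Q n).G) (fun n => (Q n).V) (fun n => (Q n).grp)
    (fun n => (Q n).act) (fun n => (Q n).T) (fun n => (Q n).x0)
    (fun n => (N n (Q n)).ι) (fun n => (N n (Q n)).c) (fun n => (N n (Q n)).ρ)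
    (fun n => (N n (Q n)).ext) (fun n => (Q n).ta) f hf

end Pool.Agent.N571.SS
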