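import Pool.Agent.N571.SS.Stm

set_option autoImplicit false

namespace Pool.Agent.N571.SS

namespace CICAux

theorem c_notMem {Γ : Type} [Group Γ] {K : ℕ → Subgroup Γ} {c : ℕ → Γ} (h : Chain Γ K c) (m : ℕ) :
    c m ∉ K m := by
  intro hc
  obtain ⟨ρ, h1, h2⟩ := h.ret m
  have h3 := h1 (c m) hc (h.memc m)
  rw [h2] at h3
  have h4 := congrArg WR.lamp h3
  simp at h4

theorem conj_notMem {Γ : Type} [Group Γ] {K : ℕ → Subgroup Γ} {c : ℕ → Γ} (h : Chain Γ K c) (m : ℕ)
    {x : Γ} (hx : x ∈ K m) (hx1 : x ≠ 1) : c m * x * (c m)⁻¹ ∉ K m := by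
  intro hc
  obtain ⟨ρ, h1, h2⟩ := h.ret m
  have hxm : x ∈ K (m + 1) := h.mono (Nat.le_succ m) hx
  have hy : c m * x * (c m)⁻¹ ∈ K (m + 1) := h.mono (Nat.le_succ m) hc
  have h3 := h1 _ hc hy
  have h4 : (⟨c m * x * (c m)⁻¹, hy⟩ : K (m + 1)) =
      ⟨c m, h.memc m⟩ * ⟨x, hxm⟩ * (⟨c m, h.memc m⟩ : K (m + 1))⁻¹ := rfl
  rw [h4, map_mul, map_mul, map_inv, h2, h1 x hx hxm] at h3
  have h5 := congrArg (fun w : WR (K m) => (1 : K m) ∈ w.lamp) h3
  simp only [Finset.notMem_empty, eq_iff_iff, iff_false] at h5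
  apply h5
  rw [WR.mem_mul, WR.mem_mul, WR.mem_inv]
  simp only [WR.mul_pos, one_mul, inv_one, mul_one, Finset.mem_singleton, Finset.notMem_empty, iff_false,
    not_true_eq_false, not_false_eq_true, true_iff, not_not]
  intro h6
  apply hx1
  have h7 : (⟨x, hx⟩ : K m) = 1 := by
    simpa using h6
  exact congrArg Subtype.val h7

end CICAux

theorem t_cic : S_CIC := by
  intro Γ _ K c h
  refine ⟨?_, ?_⟩
  · intro x hx
    obtain ⟨n, hn⟩ := h.top x
    have hmem : ∀ m, x ∈ K (n + m) := fun m => h.mono (Nat.le_add_right n m) hn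
    have hinj : Function.Injective fun m : ℕ => c (n + m) * x * (c (n + m))⁻¹ := by
      have key : ∀ m m' : ℕ, m < m' → c (n + m) * x * (c (n + m))⁻¹ ≠ c (n + m') * x * (c (n + m'))⁻¹ := by
        intro m m' hm he
        apply CICAux.conj_notMem h (n + m') (hmem m') hx
        rw [← he]
        apply h.mono (show n + m + 1 ≤ n + m' by omega)
        exact Subgroup.mul_mem _ (Subgroup.mul_mem _ (h.memc _) (h.mono (Nat.le_succ _) (hmem m)))
          (Subgroup.inv_mem _ (h.memc _))
      intro m m' he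
      rcases lt_trichotomy m m' with h1 | h1 | h1
      · exact absurd he (key m m' h1)
      · exact h1
      · exact absurd he.symm (key m' m h1)
    exact Set.infinite_of_injective_forall_mem hinj (fun m => ⟨c (n + m), rfl⟩)
  · have hinj : Function.Injective c := by
      have key : ∀ m m' : ℕ, m < m' → c m ≠ c m' := by
        intro m m' hm he
        apply CICAux.c_notMem h m'
        rw [← he]
        exact h.mono (show m + 1 ≤ m' by omega) (h.memc m)
      intro m m' he
      rcases lt_trichotomy m m' with h1 | h1 | h1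
      · exact absurd he (key m m' h1)
      · exact h1
      · exact absurd he.symm (key m' m h1)
    exact Infinite.of_injective c hinj

end Pool.Agent.N571.SS
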