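import Pool.Agent.N571.SS.VN

/-!
# Project SS: the commutation theorem for `L(K)` (helper955)
-/

set_option autoImplicit false

namespace Pool.Agent.N571.SS

namespace COM

open Pool.Agent.H494R3.GT (L2 dl op_ext_inner mul_ap inner_dl)
open Pool.Agent.N557.QW (lam rgt LG LK cf rc mem_LG_iff lam_dl star_lam)

variable {G : Type} [Group G]

lemma inner_adj (x : L2 G →L[ℂ] L2 G) (t : G) (v : L2 G) :
    inner ℂ (dl t) (x v) = ∑' g : G, inner ℂ (dl t) (x (dl g)) * inner ℂ (dl g) v := by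
  have h1 : inner ℂ (dl t) (x v) = inner ℂ ((star x) (dl t)) v := by
    rw [ContinuousLinearMap.star_eq_adjoint, ContinuousLinearMap.adjoint_inner_left]
  rw [h1, lp.inner_eq_tsum]
  refine tsum_congr fun g => ?_
  rw [← inner_dl g ((star x) (dl t)), ← inner_dl g v, ContinuousLinearMap.star_eq_adjoint,
    ContinuousLinearMap.adjoint_inner_right, RCLike.inner_apply, inner_conj_symm, mul_comm]

lemma entry {x : L2 G →L[ℂ] L2 G} (hx : x ∈ LG G) (s t : G) :
    inner ℂ (dl t) (x (dl s)) = cf x (t * s⁻¹) := mem_LG_iff.1 hx s t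

lemma left_sum {x : L2 G →L[ℂ] L2 G} (hx : x ∈ LG G) (y : L2 G →L[ℂ] L2 G) (s t : G) :
    inner ℂ (dl t) (x (y (dl s))) = ∑' k : G, cf x k * inner ℂ (dl (k⁻¹ * t)) (y (dl s)) := by
  rw [inner_adj, ← ((Equiv.inv G).trans (Equiv.mulRight t)).tsum_eq]
  refine tsum_congr fun k => ?_
  have h1 : ((Equiv.inv G).trans (Equiv.mulRight t)) k = k⁻¹ * t := rfl
  rw [h1, entry hx]
  congr 2
  group

lemma right_sum {x : L2 G →L[ℂ] L2 G} (hx : x ∈ LG G) (y : L2 G →L[ℂ] L2 G) (s t : G) :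
    inner ℂ (dl t) (y (x (dl s))) = ∑' k : G, cf x k * inner ℂ (dl t) (y (dl (k * s))) := by
  rw [inner_adj, ← (Equiv.mulRight s).tsum_eq]
  refine tsum_congr fun k => ?_
  have h1 : (Equiv.mulRight s) k = k * s := rfl
  rw [h1, entry hx, mul_comm]
  congr 2
  group

lemma shift (y : L2 G →L[ℂ] L2 G) (k : G) (h : y * lam k = lam k * y) (s t : G) :
    inner ℂ (dl (k⁻¹ * t)) (y (dl s)) = inner ℂ (dl t) (y (dl (k * s))) := by
  rw [← lam_dl k⁻¹ t, ← star_lam, ContinuousLinearMap.star_eq_adjoint,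
    ContinuousLinearMap.adjoint_inner_left, ← mul_ap, ← h, mul_ap, lam_dl]

lemma comm {x : L2 G →L[ℂ] L2 G} (hx : x ∈ LG G) (y : L2 G →L[ℂ] L2 G)
    (h : ∀ k : G, cf x k ≠ 0 → y * lam k = lam k * y) : x * y = y * x := by
  apply op_ext_inner
  intro t s
  rw [mul_ap, mul_ap, left_sum hx, right_sum hx]
  refine tsum_congr fun k => ?_
  by_cases hk : cf x k = 0
  · rw [hk, zero_mul, zero_mul]
  · rw [shift y k (h k hk)]

end COM

/-- the commutation theorem for `L(K)` -/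
theorem t_com (h : Pool.Agent.N571.EX.S_TR) : S_COM := by
  intro G _ K
  refine ⟨fun x hx y hy => ?_, fun x hx y hy => COM.comm hx y fun k _ => hy k⟩
  obtain ⟨h1, h2⟩ := ((h G K).1 x).1 hx
  refine COM.comm h1 y fun k hk => hy k ?_
  by_contra h3
  exact hk (h2 k h3)

end Pool.Agent.N571.SS
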