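import Pool.Agent.N571.SS.Stm

/-!
# Project SS, EXG: the union of the chain is existential in the lamplighter group (helper487)
-/

set_option autoImplicit false

namespace Pool.Agent.N571.SS

open Filter Topology
open scoped symmDiff

namespace EXG

variable {Γ : Type} [Group Γ]

/-- the product of the elements `D g`, `g ∈ S`, in some order -/
noncomputable def P (D : Γ → Γ) (S : Finset Γ) : Γ := (S.toList.map D).prod

lemma P_empty (D : Γ → Γ) : P D ∅ = 1 := by simp [P]

open Classical in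
lemma P_insert {D : Γ → Γ} {Q : Finset Γ} (hQ : ∀ g ∈ Q, ∀ h ∈ Q, Commute (D g) (D h)) {S : Finset Γ} {g : Γ}
    (hg : g ∉ S) (hS : insert g S ⊆ Q) : P D (insert g S) = D g * P D S := by
  have hp : ((insert g S).toList.map D).Perm ((g :: S.toList).map D) := (Finset.toList_insert hg).map D
  have hc : ((insert g S).toList.map D).Pairwise Commute := by
    rw [List.pairwise_map]
    refine List.Pairwise.imp_of_mem (R := fun _ _ => True) ?_ (List.pairwise_of_forall (fun _ _ => trivial))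
    intro a b ha hb _
    exact hQ a (hS (Finset.mem_toList.1 ha)) b (hS (Finset.mem_toList.1 hb))
  unfold P
  rw [hp.prod_eq' hc]
  simp

open Classical in
lemma P_symm {D : Γ → Γ} {Q : Finset Γ} (hQ : ∀ g ∈ Q, ∀ h ∈ Q, Commute (D g) (D h)) (hD : ∀ g, D g * D g = 1)
    {S : Finset Γ} {g : Γ} (hg : g ∈ Q) (hS : S ⊆ Q) : P D (S ∆ {g}) = D g * P D S := by
  by_cases h : g ∈ S
  · have e1 : S ∆ {g} = S.erase g := by
      ext x
      simp only [Finset.mem_symmDiff, Finset.mem_singleton, Finset.mem_erase]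
      constructor
      · rintro (⟨h1, h2⟩ | ⟨h1, h2⟩)
        · exact ⟨h2, h1⟩
        · exact absurd (h1 ▸ h) h2
      · rintro ⟨h1, h2⟩
        exact Or.inl ⟨h2, h1⟩
    have e2 : P D S = D g * P D (S.erase g) := by
      have := P_insert (S := S.erase g) hQ (Finset.notMem_erase g S) (by rw [Finset.insert_erase h]; exact hS)
      rwa [Finset.insert_erase h] at this
    rw [e1, e2, ← mul_assoc, hD, one_mul]
  · have e1 : S ∆ {g} = insert g S := by
      ext x
      simp only [Finset.mem_symmDiff, Finset.mem_singleton, Finset.mem_insert]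
      constructor
      · rintro (⟨h1, h2⟩ | ⟨h1, h2⟩)
        · exact Or.inr h1
        · exact Or.inl h1
      · rintro (h1 | h1)
        · exact Or.inr ⟨h1, h1 ▸ h⟩
        · exact Or.inl ⟨h1, fun h2 => h (h2 ▸ h1)⟩
    rw [e1]
    exact P_insert hQ h (Finset.insert_subset hg hS)

open Classical in
lemma P_mul {D : Γ → Γ} {Q : Finset Γ} (hQ : ∀ g ∈ Q, ∀ h ∈ Q, Commute (D g) (D h)) (hD : ∀ g, D g * D g = 1)
    {U : Finset Γ} (hU : U ⊆ Q) (S : Finset Γ) (hS : S ⊆ Q) : P D (S ∆ U) = P D S * P D U := by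
  induction S using Finset.induction_on with
  | empty =>
    rw [P_empty, one_mul]
    congr 1
    ext x
    simp [Finset.mem_symmDiff]
  | insert g S hg ih =>
    have hS' : S ⊆ Q := (Finset.subset_insert g S).trans hS
    have hgQ : g ∈ Q := hS (Finset.mem_insert_self g S)
    have e1 : (insert g S) ∆ U = (S ∆ U) ∆ {g} := by
      ext x
      simp only [Finset.mem_symmDiff, Finset.mem_singleton, Finset.mem_insert]
      by_cases hx : x = g
      · subst hx
        simp only [true_or, true_and, hg, false_and, false_or, not_true_eq_false, and_false, and_true, or_false]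
        tauto
      · simp only [hx, false_or, not_false_eq_true, and_true, false_and, or_false]
    have hSU : S ∆ U ⊆ Q := by
      intro x hx
      rcases Finset.mem_symmDiff.1 hx with h | h
      · exact hS' h.1
      · exact hU h.1
    rw [e1, P_symm hQ hD hgQ hSU, ih hS', P_insert hQ hg hS, mul_assoc]

open Classical in
lemma P_conj {D : Γ → Γ} {Q : Finset Γ} (hQ : ∀ g ∈ Q, ∀ h ∈ Q, Commute (D g) (D h)) (γ : Γ)
    (hD : ∀ g, D (γ * g) = γ * D g * γ⁻¹) (S : Finset Γ) (hS : S ⊆ Q) (hS2 : S.map (mulLeftEmbedding γ) ⊆ Q) :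
    P D (S.map (mulLeftEmbedding γ)) = γ * P D S * γ⁻¹ := by
  induction S using Finset.induction_on with
  | empty => simp [P_empty]
  | insert g S hg ih =>
    have hS' : S ⊆ Q := (Finset.subset_insert g S).trans hS
    rw [Finset.map_insert] at hS2 ⊢
    have h1 : mulLeftEmbedding γ g ∉ S.map (mulLeftEmbedding γ) := by
      rw [Finset.mem_map']
      exact hg
    rw [P_insert hQ h1 hS2, P_insert hQ hg hS, ih hS' ((Finset.subset_insert _ _).trans hS2)]
    have h2 : D (mulLeftEmbedding γ g) = γ * D g * γ⁻¹ := hD g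
    rw [h2]
    group

/-- the conjugates of `c n` -/
def d (c : ℕ → Γ) (n : ℕ) (g : Γ) : Γ := g * c n * g⁻¹

lemma d_sq {c : ℕ → Γ} (h : ∀ n, c n * c n = 1) (n : ℕ) (g : Γ) : d c n g * d c n g = 1 := by
  unfold d
  calc g * c n * g⁻¹ * (g * c n * g⁻¹) = g * (c n * c n) * g⁻¹ := by group
    _ = 1 := by rw [h]; group

lemma d_conj (c : ℕ → Γ) (n : ℕ) (γ g : Γ) : d c n (γ * g) = γ * d c n g * γ⁻¹ := by
  unfold d
  group

lemma comm_fin {c : ℕ → Γ} (h : ∀ g, ∀ᶠ n in atTop, Commute (c n) (g * c n * g⁻¹)) (Q : Finset Γ) :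
    ∀ᶠ n in atTop, ∀ g ∈ Q, ∀ h ∈ Q, Commute (d c n g) (d c n h) := by
  rw [Filter.eventually_all_finset]
  intro g _
  rw [Filter.eventually_all_finset]
  intro k _
  filter_upwards [h (g⁻¹ * k)] with n hn
  have h1 : Commute (g * c n * g⁻¹) (g * (g⁻¹ * k * c n * (g⁻¹ * k)⁻¹) * g⁻¹) := by
    unfold Commute SemiconjBy at hn ⊢
    calc g * c n * g⁻¹ * (g * (g⁻¹ * k * c n * (g⁻¹ * k)⁻¹) * g⁻¹)
        = g * (c n * (g⁻¹ * k * c n * (g⁻¹ * k)⁻¹)) * g⁻¹ := by group
      _ = g * ((g⁻¹ * k * c n * (g⁻¹ * k)⁻¹) * c n) * g⁻¹ := by rw [hn]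
      _ = _ := by group
  have e : g * (g⁻¹ * k * c n * (g⁻¹ * k)⁻¹) * g⁻¹ = k * c n * k⁻¹ := by group
  rw [e] at h1
  exact h1

/-- the image of the product under the retraction -/
lemma ret_list {K : ℕ → Subgroup Γ} {c : ℕ → Γ} (hm : Monotone K) (hc : ∀ n, c n ∈ K (n + 1)) (n : ℕ)
    (ρ : K (n + 1) →* WR (K n))
    (h1 : ∀ g (h : g ∈ K n) (h' : g ∈ K (n + 1)), ρ ⟨g, h'⟩ = ⟨∅, ⟨g, h⟩⟩)
    (h2 : ρ ⟨c n, hc n⟩ = ⟨{1}, 1⟩) (l : List Γ) (hl : ∀ g ∈ l, g ∈ K n) (hn : l.Nodup) :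
    ∃ hz : (l.map (d c n)).prod ∈ K (n + 1), (ρ ⟨_, hz⟩).pos = 1 ∧
      ∀ k : K n, k ∈ (ρ ⟨_, hz⟩).lamp ↔ (k : Γ) ∈ l := by
  induction l with
  | nil =>
    refine ⟨by simpa using (K (n + 1)).one_mem, ?_, ?_⟩
    · have : (⟨([].map (d c n)).prod, by simpa using (K (n + 1)).one_mem⟩ : K (n + 1)) = 1 := by
        ext
        simp
      rw [this, map_one]
      rfl
    · intro k
      have : (⟨([].map (d c n)).prod, by simpa using (K (n + 1)).one_mem⟩ : K (n + 1)) = 1 := by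
        ext
        simp
      rw [this, map_one]
      simp
  | cons g l ih =>
    obtain ⟨hz, hp, hlamp⟩ := ih (fun x hx => hl x (List.mem_cons_of_mem g hx)) (List.nodup_cons.1 hn).2
    have hg : g ∈ K n := hl g List.mem_cons_self
    have hg' : g ∈ K (n + 1) := hm (Nat.le_succ n) hg
    have hd : d c n g ∈ K (n + 1) := mul_mem (mul_mem hg' (hc n)) (inv_mem hg')
    have hprod : ((g :: l).map (d c n)).prod = d c n g * (l.map (d c n)).prod := by simp
    have hz' : ((g :: l).map (d c n)).prod ∈ K (n + 1) := by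
      rw [hprod]
      exact mul_mem hd hz
    have e1 : (⟨_, hz'⟩ : K (n + 1)) = ⟨g, hg'⟩ * ⟨c n, hc n⟩ * ⟨g, hg'⟩⁻¹ * ⟨_, hz⟩ := by
      ext
      exact hprod
    have e2 : ρ ⟨_, hz'⟩ = (⟨∅, ⟨g, hg⟩⟩ : WR (K n)) * ⟨{1}, 1⟩ * (⟨∅, ⟨g, hg⟩⟩ : WR (K n))⁻¹ * ρ ⟨_, hz⟩ := by
      rw [e1, map_mul, map_mul, map_mul, map_inv, h1 g hg hg', h2]
    refine ⟨hz', ?_, ?_⟩
    · rw [e2]
      simp [hp]
    · intro k
      rw [e2]
      simp only [WR.mem_mul, WR.mul_pos, WR.inv_pos, WR.mem_inv, Finset.notMem_empty, Finset.mem_singleton, mul_one,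
        mul_inv_cancel, inv_one, one_mul, false_iff, iff_false, not_not, hlamp, List.mem_cons]
      have hgl : g ∉ l := (List.nodup_cons.1 hn).1
      have e3 : (⟨g, hg⟩ : K n)⁻¹ * k = 1 ↔ (k : Γ) = g := by
        rw [inv_mul_eq_one]
        constructor
        · intro h
          rw [← h]
        · intro h
          ext
          exact h.symm
      rw [e3]
      by_cases hk : (k : Γ) = g
      · simp [hk, hgl]
      · simp [hk]

end EXG

open EXG in
/-- **EXG.** -/
theorem t_exg : S_EXG := by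
  classical
  intro Γ _ K c H
  refine ⟨fun n x => emb Γ (P (d c n) x.lamp * x.pos), ?_⟩
  constructor
  · exact fun n x => ⟨_, rfl⟩
  · intro x y
    filter_upwards [comm_fin H.comm (x.lamp ∪ (y.lamp ∪ y.lamp.map (mulLeftEmbedding x.pos)))] with n hn
    have hl : (x * y).lamp = x.lamp ∆ (y.lamp.map (mulLeftEmbedding x.pos)) := by
      ext g
      rw [WR.mem_mul, Finset.mem_symmDiff, Finset.mem_map]
      have : (∃ a ∈ y.lamp, (mulLeftEmbedding x.pos) a = g) ↔ x.pos⁻¹ * g ∈ y.lamp := by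
        constructor
        · rintro ⟨a, ha, rfl⟩
          simpa using ha
        · intro h
          exact ⟨_, h, by simp⟩
      rw [this]
      tauto
    have h1 : x.lamp ⊆ x.lamp ∪ (y.lamp ∪ y.lamp.map (mulLeftEmbedding x.pos)) := Finset.subset_union_left
    have h2 : y.lamp ⊆ x.lamp ∪ (y.lamp ∪ y.lamp.map (mulLeftEmbedding x.pos)) :=
      Finset.subset_union_left.trans Finset.subset_union_right
    have h3 : y.lamp.map (mulLeftEmbedding x.pos) ⊆ x.lamp ∪ (y.lamp ∪ y.lamp.map (mulLeftEmbedding x.pos)) :=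
      Finset.subset_union_right.trans Finset.subset_union_right
    rw [← map_mul]
    congr 1
    rw [hl, P_mul hn (d_sq H.sq n) h3 _ h1, P_conj hn x.pos (d_conj c n x.pos) _ h2 h3, WR.mul_pos]
    group
  · intro x hx
    obtain ⟨N, hN⟩ : ∃ N, ∀ n, N ≤ n → (∀ g ∈ x.lamp, g ∈ K n) ∧ x.pos ∈ K n := by
      have h1 : ∀ g : Γ, ∀ᶠ n in atTop, g ∈ K n := by
        intro g
        obtain ⟨n0, h0⟩ := H.top g
        filter_upwards [eventually_ge_atTop n0] with n hn
        exact H.mono hn h0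
      have h2 : ∀ᶠ n in atTop, ∀ g ∈ x.lamp, g ∈ K n := (Filter.eventually_all_finset _).2 fun g _ => h1 g
      exact eventually_atTop.1 (h2.and (h1 x.pos))
    filter_upwards [eventually_ge_atTop N] with n hn hcon
    obtain ⟨ha, hb⟩ := hN n hn
    obtain ⟨ρ, hρ1, hρ2⟩ := H.ret n
    obtain ⟨hz, hp, hlamp⟩ := ret_list H.mono H.memc n ρ hρ1 hρ2 x.lamp.toList
      (fun g hg => ha g (Finset.mem_toList.1 hg)) x.lamp.nodup_toList
    have hb' : x.pos ∈ K (n + 1) := H.mono (Nat.le_succ n) hb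
    have h1 : P (d c n) x.lamp * x.pos = 1 := congrArg WR.pos hcon
    have h2 : (⟨_, hz⟩ : K (n + 1)) * ⟨x.pos, hb'⟩ = 1 := by
      ext
      exact h1
    have h3 : ρ ⟨_, hz⟩ * ρ ⟨x.pos, hb'⟩ = 1 := by
      rw [← map_mul, h2, map_one]
    rw [hρ1 x.pos hb hb'] at h3
    apply hx
    ext g
    · simp only [WR.one_lamp, Finset.notMem_empty, iff_false]
      intro hg
      have h4 : (⟨g, ha g hg⟩ : K n) ∈ (ρ ⟨_, hz⟩ * (⟨∅, ⟨x.pos, hb⟩⟩ : WR (K n))).lamp := by
        rw [WR.mem_mul, hlamp]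
        simp [hg]
      rw [h3] at h4
      simp at h4
    · have h4 := congrArg WR.pos h3
      rw [WR.mul_pos, hp, one_mul] at h4
      exact congrArg Subtype.val h4
  · rintro x ⟨g, rfl⟩
    refine Filter.Eventually.of_forall fun n => ?_
    have h1 : (emb Γ g).lamp = ∅ := rfl
    have h2 : (emb Γ g).pos = g := rfl
    rw [h1, h2, P_empty, one_mul]

end Pool.Agent.N571.SS
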