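import Pool.Agent.N571.SS.Stm

/-!
# Project SS: from the local to the global form of bi-exactness
-/

set_option autoImplicit false

namespace Pool.Agent.N571.SS

namespace GLBAux

open Filter Topology
open scoped Pointwise

noncomputable section

variable {G : Type}

/-! ### the norm of `ℓ¹` -/

lemma l1_eq_sum {p : G →₀ ℝ} {S : Finset G} (h : p.support ⊆ S) : l1 p = ∑ g ∈ S, |p g| := by
  unfold l1
  rw [Finsupp.sum_of_support_subset p h]
  simp

lemma l1_nonneg (p : G →₀ ℝ) : 0 ≤ l1 p := by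
  unfold l1
  exact Finset.sum_nonneg fun _ _ => abs_nonneg _

lemma l1_zero : l1 (0 : G →₀ ℝ) = 0 := by
  unfold l1
  simp

lemma l1_add (p q : G →₀ ℝ) : l1 (p + q) ≤ l1 p + l1 q := by
  classical
  rw [l1_eq_sum (S := p.support ∪ q.support) Finsupp.support_add,
    l1_eq_sum (p := p) (S := p.support ∪ q.support) Finset.subset_union_left,
    l1_eq_sum (p := q) (S := p.support ∪ q.support) Finset.subset_union_right,
    ← Finset.sum_add_distrib]
  exact Finset.sum_le_sum fun g _ => by
    rw [Finsupp.add_apply]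
    exact abs_add_le _ _

lemma l1_smul (c : ℝ) (p : G →₀ ℝ) : l1 (c • p) = |c| * l1 p := by
  rw [l1_eq_sum (p := c • p) (S := p.support) Finsupp.support_smul,
    l1_eq_sum (p := p) (S := p.support) subset_rfl, Finset.mul_sum]
  exact Finset.sum_congr rfl fun g _ => by
    rw [Finsupp.smul_apply, smul_eq_mul, abs_mul]

lemma l1_neg (p : G →₀ ℝ) : l1 (-p) = l1 p := by
  have := l1_smul (-1) p
  simpa using this

lemma l1_sub (p q : G →₀ ℝ) : l1 (p - q) ≤ l1 p + l1 q := by
  rw [sub_eq_add_neg]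
  exact (l1_add _ _).trans (by rw [l1_neg])

lemma l1_sum (I : Finset ℕ) (f : ℕ → (G →₀ ℝ)) : l1 (∑ i ∈ I, f i) ≤ ∑ i ∈ I, l1 (f i) := by
  classical
  induction I using Finset.induction_on with
  | empty => simp [l1_zero]
  | insert a s ha ih =>
    rw [Finset.sum_insert ha, Finset.sum_insert ha]
    exact (l1_add _ _).trans (by linarith)

lemma l1_sum_le (I : Finset ℕ) (f : ℕ → (G →₀ ℝ)) (c : ℝ) (h : ∀ i ∈ I, l1 (f i) ≤ c) :
    l1 (∑ i ∈ I, f i) ≤ I.card * c := by
  refine (l1_sum I f).trans ?_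
  have := Finset.sum_le_card_nsmul I (fun i => l1 (f i)) c h
  simpa using this

lemma l1_pr {p : G →₀ ℝ} (h : Pr p) : l1 p = 1 := by
  rw [← h.one]
  unfold l1
  exact Finset.sum_congr rfl fun g _ => abs_of_nonneg (h.nonneg g)

/-! ### averages -/

/-- the average -/
def avg (I : Finset ℕ) (f : ℕ → (G →₀ ℝ)) : G →₀ ℝ := ((I.card : ℝ)⁻¹) • ∑ i ∈ I, f i

lemma avg_pr {I : Finset ℕ} (hI : I.Nonempty) {f : ℕ → (G →₀ ℝ)} (h : ∀ i, Pr (f i)) :
    Pr (avg I f) := by
  classical
  constructor
  · intro g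
    unfold avg
    rw [Finsupp.smul_apply, Finsupp.finset_sum_apply, smul_eq_mul]
    exact mul_nonneg (by positivity) (Finset.sum_nonneg fun i _ => (h i).nonneg g)
  · unfold avg
    rw [Finsupp.sum_smul_index' (by simp)]
    have h1 : (∑ i ∈ I, f i).sum (fun _ a => (I.card : ℝ)⁻¹ • a) =
        ∑ i ∈ I, (f i).sum (fun _ a => (I.card : ℝ)⁻¹ • a) := by
      rw [Finsupp.sum_finset_sum_index]
      · simp
      · intro a b c
        simp [mul_add]
    rw [h1]
    have h2 : ∀ i ∈ I, (f i).sum (fun _ a => (I.card : ℝ)⁻¹ • a) = (I.card : ℝ)⁻¹ := by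
      intro i _
      have h3 : (f i).sum (fun _ a => (I.card : ℝ)⁻¹ • a) =
          (I.card : ℝ)⁻¹ * (f i).sum (fun _ a => a) := by
        unfold Finsupp.sum
        rw [Finset.mul_sum]
        rfl
      rw [h3, (h i).one, mul_one]
    rw [Finset.sum_congr rfl h2, Finset.sum_const, nsmul_eq_mul]
    have : (I.card : ℝ) ≠ 0 := by
      have := hI.card_pos
      positivity
    field_simp

lemma avg_diff (I J : Finset ℕ) (hI : I.Nonempty) (hJ : J.Nonempty) (f : ℕ → (G →₀ ℝ))
    (h : ∀ i, l1 (f i) ≤ 1) (n : ℕ) (hn : (J \ I).card + (I \ J).card ≤ n) :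
    l1 (avg J f - avg I f) ≤ 2 * n / J.card := by
  classical
  have hi : (0 : ℝ) < I.card := by
    have := hI.card_pos
    positivity
  have hj : (0 : ℝ) < J.card := by
    have := hJ.card_pos
    positivity
  have e : avg J f - avg I f = ((J.card : ℝ)⁻¹) • (∑ i ∈ J \ I, f i - ∑ i ∈ I \ J, f i) +
      ((J.card : ℝ)⁻¹ - (I.card : ℝ)⁻¹) • ∑ i ∈ I, f i := by
    rw [Finset.sum_sdiff_sub_sum_sdiff]
    unfold avg
    module
  rw [e]
  have h1 : l1 (((J.card : ℝ)⁻¹) • (∑ i ∈ J \ I, f i - ∑ i ∈ I \ J, f i)) ≤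
      n / J.card := by
    rw [l1_smul, abs_of_pos (inv_pos.2 hj), div_eq_inv_mul]
    refine mul_le_mul_of_nonneg_left ?_ (inv_pos.2 hj).le
    refine (l1_sub _ _).trans ?_
    have a1 := l1_sum_le (J \ I) f 1 fun i _ => h i
    have a2 := l1_sum_le (I \ J) f 1 fun i _ => h i
    have a3 : (((J \ I).card : ℝ) + ((I \ J).card : ℝ)) ≤ n := by exact_mod_cast hn
    linarith
  have h2 : l1 (((J.card : ℝ)⁻¹ - (I.card : ℝ)⁻¹) • ∑ i ∈ I, f i) ≤ n / J.card := by
    rw [l1_smul]
    have a1 := l1_sum_le I f 1 fun i _ => h i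
    have e1 : (J.card : ℝ)⁻¹ - (I.card : ℝ)⁻¹ =
        ((I.card : ℝ) - J.card) / (J.card * I.card) := by
      field_simp
    have e2 : |(I.card : ℝ) - J.card| ≤ n := by
      have b1 : I.card ≤ J.card + (I \ J).card := by
        have := Finset.card_le_card_sdiff_add_card (s := I) (t := J)
        omega
      have b2 : J.card ≤ I.card + (J \ I).card := by
        have := Finset.card_le_card_sdiff_add_card (s := J) (t := I)
        omega
      rw [abs_le]
      have b3 : (I.card : ℝ) ≤ J.card + n := by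
        have : I.card ≤ J.card + n := by omega
        exact_mod_cast this
      have b4 : (J.card : ℝ) ≤ I.card + n := by
        have : J.card ≤ I.card + n := by omega
        exact_mod_cast this
      constructor <;> linarith
    rw [e1, abs_div, abs_of_pos (mul_pos hj hi)]
    calc |(I.card : ℝ) - J.card| / (J.card * I.card) * l1 (∑ i ∈ I, f i)
        ≤ n / (J.card * I.card) * (I.card * 1) := by
          refine mul_le_mul ?_ a1 (l1_nonneg _) (by positivity)
          exact div_le_div_of_nonneg_right e2 (by positivity)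
      _ = n / J.card := by
          field_simp
  refine (l1_add _ _).trans ?_
  have : 2 * (n : ℝ) / J.card = n / J.card + n / J.card := by ring
  rw [this]
  linarith

lemma avg_sub_le (I : Finset ℕ) (hI : I.Nonempty) (f g : ℕ → (G →₀ ℝ)) (c : ℝ)
    (h : ∀ i ∈ I, l1 (f i - g i) ≤ c) : l1 (avg I f - avg I g) ≤ c := by
  have hi : (0 : ℝ) < I.card := by
    have := hI.card_pos
    positivity
  have e : avg I f - avg I g = ((I.card : ℝ)⁻¹) • ∑ i ∈ I, (f i - g i) := by
    unfold avg
    rw [Finset.sum_sub_distrib, smul_sub]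
  rw [e, l1_smul, abs_of_pos (inv_pos.2 hi)]
  have := l1_sum_le I (fun i => f i - g i) c h
  calc (I.card : ℝ)⁻¹ * l1 (∑ i ∈ I, (f i - g i)) ≤ (I.card : ℝ)⁻¹ * (I.card * c) :=
        mul_le_mul_of_nonneg_left this (inv_pos.2 hi).le
    _ = c := by field_simp

lemma tr_avg [Group G] (s : G) (I : Finset ℕ) (f : ℕ → (G →₀ ℝ)) :
    tr s (avg I f) = avg I fun i => tr s (f i) := by
  unfold tr avg
  rw [Finsupp.mapDomain_smul, Finsupp.mapDomain_finset_sum]

/-! ### the filtration -/

section filt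

variable [Group G] (E F : ℕ → Finset G)

open Classical in
/-- the filtration -/
def Afil : ℕ → Finset G
  | 0 => E 0 ∪ F 0
  | k + 1 => Afil k ∪ (E k * Afil k * E k) ∪ F (k + 1) ∪ E (k + 1)

lemma Afil_mono : Monotone (Afil E F) := by
  classical
  refine monotone_nat_of_le_succ fun k => ?_
  intro x hx
  simp only [Afil, Finset.mem_union]
  tauto

lemma F_sub (k : ℕ) : F k ⊆ Afil E F k := by
  classical
  intro x hx
  cases k with
  | zero => simp only [Afil, Finset.mem_union]; tauto
  | succ k => simp only [Afil, Finset.mem_union]; tauto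

lemma E_sub (k : ℕ) : E k ⊆ Afil E F k := by
  classical
  intro x hx
  cases k with
  | zero => simp only [Afil, Finset.mem_union]; tauto
  | succ k => simp only [Afil, Finset.mem_union]; tauto

lemma mul_mem_Afil {k : ℕ} {s x t : G} (hs : s ∈ E k) (hx : x ∈ Afil E F k) (ht : t ∈ E k) :
    s * x * t ∈ Afil E F (k + 1) := by
  classical
  have : s * x * t ∈ E k * Afil E F k * E k :=
    Finset.mul_mem_mul (Finset.mul_mem_mul hs hx) ht
  simp only [Afil, Finset.mem_union]
  tauto

end filt

lemma sdiff_card {k l : ℕ} (h1 : k ≤ l + 1) (h2 : l ≤ k + 1) :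
    (Finset.Ico (k / 2) k \ Finset.Ico (l / 2) l).card ≤ 2 := by
  have : Finset.Ico (k / 2) k \ Finset.Ico (l / 2) l ⊆ {k / 2, k - 1} := by
    intro i hi
    simp only [Finset.mem_sdiff, Finset.mem_Ico, Finset.mem_insert, Finset.mem_singleton] at hi ⊢
    omega
  exact (Finset.card_le_card this).trans (Finset.card_le_two)

end

end GLBAux

open GLBAux Filter Topology in
theorem t_glb : S_GLB := by
  classical
  intro G _ _ hex hbe
  obtain ⟨f, hf⟩ := exists_surjective_nat G
  let E : ℕ → Finset G := fun k =>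
    (Finset.range k).image f ∪ (Finset.range k).image (fun i => (f i)⁻¹) ∪ {1}
  have hEm : Monotone E := by
    intro a b hab x hx
    simp only [E, Finset.mem_union, Finset.mem_image, Finset.mem_range] at hx ⊢
    rcases hx with (⟨i, hi, h⟩ | ⟨i, hi, h⟩) | h
    · exact Or.inl (Or.inl ⟨i, by omega, h⟩)
    · exact Or.inl (Or.inr ⟨i, by omega, h⟩)
    · exact Or.inr h
  have hEi : ∀ k x, x ∈ E k → x⁻¹ ∈ E k := by
    intro k x hx
    simp only [E, Finset.mem_union, Finset.mem_image, Finset.mem_range,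
      Finset.mem_singleton] at hx ⊢
    rcases hx with (⟨i, hi, h⟩ | ⟨i, hi, h⟩) | h
    · exact Or.inl (Or.inr ⟨i, hi, by rw [h]⟩)
    · exact Or.inl (Or.inl ⟨i, hi, by rw [← h, inv_inv]⟩)
    · exact Or.inr (by rw [h, inv_one])
  have hEt : ∀ x, ∃ k, x ∈ E k := by
    intro x
    obtain ⟨i, hi⟩ := hf x
    refine ⟨i + 1, ?_⟩
    simp only [E, Finset.mem_union, Finset.mem_image, Finset.mem_range]
    exact Or.inl (Or.inl ⟨i, by omega, hi⟩)
  have hloc : ∀ k : ℕ, ∃ (F : Finset G) (μ : G → (G →₀ ℝ)),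
      (∀ x, Pr (μ x)) ∧ ∀ x, x ∉ F → ∀ s ∈ E k, ∀ t ∈ E k,
        l1 (μ (s * x * t) - tr s (μ x)) < 1 / ((k : ℝ) + 1) := fun k =>
    hbe.ex (E k) (1 / ((k : ℝ) + 1)) (by positivity)
  choose F M hM hMe using hloc
  have hAt : ∀ x, ∃ k, x ∈ Afil E F k := fun x => by
    obtain ⟨k, hk⟩ := hEt x
    exact ⟨k, E_sub E F k hk⟩
  let h : G → ℕ := fun x => Nat.find (hAt x)
  have hmem : ∀ x, x ∈ Afil E F (h x) := fun x => Nat.find_spec (hAt x)
  have hle : ∀ x k, x ∈ Afil E F k → h x ≤ k := fun x k hk => Nat.find_min' (hAt x) hk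
  have hnot : ∀ x k, k < h x → x ∉ Afil E F k := fun x k hk => Nat.find_min (hAt x) hk
  have hstep : ∀ m s t x, s ∈ E m → t ∈ E m → m + 2 ≤ h x →
      h x ≤ h (s * x * t) + 1 ∧ h (s * x * t) ≤ h x + 1 := by
    intro m s t x hs ht hx
    constructor
    · set l := h (s * x * t) with hl
      have h1 : x ∈ Afil E F (max l m + 1) := by
        have h2 : s * x * t ∈ Afil E F (max l m) :=
          Afil_mono E F (le_max_left _ _) (hmem _)
        have h3 := mul_mem_Afil E F (hEm (le_max_right l m) (hEi m s hs)) h2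
          (hEm (le_max_right l m) (hEi m t ht))
        have h4 : s⁻¹ * (s * x * t) * t⁻¹ = x := by group
        rwa [h4] at h3
      have h5 := hle _ _ h1
      rcases max_cases l m with h6 | h6 <;> omega
    · exact hle _ _ (mul_mem_Afil E F (hEm (by omega) hs) (hmem x) (hEm (by omega) ht))
  have hinf : Tendsto h cofinite atTop := by
    refine tendsto_atTop.2 fun N => ?_
    rw [eventually_cofinite]
    refine (Afil E F N).finite_toSet.subset fun x hx => ?_
    simp only [not_le, Set.mem_setOf_eq] at hx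
    exact Afil_mono E F hx.le (hmem x)
  let I : ℕ → Finset ℕ := fun k => Finset.Ico (k / 2) k
  have hIne : ∀ k, 1 ≤ k → (I k).Nonempty := fun k hk => by
    refine ⟨k / 2, ?_⟩
    simp only [I, Finset.mem_Ico]
    omega
  let μ : G → (G →₀ ℝ) := fun x =>
    if h x = 0 then Finsupp.single 1 1 else avg (I (h x)) fun i => M i x
  have hμ : ∀ x, Pr (μ x) := by
    intro x
    by_cases hx : h x = 0
    · simp only [μ, if_pos hx]
      refine ⟨fun g => ?_, ?_⟩
      · rw [Finsupp.single_apply]
        split_ifs <;> norm_num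
      · rw [Finsupp.sum_single_index rfl]
    · simp only [μ, if_neg hx]
      exact avg_pr (hIne _ (by omega)) fun i => hM i x
  refine ⟨hex, μ, hμ, fun s t => ?_⟩
  obtain ⟨m1, hm1⟩ := hEt s
  obtain ⟨m2, hm2⟩ := hEt t
  set m := max m1 m2 with hm
  have hs : s ∈ E m := hEm (le_max_left _ _) hm1
  have ht : t ∈ E m := hEm (le_max_right _ _) hm2
  have key : ∀ x, 2 * m + 4 ≤ h x → l1 (μ (s * x * t) - tr s (μ x)) ≤ 34 / (h x : ℝ) := by
    intro x hx
    obtain ⟨k1, k2⟩ := hstep m s t x hs ht (by omega)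
    have hk : (0 : ℝ) < h x := by
      have : 0 < h x := by omega
      exact_mod_cast this
    have e1 : μ (s * x * t) = avg (I (h (s * x * t))) fun i => M i (s * x * t) := by
      simp only [μ]
      rw [if_neg (by omega)]
    have e2 : μ x = avg (I (h x)) fun i => M i x := by
      simp only [μ]
      rw [if_neg (by omega)]
    rw [e1, e2, tr_avg]
    set J := I (h (s * x * t)) with hJ
    have b1 : l1 (avg J (fun i => M i (s * x * t)) - avg (I (h x)) fun i => M i (s * x * t)) ≤
        2 * ((4 : ℕ) : ℝ) / J.card := by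
      refine avg_diff _ _ (hIne _ (by omega)) (hIne _ (by omega)) _
        (fun i => (l1_pr (hM i _)).le) 4 ?_
      have c1 := sdiff_card k1 k2
      have c2 := sdiff_card k2 k1
      simp only [hJ, I]
      omega
    have b2 : l1 (avg (I (h x)) (fun i => M i (s * x * t)) -
        avg (I (h x)) fun i => tr s (M i x)) ≤ 2 / (h x : ℝ) := by
      refine avg_sub_le _ (hIne _ (by omega)) _ _ _ fun i hi => ?_
      simp only [I, Finset.mem_Ico] at hi
      have c1 : x ∉ F i := fun hc => hnot x i hi.2 (F_sub E F i hc)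
      have c2 := hMe i x c1 s (hEm (by omega) hs) t (hEm (by omega) ht)
      refine c2.le.trans ?_
      have c3 : (h x : ℝ) ≤ 2 * ((i : ℝ) + 1) := by
        have : h x ≤ 2 * (i + 1) := by omega
        exact_mod_cast this
      rw [div_le_div_iff₀ (by positivity) hk]
      linarith
    have b3 : 2 * ((4 : ℕ) : ℝ) / J.card ≤ 32 / (h x : ℝ) := by
      have c1 : h x ≤ 4 * J.card := by
        simp only [hJ, I, Nat.card_Ico]
        omega
      have c2 : (h x : ℝ) ≤ 4 * (J.card : ℝ) := by exact_mod_cast c1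
      have c3 : (0 : ℝ) < J.card := by linarith
      rw [div_le_div_iff₀ c3 hk]
      push_cast
      linarith
    have b4 : avg J (fun i => M i (s * x * t)) - avg (I (h x)) (fun i => tr s (M i x)) =
        (avg J (fun i => M i (s * x * t)) - avg (I (h x)) fun i => M i (s * x * t)) +
        (avg (I (h x)) (fun i => M i (s * x * t)) - avg (I (h x)) fun i => tr s (M i x)) := by
      abel
    rw [b4]
    refine (l1_add _ _).trans ?_
    have b5 : 34 / (h x : ℝ) = 32 / (h x : ℝ) + 2 / (h x : ℝ) := by ring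
    linarith
  have hlim : Tendsto (fun x => 34 / (h x : ℝ)) cofinite (𝓝 0) := by
    have h1 : Tendsto (fun x => (h x : ℝ)) cofinite atTop :=
      tendsto_natCast_atTop_atTop.comp hinf
    exact h1.const_div_atTop 34
  refine tendsto_of_tendsto_of_tendsto_of_le_of_le' tendsto_const_nhds hlim
    (Eventually.of_forall fun x => l1_nonneg _) ?_
  filter_upwards [hinf.eventually_ge_atTop (2 * m + 4)] with x hx using key x hx

end Pool.Agent.N571.SS
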