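import Pool.Agent.N571.SS.Stm

/-!
# Project SS: lifting maps of trees to coverings (written by helper935)
-/

set_option autoImplicit false

namespace Pool.Agent.N571.SS

namespace LF

open Classical in
/-- the lift of an edge -/
noncomputable def lf {Y X : Type} {B : SimpleGraph Y} {A : SimpleGraph X} {p : Y → X}
    (hc : Cov B A p) (y : Y) (x : X) : Y :=
  if h : A.Adj (p y) x then (hc.lift y x h).choose else y

lemma lf_spec {Y X : Type} {B : SimpleGraph Y} {A : SimpleGraph X} {p : Y → X}
    (hc : Cov B A p) (y : Y) (x : X) (h : A.Adj (p y) x) :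
    B.Adj y (lf hc y x) ∧ p (lf hc y x) = x := by
  unfold lf
  rw [dif_pos h]
  exact (hc.lift y x h).choose_spec.1

/-- iterated lifts -/
noncomputable def F {Z Y X : Type} {B : SimpleGraph Y} {A : SimpleGraph X} {p : Y → X}
    (hc : Cov B A p) (φ : Z → X) (π : Z → Z) (y : Y) : ℕ → Z → Y
  | 0, _ => y
  | n + 1, a => lf hc (F hc φ π y n (π a)) (φ a)

end LF

open LF

theorem t_lf (h : S_PAR) : S_LF := by
  intro Z Y X C B A p φ hC hcov hφ z y hzy
  obtain ⟨π, hπz, hπ, hpar⟩ := h Z C z hC
  have hconn : C.Connected := hC.connected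
  have hF : ∀ n a, C.dist z a = n → p (F hcov φ π y n a) = φ a := by
    intro n
    induction n with
    | zero =>
      intro a ha
      have haz : z = a := (hconn.dist_eq_zero_iff).1 ha
      subst haz
      exact hzy
    | succ n ih =>
      intro a ha
      have haz : a ≠ z := by
        rintro rfl
        rw [SimpleGraph.dist_self] at ha
        omega
      obtain ⟨h1, h2⟩ := hπ a haz
      have h3 := ih (π a) (by omega)
      have h4 : A.Adj (p (F hcov φ π y n (π a))) (φ a) := by
        rw [h3]
        exact hφ _ _ h1.symm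
      exact (lf_spec hcov _ _ h4).2
  set s : Z → Y := fun a => F hcov φ π y (C.dist z a) a with hs
  have hps : ∀ a, p (s a) = φ a := fun a => hF _ a rfl
  have hsz : s z = y := by
    simp only [hs, SimpleGraph.dist_self]
    rfl
  have hstep : ∀ a, a ≠ z → B.Adj (s (π a)) (s a) := by
    intro a ha
    obtain ⟨h1, h2⟩ := hπ a ha
    have h3 : s a = lf hcov (s (π a)) (φ a) := by
      simp only [hs]
      rw [← h2]
      rfl
    rw [h3]
    refine (lf_spec hcov _ _ ?_).1
    rw [hps]
    exact hφ _ _ h1.symm
  have hadj : ∀ a b, C.Adj a b → B.Adj (s a) (s b) := by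
    intro a b hab
    have hne : a ≠ b := hab.ne
    have h1 : C.dist a b = 1 := SimpleGraph.dist_eq_one_iff_adj.2 hab
    obtain ⟨i, j, hij, -, -, heq, -⟩ := hpar a b
    rw [h1] at hij
    have hcase : (i = 1 ∧ j = 0) ∨ (i = 0 ∧ j = 1) := by omega
    rcases hcase with ⟨rfl, rfl⟩ | ⟨rfl, rfl⟩
    · have h2 : π a = b := heq
      have haz : a ≠ z := by
        intro h3
        rw [h3, hπz] at h2
        exact hne (h3.trans h2)
      have h4 := hstep a haz
      rw [h2] at h4
      exact h4.symm
    · have h2 : a = π b := heq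
      have hbz : b ≠ z := by
        intro h3
        rw [h3, hπz] at h2
        exact hne (h2.trans h3.symm)
      have h4 := hstep b hbz
      rw [← h2] at h4
      exact h4
  refine ⟨s, ⟨hadj, hps, hsz⟩, ?_⟩
  rintro s' ⟨hadj', hps', hsz'⟩
  funext a
  obtain ⟨w⟩ := hconn.preconnected z a
  have hkey : ∀ (u v : Z) (w : C.Walk u v), s' u = s u → s' v = s v := by
    intro u v w
    induction w with
    | nil => exact fun h => h
    | @cons u v _ hab _ ih =>
      intro hu
      apply ih
      have h1 : A.Adj (p (s u)) (φ v) := by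
        rw [hps]
        exact hφ _ _ hab
      have h2 := (hcov.lift (s u) (φ v) h1).unique (y₁ := s' v) (y₂ := s v)
        ⟨by rw [← hu]; exact hadj' _ _ hab, hps' v⟩ ⟨hadj _ _ hab, hps v⟩
      exact h2
  exact hkey z a w (hsz'.trans hsz.symm)

end Pool.Agent.N571.SS
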