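import Pool.Agent.N571.SS.Stm

/-!
# Project SS: the group of lifts to the universal covering
-/

set_option autoImplicit false

namespace Pool.Agent.N571.SS

namespace LIFTaux

/-- The group of lifts. -/
def PG {Y X : Type} (Λ : Type) [Group Λ] [MulAction Λ X] (B : SimpleGraph Y) (p : Y → X) :
    Subgroup (Λ × Equiv.Perm Y) where
  carrier := {q | (∀ y, p (q.2 y) = q.1 • p y) ∧ ∀ y z, B.Adj y z ↔ B.Adj (q.2 y) (q.2 z)}
  mul_mem' := by
    rintro ⟨l, t⟩ ⟨l', t'⟩ ⟨h1, h2⟩ ⟨h3, h4⟩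
    refine ⟨fun y => ?_, fun y z => ?_⟩
    · change p (t (t' y)) = (l * l') • p y
      have e1 : p (t (t' y)) = l • p (t' y) := h1 _
      have e2 : p (t' y) = l' • p y := h3 _
      rw [e1, e2, mul_smul]
    · change B.Adj y z ↔ B.Adj (t (t' y)) (t (t' z))
      exact (h4 y z).trans (h2 _ _)
  one_mem' := by
    refine ⟨fun y => ?_, fun y z => ?_⟩
    · change p y = (1 : Λ) • p y
      rw [one_smul]
    · exact Iff.rfl
  inv_mem' := by
    rintro ⟨l, t⟩ ⟨h1, h2⟩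
    refine ⟨fun y => ?_, fun y z => ?_⟩
    · change p (t⁻¹ y) = l⁻¹ • p y
      have e1 : p (t (t⁻¹ y)) = l • p (t⁻¹ y) := h1 _
      have e0 : t (t⁻¹ y) = y := t.apply_symm_apply y
      rw [e0] at e1
      rw [e1, inv_smul_smul]
    · change B.Adj y z ↔ B.Adj (t⁻¹ y) (t⁻¹ z)
      have e := h2 (t⁻¹ y) (t⁻¹ z)
      have e0 : ∀ y, t (t⁻¹ y) = y := t.apply_symm_apply
      change B.Adj (t⁻¹ y) (t⁻¹ z) ↔ B.Adj (t (t⁻¹ y)) (t (t⁻¹ z)) at e
      rw [e0, e0] at e
      exact e.symm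

/-- The action of the group of lifts. -/
@[reducible] def act {Y X : Type} (Λ : Type) [Group Λ] [MulAction Λ X] (B : SimpleGraph Y) (p : Y → X) :
    MulAction (PG Λ B p) Y where
  smul q y := q.1.2 y
  one_smul _ := rfl
  mul_smul _ _ _ := rfl

end LIFTaux

theorem t_lift (h : S_UC) (h1 : S_LF) : S_LIFT := by
  intro X A Λ _ _ o hΛ
  obtain ⟨Y, B, p, o', hB, hp, ho⟩ := h X A o
  refine ⟨Y, B, p, o', LIFTaux.PG Λ B p, inferInstance, LIFTaux.act Λ B p,
    (MonoidHom.fst Λ (Equiv.Perm Y)).comp (LIFTaux.PG Λ B p).subtype, hB, hp, ho, ?_, ?_, ?_⟩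
  · intro q y z hyz
    exact (q.2.2 y z).1 hyz
  · intro q y
    exact q.2.1 y
  · intro l y z hz
    -- lifts
    have L : ∀ (l : Λ) (y z : Y), p z = l • p y → ∃! s : Y → Y,
        (∀ a b, B.Adj a b → B.Adj (s a) (s b)) ∧ (∀ a, p (s a) = l • p a) ∧ s y = z := by
      intro l y z hz
      exact h1 Y Y X B B A p (fun w => l • p w) hB hp
        (fun a b hab => hΛ l _ _ (hp.adj a b hab)) y z hz
    have I : ∀ (y : Y) (s : Y → Y), (∀ a b, B.Adj a b → B.Adj (s a) (s b)) →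
        (∀ a, p (s a) = p a) → s y = y → s = id := by
      intro y s hs1 hs2 hs3
      obtain ⟨s0, _, hu⟩ := L 1 y y (by rw [one_smul])
      rw [hu s ⟨hs1, fun a => by rw [one_smul]; exact hs2 a, hs3⟩]
      exact (hu id ⟨fun a b hab => hab, fun a => by rw [one_smul]; rfl, rfl⟩).symm
    obtain ⟨s, ⟨hs1, hs2, hs3⟩, hsu⟩ := L l y z hz
    obtain ⟨s', ⟨hs1', hs2', hs3'⟩, _⟩ := L l⁻¹ z y (by rw [hz, inv_smul_smul])
    have c1 : s' ∘ s = id := by
      refine I y _ (fun a b hab => hs1' _ _ (hs1 _ _ hab)) (fun a => ?_) ?_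
      · change p (s' (s a)) = p a
        rw [hs2', hs2, inv_smul_smul]
      · change s' (s y) = y
        rw [hs3, hs3']
    have c2 : s ∘ s' = id := by
      refine I z _ (fun a b hab => hs1 _ _ (hs1' _ _ hab)) (fun a => ?_) ?_
      · change p (s (s' a)) = p a
        rw [hs2, hs2', smul_inv_smul]
      · change s (s' z) = z
        rw [hs3', hs3]
    let τ : Equiv.Perm Y := ⟨s, s', fun a => congrFun c1 a, fun a => congrFun c2 a⟩
    have hτ : ((l, τ) : Λ × Equiv.Perm Y) ∈ LIFTaux.PG Λ B p := by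
      refine ⟨fun a => hs2 a, fun a b => ⟨fun hab => hs1 a b hab, fun hab => ?_⟩⟩
      have e := hs1' _ _ hab
      have ea : s' (s a) = a := congrFun c1 a
      have eb : s' (s b) = b := congrFun c1 b
      change B.Adj (s' (s a)) (s' (s b)) at e
      rwa [ea, eb] at e
    refine ⟨⟨(l, τ), hτ⟩, ⟨rfl, hs3⟩, ?_⟩
    rintro ⟨⟨l', τ'⟩, hq⟩ ⟨hl', hz'⟩
    change l' = l at hl'
    change τ' y = z at hz'
    subst hl'
    have : (τ' : Y → Y) = s :=
      hsu _ ⟨fun a b hab => (hq.2 a b).1 hab, fun a => hq.1 a, hz'⟩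
    apply Subtype.ext
    refine Prod.ext rfl ?_
    apply Equiv.ext
    intro a
    exact congrFun this a

end Pool.Agent.N571.SS
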