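import Pool.Agent.N571.SS.Stm

/-!
# Project SS, part LIM: direct limits of groups
-/

set_option autoImplicit false

namespace Pool.Agent.N571.SS

namespace LIMaux

variable {G : ℕ → Type} [∀ n, Group (G n)] (f : ∀ n, G n →* G (n + 1))

/-- the composite maps -/
def F (m n : ℕ) (h : m ≤ n) : G m →* G n :=
  Nat.leRec (motive := fun n _ => G m →* G n) (MonoidHom.id _) (fun n _ g => (f n).comp g) h

theorem F_self (m : ℕ) : F f m m (le_refl m) = MonoidHom.id _ := by
  unfold F
  exact Nat.leRec_self _ _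

theorem F_succ (m n : ℕ) (h : m ≤ n) (h' : m ≤ n + 1) :
    F f m (n + 1) h' = (f n).comp (F f m n h) := by
  unfold F
  exact Nat.leRec_succ _ _ h

theorem F_trans (i j k : ℕ) (hij : i ≤ j) (hjk : j ≤ k) (x : G i) :
    F f j k hjk (F f i j hij x) = F f i k (hij.trans hjk) x := by
  induction hjk with
  | refl =>
    rw [F_self]
    rfl
  | @step k h ih =>
    rw [F_succ f j k h, F_succ f i k (hij.trans h), MonoidHom.comp_apply, MonoidHom.comp_apply, ih]

theorem F_inj (hf : ∀ n, Function.Injective (f n)) (i j : ℕ) (h : i ≤ j) :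
    Function.Injective (F f i j h) := by
  induction h with
  | refl =>
    rw [F_self]
    exact fun _ _ h => h
  | @step k h ih =>
    rw [F_succ f i k h, MonoidHom.coe_comp]
    exact (hf k).comp ih

theorem dir : DirectedSystem G (fun i j (h : i ≤ j) => F f i j h) where
  map_self i x := by
    rw [F_self]
    rfl
  map_map k j i hij hjk x := F_trans f i j k hij hjk x

end LIMaux

/-- **(LIM)** direct limits of groups -/
theorem t_lim : S_LIM := by
  intro G _ f hf
  have hd : DirectedSystem G (fun i j (h : i ≤ j) => LIMaux.F f i j h) := LIMaux.dir f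
  let Γ := DirectLimit G (LIMaux.F f)
  let j : ∀ n, G n →* Γ := fun n =>
    { toFun := fun x => (⟦⟨n, x⟩⟧ : DirectLimit G (LIMaux.F f))
      map_one' := (DirectLimit.one_def n).symm
      map_mul' := fun x y => (DirectLimit.mul_def n x y).symm }
  refine ⟨Γ, inferInstance, j, fun n => ?_, fun n x => ?_, fun x => ?_⟩
  · exact DirectLimit.mk_injective (LIMaux.F f) (LIMaux.F_inj f hf) n
  · change (⟦⟨n + 1, f n x⟩⟧ : DirectLimit G (LIMaux.F f)) = ⟦⟨n, x⟩⟧
    rw [DirectLimit.eq_of_le (f := LIMaux.F f) ⟨n, x⟩ (n + 1) (Nat.le_succ n)]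
    rw [LIMaux.F_succ f n n le_rfl, LIMaux.F_self]
    rfl
  · obtain ⟨n, y, h⟩ := DirectLimit.exists_eq_mk (LIMaux.F f) x
    exact ⟨n, y, h.symm⟩

end Pool.Agent.N571.SS
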