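import Pool.Agent.N571.SS.Stm

/-!
# Project SS: elements moving a subtree off itself (S_MALG)

By helper346, for helper571.
-/

set_option autoImplicit false

namespace Pool.Agent.N571.SS

namespace MALG_

/-- the parent map with the root `o` -/
theorem par (h1 : S_PAR) {Y : Type} {B : SimpleGraph Y} (hB : B.IsTree) (o : Y) :
    ∃ π : Y → Y, (∀ x, x ≠ o → B.Adj x (π x) ∧ B.dist o (π x) + 1 = B.dist o x) ∧
      ∀ x y, B.Adj x y → (x = π y ∧ B.dist o x + 1 = B.dist o y) ∨
        (y = π x ∧ B.dist o y + 1 = B.dist o x) := by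
  obtain ⟨π, -, hp, hπ⟩ := h1 Y B o hB
  refine ⟨π, hp, fun x y hxy => ?_⟩
  obtain ⟨i, j, hij, hi, hj, he, -⟩ := hπ x y
  have hd : B.dist x y = 1 := SimpleGraph.dist_eq_one_iff_adj.2 hxy
  rw [hd] at hij
  rcases i with _ | i
  · have hj1 : j = 1 := by omega
    subst hj1
    left
    have hxy' : x = π y := he
    have hy : y ≠ o := by
      intro hy
      rw [hy, SimpleGraph.dist_self] at hj
      omega
    refine ⟨hxy', ?_⟩
    rw [hxy']
    exact (hp y hy).2
  · have h0 : i = 0 := by omega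
    have h0' : j = 0 := by omega
    subst h0 h0'
    right
    have hxy' : π x = y := he
    have hx : x ≠ o := by
      intro hx
      rw [hx, SimpleGraph.dist_self] at hi
      omega
    refine ⟨hxy'.symm, ?_⟩
    rw [← hxy']
    exact (hp x hx).2

/-- distances to a point from a connected set, through the nearest point -/
theorem near (h1 : S_PAR) {Y V : Type} {B : SimpleGraph Y} {T : SimpleGraph V} (hB : B.IsTree)
    (hT : T.IsTree) (s : V → Y) (hs : ∀ x y, T.Adj x y → B.Adj (s x) (s y)) (v : Y) (x0 : V)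
    (hmin : ∀ x, B.dist v (s x0) ≤ B.dist v (s x)) (x : V) :
    B.dist v (s x) = B.dist (s x0) (s x) + B.dist v (s x0) := by
  obtain ⟨πv, -, hv'⟩ := par h1 hB v
  obtain ⟨πu, hu, hu'⟩ := par h1 hB (s x0)
  have hreach : Relation.ReflTransGen T.Adj x0 x :=
    (SimpleGraph.reachable_iff_reflTransGen _ _).1 (hT.1.preconnected x0 x)
  induction hreach with
  | refl => rw [SimpleGraph.dist_self, zero_add]
  | @tail b c _ hadj ih =>
    have hc := hs b c hadj
    rcases hv' (s b) (s c) hc with ⟨e1, d1⟩ | ⟨e1, d1⟩ <;>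
      rcases hu' (s b) (s c) hc with ⟨e2, d2⟩ | ⟨e2, d2⟩
    · omega
    · have h3 := hB.1.dist_triangle (u := v) (v := s x0) (w := s c)
      omega
    · by_cases hb : s b = s x0
      · have h3 := hmin c
        rw [hb] at d1
        omega
      · obtain ⟨h3, h4⟩ := hu (s b) hb
        rcases hv' (s b) (πu (s b)) h3 with ⟨e3, d3⟩ | ⟨e3, d3⟩
        · have h5 := hB.1.dist_triangle (u := v) (v := s x0) (w := πu (s b))
          omega
        · rw [e3, ← e1] at h4
          omega
    · omega

/-- neighbours have the same nearest point -/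
theorem step (h1 : S_PAR) {Y : Type} {B : SimpleGraph Y} (hB : B.IsTree) (v v' u u' : Y)
    (hadj : B.Adj v v') (huv : v ≠ u) (a1 : B.dist v u' = B.dist u u' + B.dist v u)
    (a2 : B.dist v' u = B.dist u' u + B.dist v' u') : u = u' := by
  have hd : B.dist v v' = 1 := SimpleGraph.dist_eq_one_iff_adj.2 hadj
  have hd' : B.dist v' v = 1 := by rw [SimpleGraph.dist_comm, hd]
  have t1 := hB.1.dist_triangle (u := v') (v := v) (w := u)
  have t2 := hB.1.dist_triangle (u := v) (v := v') (w := u')
  have hc : B.dist u u' = B.dist u' u := SimpleGraph.dist_comm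
  by_contra hne
  have hpos : 0 < B.dist u u' := hB.1.pos_dist_of_ne hne
  have hpos2 : 0 < B.dist v u := hB.1.pos_dist_of_ne huv
  obtain ⟨π', -, hπ'⟩ := par h1 hB u'
  obtain ⟨π, hπ, -⟩ := par h1 hB u
  obtain ⟨h3, h4⟩ := hπ v huv
  have c1 : B.dist u' v = B.dist v u' := SimpleGraph.dist_comm
  have c2 : B.dist u' v' = B.dist v' u' := SimpleGraph.dist_comm
  have c3 : B.dist u v = B.dist v u := SimpleGraph.dist_comm
  have c4 : B.dist u v' = B.dist v' u := SimpleGraph.dist_comm
  have t3 := hB.1.dist_triangle (u := u') (v := u) (w := π v)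
  rcases hπ' v v' hadj with ⟨e5, d5⟩ | ⟨e5, d5⟩
  · omega
  · rcases hπ' v (π v) h3 with ⟨e6, d6⟩ | ⟨e6, d6⟩
    · omega
    · rw [e6, ← e5] at h4
      omega

/-- existence of the nearest point -/
theorem ex_near {Y V : Type} (B : SimpleGraph Y) [Nonempty V] (s : V → Y) (v : Y) :
    ∃ x0, ∀ x, B.dist v (s x0) ≤ B.dist v (s x) := by
  obtain ⟨-, ⟨x0, rfl⟩, hx0⟩ := wellFounded_lt.has_min (Set.range fun x => B.dist v (s x))
    (Set.range_nonempty _)
  exact ⟨x0, fun x => not_lt.1 (hx0 _ ⟨x, rfl⟩)⟩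

end MALG_

open MALG_

theorem t_malg (h : S_PRP) (h1 : S_PAR) (_h2 : S_SEG) : S_MALG := by
  intro P Y G V _ _ B _ _ T s ι q hA hT hι hs hsι hfin
  have hB := hA.tree
  obtain ⟨hdist, -, hprp, -⟩ := h P Y B hA
  have : Nonempty V := hT.1.nonempty
  by_cases hmeet : ∃ x y, s x = q • s y
  · obtain ⟨x, y, hxy⟩ := hmeet
    have hS : (⋃ w ∈ {x | ∃ y, s x = q • s y}, {g : G | ι g • s x = s w}).Finite := by
      refine hfin.biUnion fun w _ => ?_
      have h3 : {k : P | k • s x = s w}.Finite := by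
        refine (hprp (s w) (s x) 0).subset fun k hk => ?_
        change k • s x = s w at hk
        change B.dist (s w) (k • s x) ≤ 0
        rw [hk, SimpleGraph.dist_self]
      exact h3.preimage hι.injOn
    refine hS.subset ?_
    rintro g ⟨g', hg⟩
    rw [Set.mem_iUnion₂]
    refine ⟨g • x, ⟨g' • y, ?_⟩, hsι g x⟩
    rw [← hsι, hxy, ← mul_smul, hg, mul_smul, hsι]
  · push Not at hmeet
    -- the nearest point
    obtain ⟨y0⟩ := (inferInstance : Nonempty V)
    have : Nonempty V := ⟨y0⟩
    obtain ⟨x0, hx0⟩ := ex_near B s (q • s y0)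
    have hall : ∀ y, ∀ x, B.dist (q • s y) (s x0) ≤ B.dist (q • s y) (s x) := by
      intro y
      have hreach : Relation.ReflTransGen T.Adj y0 y :=
        (SimpleGraph.reachable_iff_reflTransGen _ _).1 (hT.1.preconnected y0 y)
      induction hreach with
      | refl => exact hx0
      | @tail b c _ hadj ih =>
        obtain ⟨x1, hx1⟩ := ex_near B s (q • s c)
        have h3 := near h1 hB hT s hs (q • s b) x0 ih x1
        have h4 := near h1 hB hT s hs (q • s c) x1 hx1 x0
        have h5 := step h1 hB (q • s b) (q • s c) (s x0) (s x1)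
          (hA.adj q _ _ (hs b c hadj)) (Ne.symm (hmeet x0 b)) h3 h4
        rw [h5]
        exact hx1
    have hstab : {g : G | ι g • s x0 = s x0}.Finite := (hA.stab (s x0)).preimage hι.injOn
    refine hstab.subset ?_
    rintro g ⟨g', hg⟩
    change ι g • s x0 = s x0
    -- `ι g • s x0` is the nearest point of `ι g • q • s y0`
    have h3 : ι g • q • s y0 = q • s (g' • y0) := by
      rw [← mul_smul, hg, mul_smul, hsι]
    have h4 : ∀ x, B.dist (q • s (g' • y0)) (s (g • x0)) ≤ B.dist (q • s (g' • y0)) (s x) := by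
      intro x
      have h5 := hx0 (g⁻¹ • x)
      rw [← hdist (ι g) (q • s y0) (s x0), ← hdist (ι g) (q • s y0) (s (g⁻¹ • x)), h3, hsι, hsι,
        smul_inv_smul] at h5
      exact h5
    have h5 := near h1 hB hT s hs (q • s (g' • y0)) (g • x0) h4 x0
    have h6 := hall (g' • y0) (g • x0)
    have h7 : B.dist (s (g • x0)) (s x0) = 0 := by omega
    rw [hsι]
    exact (hB.1.dist_eq_zero_iff).1 h7

end Pool.Agent.N571.SS
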