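import Pool.Agent.N571.SS.VN
import Pool.Agent.Helper159.GM.JFreeAct

/-!
# Project SS, leaf NAM: `L(K)` has no hypertrace if `K` contains a free group
-/

set_option autoImplicit false

namespace Pool.Agent.N571.SS

open scoped InnerProductSpace ComplexOrder
open Pool.Agent.H494R3.GT (L2 dl MM MM_dl MM_dl_mem MM_dl_notMem MM_univ MM_mul_self star_MM
  op_ext mul_ap)
open Pool.Agent.N557.QW (lam rgt LG LK cf rc lam_dl lam_rgt star_rgt lam_mul lam_one)

namespace NAM

variable {G : Type} [Group G]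

theorem lam_mem_LK (K : Subgroup G) {k : G} (hk : k ∈ K) : lam k ∈ LK K := by
  have h1 : ∀ g : G, rgt g * lam k = lam k * rgt g := fun g => (lam_rgt k g).symm
  have h2 : ∀ c : G, MM (rc K c) * lam k = lam k * MM (rc K c) := by
    classical
    intro c
    refine op_ext fun s => ?_
    rw [mul_ap, mul_ap, lam_dl, MM_dl, MM_dl]
    have h3 : k * s ∈ rc K c ↔ s ∈ rc K c := by
      change k * s * c⁻¹ ∈ K ↔ s * c⁻¹ ∈ K
      rw [mul_assoc, K.mul_mem_cancel_left hk]
    by_cases h : s ∈ rc K c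
    · rw [if_pos h, if_pos (h3.2 h), lam_dl]
    · rw [if_neg h, if_neg fun h' => h (h3.1 h'), map_zero]
  change lam k ∈ Set.centralizer _
  rw [Set.mem_centralizer_iff]
  rintro m ((⟨g, rfl⟩ | ⟨c, rfl⟩) | (⟨g, hg⟩ | ⟨c, hc⟩))
  · exact h1 g
  · exact h2 c
  · have : m = rgt g⁻¹ := by
      rw [← star_rgt, hg, star_star]
    rw [this]; exact h1 _
  · have : m = MM (rc K c) := by
      have h3 : MM (rc K c) = star m := hc
      rw [← star_star m, ← h3, star_MM]
    rw [this]; exact h2 _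

theorem MM_union {A B : Set G} (h : Disjoint A B) : MM (A ∪ B) = MM A + MM B := by
  classical
  refine op_ext fun x => ?_
  rw [_root_.add_apply, MM_dl, MM_dl, MM_dl]
  by_cases hA : x ∈ A
  · have hB : x ∉ B := fun hB => Set.disjoint_left.1 h hA hB
    rw [if_pos (Set.mem_union_left B hA), if_pos hA, if_neg hB, add_zero]
  · by_cases hB : x ∈ B
    · rw [if_pos (Set.mem_union_right A hB), if_neg hA, if_pos hB, zero_add]
    · rw [if_neg hA, if_neg hB, add_zero, if_neg]
      rintro (h' | h')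
      · exact hA h'
      · exact hB h'

/-- the mean of a hypertrace -/
noncomputable def mean (φ : (L2 G →L[ℂ] L2 G) →ₗ[ℂ] ℂ) (A : Set G) : ℝ := (φ (MM A)).re

variable {K : Subgroup G} {φ : (L2 G →L[ℂ] L2 G) →ₗ[ℂ] ℂ}

theorem mean_nonneg (h : Hypertrace (LK K) (dl (1 : G)) φ) (A : Set G) : 0 ≤ mean φ A := by
  have h1 := h.nonneg (MM A)
  rw [star_MM, MM_mul_self] at h1
  exact (Complex.le_def.1 h1).1

theorem mean_univ (h : Hypertrace (LK K) (dl (1 : G)) φ) : mean φ Set.univ = 1 := by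
  classical
  unfold mean
  rw [MM_univ, h.trace 1 (one_mem _)]
  have : ((1 : L2 G →L[ℂ] L2 G) (dl (1 : G))) = dl 1 := rfl
  rw [this, Pool.Agent.H494R3.GT.dl_inner]
  simp

theorem mean_union {A B : Set G} (hd : Disjoint A B) :
    mean φ (A ∪ B) = mean φ A + mean φ B := by
  unfold mean
  rw [MM_union hd, map_add, Complex.add_re]

theorem mean_mono (h : Hypertrace (LK K) (dl (1 : G)) φ) {A B : Set G} (hAB : A ⊆ B) :
    mean φ A ≤ mean φ B := by
  have h1 : B = A ∪ (B \ A) := (Set.union_sdiff_cancel hAB).symm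
  rw [h1, mean_union Set.disjoint_sdiff_right]
  linarith [mean_nonneg h (B \ A)]

theorem mean_trans (h : Hypertrace (LK K) (dl (1 : G)) φ) {k : G} (hk : k ∈ K) (A : Set G) :
    mean φ {x | k * x ∈ A} = mean φ A := by
  classical
  have h1 : lam k * MM {x | k * x ∈ A} = MM A * lam k := by
    refine op_ext fun s => ?_
    rw [mul_ap, mul_ap, lam_dl, MM_dl, MM_dl]
    by_cases hs : k * s ∈ A
    · have : s ∈ {x | k * x ∈ A} := hs
      rw [if_pos this, if_pos hs, lam_dl]
    · have : s ∉ {x | k * x ∈ A} := hs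
      rw [if_neg this, if_neg hs, map_zero]
  have h2 : lam k⁻¹ * lam k = (1 : L2 G →L[ℂ] L2 G) := by
    rw [← lam_mul, inv_mul_cancel, lam_one]
  have h3 : lam k * lam k⁻¹ = (1 : L2 G →L[ℂ] L2 G) := by
    rw [← lam_mul, mul_inv_cancel, lam_one]
  unfold mean
  have h4 := h.central (lam k) (lam_mem_LK K hk) (MM {x | k * x ∈ A} * lam k⁻¹)
  rw [mul_assoc, h2, mul_one, ← mul_assoc, h1, mul_assoc, h3, mul_one] at h4
  rw [h4]

end NAM

open NAM in
theorem t_nam : S_NAM := by
  intro G _ K f hf hK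
  rintro ⟨φ, hφ⟩
  let e : FreeGroup Bool →* FreeGroup (Fin 2) :=
    (FreeGroup.freeGroupCongr finTwoEquiv.symm).toMonoidHom
  have he : Function.Injective e := (FreeGroup.freeGroupCongr finTwoEquiv.symm).injective
  let _ : MulAction Pool.Agent.Helper159.GM.F2 G := MulAction.compHom G (f.comp e)
  have hsm : ∀ (g : Pool.Agent.Helper159.GM.F2) (x : G), g • x = f (e g) * x := fun g x => rfl
  obtain ⟨B, E, hd, hu, h1, h2, h3⟩ := Pool.Agent.Helper159.GM.free_act (X := G) (by
    intro g x hg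
    rw [hsm] at hg
    have h4 : f (e g) = 1 := by simpa using hg
    have h5 : e g = 1 := hf (by rw [h4, map_one])
    exact he (by rw [h5, map_one]))
  set a : G := f (e (FreeGroup.of true)) with ha
  set b : G := f (e (FreeGroup.of false)) with hb
  have haK : a ∈ K := hK _
  have hbK : b ∈ K := hK _
  have h1' : ∀ x ∈ B, a * x ∉ B := fun x hx => h1 x hx
  have h2' : ∀ x ∈ B, a * (a * x) ∉ B := fun x hx => h2 x hx
  have h3' : ∀ x ∈ E, b * x ∈ B := fun x hx => h3 x hx
  -- `E ⊆ b⁻¹ B`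
  have hE : mean φ E ≤ mean φ B := by
    rw [← mean_trans hφ hbK B]
    exact mean_mono hφ h3'
  -- `B`, `a⁻¹ B`, `a⁻² B` are disjoint
  set B1 : Set G := {x | a * x ∈ B} with hB1
  set B2 : Set G := {x | a * x ∈ B1} with hB2
  have e1 : mean φ B1 = mean φ B := mean_trans hφ haK B
  have e2 : mean φ B2 = mean φ B := by rw [hB2, mean_trans hφ haK B1, e1]
  have d1 : Disjoint B B1 := by
    rw [Set.disjoint_left]
    intro x hx hx'
    exact h1' x hx hx'
  have d2 : Disjoint (B ∪ B1) B2 := by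
    rw [Set.disjoint_left]
    rintro x (hx | hx) hx'
    · exact h2' x hx hx'
    · exact h1' _ hx hx'
  have e3 : mean φ ((B ∪ B1) ∪ B2) ≤ 1 := by
    rw [← mean_univ hφ]
    exact mean_mono hφ (Set.subset_univ _)
  rw [mean_union d2, mean_union d1, e1, e2] at e3
  have e4 : mean φ B + mean φ E = 1 := by
    rw [← mean_union hd, hu, mean_univ hφ]
  linarith

end Pool.Agent.N571.SS
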