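import Pool.Agent.N571.SS.Stm

/-!
# SS/PAR (helper456): the parent map of a rooted tree
-/

set_option autoImplicit false

namespace Pool.Agent.N571.SS

namespace PAR

variable {V : Type} {T : SimpleGraph V} {o : V}

/-- the parent is unique -/
theorem uniq (hT : T.IsTree) {x u u' : V} (h1 : T.Adj x u) (h2 : T.dist o u + 1 = T.dist o x)
    (h1' : T.Adj x u') (h2' : T.dist o u' + 1 = T.dist o x) : u = u' := by
  obtain ⟨p, hp⟩ := hT.connected.exists_walk_length_eq_dist u o
  obtain ⟨p', hp'⟩ := hT.connected.exists_walk_length_eq_dist u' o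
  have a1 : (SimpleGraph.Walk.cons h1 p).IsPath := by
    apply SimpleGraph.Walk.isPath_of_length_eq_dist
    rw [SimpleGraph.Walk.length_cons, hp, SimpleGraph.dist_comm, h2, SimpleGraph.dist_comm]
  have a2 : (SimpleGraph.Walk.cons h1' p').IsPath := by
    apply SimpleGraph.Walk.isPath_of_length_eq_dist
    rw [SimpleGraph.Walk.length_cons, hp', SimpleGraph.dist_comm, h2', SimpleGraph.dist_comm]
  have h := hT.isAcyclic.path_unique ⟨_, a1⟩ ⟨_, a2⟩
  have h' : (SimpleGraph.Walk.cons h1 p).snd = (SimpleGraph.Walk.cons h1' p').snd :=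
    congrArg (fun q : T.Path x o => (q : T.Walk x o).snd) h
  simpa using h'

/-- every vertex other than the root has a parent -/
theorem exists_par (hT : T.IsTree) (x : V) (hx : x ≠ o) :
    ∃ u, T.Adj x u ∧ T.dist o u + 1 = T.dist o x := by
  obtain ⟨p, hp⟩ := hT.connected.exists_walk_length_eq_dist x o
  cases p with
  | nil => exact absurd rfl hx
  | cons h q =>
    rename_i u
    refine ⟨u, h, ?_⟩
    rw [SimpleGraph.Walk.length_cons] at hp
    have h1 := SimpleGraph.dist_le q
    rw [SimpleGraph.dist_comm] at h1 hp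
    rcases hT.dist_eq_dist_add_one_of_adj o h with h2 | h2
    · exact h2.symm
    · omega

section
variable {π : V → V} (hT : T.IsTree) (h0 : π o = o)
  (h1 : ∀ x, x ≠ o → T.Adj x (π x) ∧ T.dist o (π x) + 1 = T.dist o x)
include hT h0 h1

theorem lev (x : V) (a : ℕ) (ha : a ≤ T.dist o x) : T.dist o (π^[a] x) + a = T.dist o x := by
  induction a with
  | zero => simp
  | succ a ih =>
    rw [Function.iterate_succ_apply']
    have h := ih (by omega)
    have hne : π^[a] x ≠ o := by
      intro he
      rw [he, SimpleGraph.dist_self] at h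
      omega
    have := (h1 _ hne).2
    omega

theorem dist_it (x : V) (a : ℕ) : T.dist x (π^[a] x) ≤ a := by
  induction a with
  | zero => simp
  | succ a ih =>
    rw [Function.iterate_succ_apply']
    have htri : T.dist x (π (π^[a] x)) ≤ T.dist x (π^[a] x) + T.dist (π^[a] x) (π (π^[a] x)) :=
      hT.connected.dist_triangle
    have h : T.dist (π^[a] x) (π (π^[a] x)) ≤ 1 := by
      by_cases hne : π^[a] x = o
      · rw [hne, h0, SimpleGraph.dist_self]
        omega
      · exact (SimpleGraph.dist_eq_one_iff_adj.2 (h1 _ hne).1).le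
    omega

theorem dist_le {x y : V} {a b : ℕ} (h : π^[a] x = π^[b] y) : T.dist x y ≤ a + b := by
  have h2 := dist_it hT h0 h1 x a
  have h3 := dist_it hT h0 h1 y b
  rw [← h] at h3
  have htri : T.dist x y ≤ T.dist x (π^[a] x) + T.dist (π^[a] x) y := hT.connected.dist_triangle
  rw [SimpleGraph.dist_comm (u := π^[a] x)] at htri
  omega

theorem adj_par {z z' : V} (h : T.Adj z z') :
    (z' = π z ∧ T.dist o z = T.dist o z' + 1) ∨ (z = π z' ∧ T.dist o z' = T.dist o z + 1) := by
  rcases hT.dist_eq_dist_add_one_of_adj o h with h2 | h2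
  · left
    have hz : z ≠ o := by
      intro he
      rw [he, SimpleGraph.dist_self] at h2
      omega
    exact ⟨uniq hT h h2.symm (h1 z hz).1 (h1 z hz).2, h2⟩
  · right
    have hz : z' ≠ o := by
      intro he
      rw [he, SimpleGraph.dist_self] at h2
      omega
    exact ⟨uniq hT h.symm h2.symm (h1 z' hz).1 (h1 z' hz).2, h2⟩

/-- a common ancestor along a walk -/
theorem walk {x y : V} (p : T.Walk x y) :
    ∃ a b, a ≤ T.dist o x ∧ b ≤ T.dist o y ∧ π^[a] x = π^[b] y ∧ a + b ≤ p.length := by
  induction p with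
  | nil => exact ⟨0, 0, Nat.zero_le _, Nat.zero_le _, rfl, le_refl _⟩
  | cons h q ih =>
    rename_i x' z y'
    obtain ⟨a, b, ha, hb, hab, hl⟩ := ih
    rw [SimpleGraph.Walk.length_cons]
    rcases adj_par hT h0 h1 h with ⟨h2, h3⟩ | ⟨h2, h3⟩
    · refine ⟨a + 1, b, by omega, hb, ?_, by omega⟩
      rw [Function.iterate_succ_apply, ← h2, hab]
    · rcases Nat.eq_zero_or_pos a with ha0 | ha0
      · subst ha0
        rw [Function.iterate_zero, id] at hab
        have h4 := lev hT h0 h1 y' b hb
        rw [← hab] at h4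
        refine ⟨0, b + 1, Nat.zero_le _, by omega, ?_, by omega⟩
        rw [Function.iterate_succ_apply', ← hab, Function.iterate_zero, id]
        exact h2
      · obtain ⟨a, rfl⟩ : ∃ a', a = a' + 1 := ⟨a - 1, by omega⟩
        refine ⟨a, b, by omega, hb, ?_, by omega⟩
        rw [Function.iterate_succ_apply, ← h2] at hab
        exact hab

end

end PAR

open PAR in
theorem t_par : S_PAR := by
  intro V T o hT
  classical
  choose! f hf using fun x (hx : x ≠ o) => exists_par hT x hx
  let π : V → V := fun x => if x = o then o else f x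
  have h0 : π o = o := by
    show (if o = o then o else f o) = o
    rw [if_pos rfl]
  have h1 : ∀ x, x ≠ o → T.Adj x (π x) ∧ T.dist o (π x) + 1 = T.dist o x := by
    intro x hx
    have e : π x = f x := by
      show (if x = o then o else f x) = f x
      rw [if_neg hx]
    rw [e]
    exact hf x hx
  refine ⟨π, h0, h1, fun x y => ?_⟩
  obtain ⟨p, hp⟩ := hT.connected.exists_walk_length_eq_dist x y
  obtain ⟨i, j, hi, hj, hij, hl⟩ := walk hT h0 h1 p
  have h2 := PAR.dist_le hT h0 h1 hij
  refine ⟨i, j, by omega, hi, hj, hij, fun a b ha hb hab => ?_⟩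
  have h3 := PAR.dist_le hT h0 h1 hab
  have l1 := lev hT h0 h1 x i hi
  have l2 := lev hT h0 h1 y j hj
  have l3 := lev hT h0 h1 x a ha
  have l4 := lev hT h0 h1 y b hb
  rw [hij] at l1
  rw [hab] at l3
  exact ⟨a - i, by omega, by omega⟩

end Pool.Agent.N571.SS
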