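import Pool.Agent.N571.SS.Stm

/-!
# Project SS: proper actions on trees, first properties
-/

set_option autoImplicit false

namespace Pool.Agent.N571.SS

namespace PRPaux

variable {G V : Type} [Group G] [MulAction G V] {T : SimpleGraph V}

theorem dist_le (h : TreeAct G V T) (g : G) (x y : V) : T.dist (g • x) (g • y) ≤ T.dist x y := by
  obtain ⟨p, hp⟩ := h.tree.connected.exists_walk_length_eq_dist x y
  let f : T →g T := ⟨fun x => g • x, fun hxy => h.adj g _ _ hxy⟩
  have h1 := SimpleGraph.dist_le (p.map f)
  rw [SimpleGraph.Walk.length_map, hp] at h1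
  exact h1

theorem dist_eq (h : TreeAct G V T) (g : G) (x y : V) : T.dist (g • x) (g • y) = T.dist x y := by
  refine le_antisymm (dist_le h g x y) ?_
  have h1 := dist_le h g⁻¹ (g • x) (g • y)
  rwa [inv_smul_smul, inv_smul_smul] at h1

theorem ball_fin (h : TreeAct G V T) (x : V) (n : ℕ) : {y | T.dist x y ≤ n}.Finite := by
  induction n with
  | zero =>
    refine (Set.finite_singleton x).subset fun y hy => ?_
    have h0 : T.dist x y = 0 := Nat.le_zero.1 hy
    exact ((h.tree.connected.dist_eq_zero_iff).1 h0).symm
  | succ n ih =>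
    refine (ih.union (ih.biUnion fun z _ => h.lf z)).subset fun y hy => ?_
    by_cases hn : T.dist x y ≤ n
    · exact Or.inl hn
    · right
      have hy' : T.dist x y ≤ n + 1 := hy
      obtain ⟨p, hp⟩ := h.tree.connected.exists_walk_length_eq_dist y x
      rw [SimpleGraph.dist_comm] at hp
      cases p with
      | nil =>
        exfalso
        apply hn
        rw [SimpleGraph.dist_self]
        exact Nat.zero_le _
      | cons hadj q =>
        rename_i z
        rw [SimpleGraph.Walk.length_cons] at hp
        have hq := SimpleGraph.dist_le q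
        rw [SimpleGraph.dist_comm] at hq
        refine Set.mem_biUnion (x := z) ?_ ?_
        · change T.dist x z ≤ n
          omega
        · exact hadj.symm

theorem grp_fin (h : TreeAct G V T) (x y : V) (n : ℕ) : {g : G | T.dist x (g • y) ≤ n}.Finite := by
  have h1 : {g : G | T.dist x (g • y) ≤ n} ⊆ ⋃ z ∈ {z | T.dist x z ≤ n}, {g : G | g • y = z} := by
    intro g hg
    exact Set.mem_biUnion (x := g • y) hg rfl
  refine ((ball_fin h x n).biUnion fun z _ => ?_).subset h1
  rcases Set.eq_empty_or_nonempty {g : G | g • y = z} with h2 | ⟨g0, hg0⟩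
  · rw [h2]; exact Set.finite_empty
  · refine ((h.stab y).image fun g => g0 * g).subset fun g hg => ?_
    refine ⟨g0⁻¹ * g, ?_, by simp⟩
    change (g0⁻¹ * g) • y = y
    have e1 : g • y = z := hg
    have e2 : g0 • y = z := hg0
    rw [mul_smul, e1, ← e2, inv_smul_smul]

theorem grp_countable (h : TreeAct G V T) : Countable G := by
  obtain ⟨x⟩ := h.tree.connected.nonempty
  have h1 : (⋃ n : ℕ, {g : G | T.dist x (g • x) ≤ n}).Countable :=
    Set.countable_iUnion fun n => (grp_fin h x x n).countable
  have h2 : (⋃ n : ℕ, {g : G | T.dist x (g • x) ≤ n}) = Set.univ := by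
    ext g
    simp only [Set.mem_iUnion, Set.mem_univ, iff_true]
    exact ⟨T.dist x (g • x), show T.dist x (g • x) ≤ T.dist x (g • x) from le_rfl⟩
  rw [h2] at h1
  exact Set.countable_univ_iff.1 h1

end PRPaux

theorem t_prp : S_PRP := by
  intro G V _ _ T h
  exact ⟨PRPaux.dist_eq h, PRPaux.ball_fin h, PRPaux.grp_fin h, PRPaux.grp_countable h⟩

end Pool.Agent.N571.SS
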