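import Pool.Agent.N571.SS.Stm

/-!
# Project SS, part STEP (helper645): the extension by a lamp
-/

set_option autoImplicit false

namespace Pool.Agent.N571.SS

namespace StepAux

variable {G : Type} [Group G]

/-- elements of the base group commute -/
theorem comm_pos {a b : WR G} (ha : a.pos = 1) (hb : b.pos = 1) : a * b = b * a := by
  ext g
  · simp only [WR.mem_mul, ha, hb, inv_one, one_mul]
    tauto
  · simp [ha, hb]

theorem lamp_sq : (⟨{1}, 1⟩ : WR G) * ⟨{1}, 1⟩ = 1 := by
  ext g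
  · simp [WR.mem_mul]
  · simp

/-- an injective map of a tree to a tree preserves the distances -/
theorem dist_map {V Y : Type} {T : SimpleGraph V} {B : SimpleGraph Y} (hT : T.Connected)
    (hB : B.IsTree) (s : V → Y) (hs : Function.Injective s)
    (hadj : ∀ x y, T.Adj x y → B.Adj (s x) (s y)) (x y : V) :
    B.dist (s x) (s y) = T.dist x y := by
  obtain ⟨w, hw, hwl⟩ := hT.exists_path_of_dist x y
  obtain ⟨v, hv, hvl⟩ := hB.connected.exists_path_of_dist (s x) (s y)
  let f : T →g B := ⟨s, fun h => hadj _ _ h⟩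
  have h1 : (w.map f).IsPath := SimpleGraph.Walk.IsPath.map hs hw
  have h2 := (hB.isAcyclic.subsingleton_path (s x) (s y)).elim
    (⟨w.map f, h1⟩ : B.Path (s x) (s y)) ⟨v, hv⟩
  have h3 : w.map f = v := congrArg Subtype.val h2
  rw [← hvl, ← hwl, ← h3, SimpleGraph.Walk.length_map]

/-- a neighbour nearer to the base point -/
theorem nearer {V : Type} {T : SimpleGraph V} (hT : T.Connected) {o x : V} {n : ℕ}
    (h : T.dist o x = n + 1) : ∃ y, T.Adj y x ∧ T.dist o y ≤ n := by
  obtain ⟨w, hw⟩ := hT.exists_walk_length_eq_dist x o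
  cases w with
  | nil =>
    rw [SimpleGraph.dist_comm, h] at hw
    simp at hw
  | cons hadj w' =>
    rename_i y
    refine ⟨y, hadj.symm, ?_⟩
    rw [SimpleGraph.Walk.length_cons, SimpleGraph.dist_comm, h] at hw
    rw [SimpleGraph.dist_comm]
    have := SimpleGraph.dist_le w'
    omega

end StepAux

open StepAux in
/-- **STEP.** -/
theorem t_step (h : S_PRP) (h1 : S_LF) (h2 : S_LIFT) (h3 : S_STX) (h4 : S_MALG) : S_STEP := by
  intro G V _ _ T x0 r hT
  obtain ⟨-, hball, -, -⟩ := h G V T hT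
  obtain ⟨X, A, _, s, sA, slf, sst, sadj, sinj, sG, slamp, slast⟩ := h3 G V T x0 r hT
  obtain ⟨Y, B, p, o', P, _, _, ρ, hB, hcov, hpo, hPadj, hPp, hPuniq⟩ := h2 X A (WR G) (s x0) sA
  obtain ⟨s', ⟨s'adj, s'p, s'0⟩, -⟩ := h1 V Y X T B A p s hT.tree hcov sadj x0 o' hpo
  have s'inj : Function.Injective s' := fun a b hab => sinj (by rw [← s'p, ← s'p, hab])
  -- uniqueness in the group
  have U : ∀ (q q' : P) (y : Y), ρ q = ρ q' → q • y = q' • y → q = q' := by
    intro q q' y e1 e2
    exact (hPuniq (ρ q) y (q • y) (hPp q y)).unique ⟨rfl, rfl⟩ ⟨e1.symm, e2.symm⟩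
  -- uniqueness of lifts
  have UL : ∀ a b : V → Y, (∀ x y, T.Adj x y → B.Adj (a x) (a y)) →
      (∀ x y, T.Adj x y → B.Adj (b x) (b y)) → (∀ x, p (a x) = p (b x)) → a x0 = b x0 → a = b := by
    intro a b ha hb hab h0
    exact (h1 V Y X T B A p (fun x => p (a x)) hT.tree hcov
      (fun x y hxy => hcov.adj _ _ (ha x y hxy)) x0 (a x0) rfl).unique
      ⟨ha, fun _ => rfl, rfl⟩ ⟨hb, fun x => (hab x).symm, h0.symm⟩
  have hTA : TreeAct P Y B := by
    refine ⟨hB, hPadj, fun y => ?_, fun y => ?_⟩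
    · refine Set.Finite.of_finite_image (f := p) ((slf (p y)).subset ?_) ?_
      · rintro _ ⟨z, hz, rfl⟩
        exact hcov.adj _ _ hz
      · intro z hz z' hz' hzz
        exact (hcov.lift y (p z) (hcov.adj _ _ hz)).unique ⟨hz, rfl⟩ ⟨hz', hzz.symm⟩
    · refine Set.Finite.of_finite_image (f := ρ) ((sst (p y)).subset ?_) ?_
      · rintro _ ⟨q, hq, rfl⟩
        change ρ q • p y = p y
        rw [← hPp]
        exact congrArg p hq
      · intro q hq q' hq' hqq
        exact U q q' y hqq ((show q • y = y from hq).trans (show q' • y = y from hq').symm)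
  -- the embedding
  have hi : ∀ g : G, ∃ q : P, ρ q = emb G g ∧ q • s' x0 = s' (g • x0) := by
    intro g
    obtain ⟨q, hq, -⟩ := hPuniq (emb G g) (s' x0) (s' (g • x0)) (by
      rw [s'p, s'p]
      exact (sG g x0).symm)
    exact ⟨q, hq⟩
  choose i0 hi1 hi2 using hi
  have hi3 : ∀ g x, i0 g • s' x = s' (g • x) := by
    intro g x
    have e := UL (fun x => i0 g • s' x) (fun x => s' (g • x))
      (fun x y hxy => hPadj _ _ _ (s'adj _ _ hxy)) (fun x y hxy => s'adj _ _ (hT.adj g _ _ hxy))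
      (fun x => by
        rw [hPp, s'p, s'p, hi1]
        exact sG g x) (hi2 g)
    exact congrFun e x
  let ι : G →* P := MonoidHom.mk' i0 (fun g g' => by
    refine U _ _ (s' x0) ?_ ?_
    · rw [map_mul, hi1, hi1, hi1, map_mul]
    · rw [hi2, mul_smul, mul_smul, hi2, hi3])
  have hι : ∀ g x, ι g • s' x = s' (g • x) := hi3
  have hι1 : ∀ g, ρ (ι g) = emb G g := hi1
  have hιinj : Function.Injective ι := by
    intro g g' hgg
    have e := congrArg ρ hgg
    rw [hι1, hι1] at e
    exact congrArg WR.pos e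
  -- the lamp
  have hone : ∀ x, T.dist x0 x ≤ r → (⟨{1}, 1⟩ : WR G) • s x = s x := by
    intro x hx
    exact slamp 1 x (by rw [one_smul]; exact hx)
  obtain ⟨c, ⟨hc1, hc2⟩, -⟩ := hPuniq ⟨{1}, 1⟩ (s' x0) (s' x0) (by
    rw [s'p, hone x0 (by simp)])
  have hcf : ∀ n, n ≤ r → ∀ x, T.dist x0 x ≤ n → c • s' x = s' x := by
    intro n
    induction n with
    | zero =>
      intro _ x hx
      have e := (hT.tree.connected.dist_eq_zero_iff).1 (Nat.le_zero.1 hx)
      rw [← e]
      exact hc2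
    | succ n ih =>
      intro hn x hx
      rcases Nat.lt_or_ge (T.dist x0 x) (n + 1) with h5 | h5
      · exact ih (by omega) x (by omega)
      · obtain ⟨y, hy1, hy2⟩ := nearer hT.tree.connected (le_antisymm hx h5)
        have e1 := ih (by omega) y hy2
        refine (hcov.lift (s' y) (s x) (by rw [s'p]; exact sadj _ _ hy1)).unique ⟨?_, ?_⟩
          ⟨s'adj _ _ hy1, s'p x⟩
        · have e2 := hPadj c _ _ (s'adj _ _ hy1)
          rw [e1] at e2
          exact e2
        · rw [hPp, hc1, s'p, hone x (hx.trans hn)]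
  refine ⟨P, Y, inferInstance, inferInstance, B, s' x0, ι, c, ρ, ⟨hTA, hι1, hc1, ?_, ?_, ?_, ?_⟩⟩
  · -- square
    refine U _ _ (s' x0) ?_ ?_
    · rw [map_mul, hc1, map_one, lamp_sq]
    · rw [mul_smul, hc2, hc2, one_smul]
  · -- commutation
    intro g hg
    have e1 : c • s' (g • x0) = s' (g • x0) := hcf r le_rfl _ hg
    have e2 : (ι g * c * (ι g)⁻¹) • s' (g • x0) = s' (g • x0) := by
      rw [← hι, mul_smul, mul_smul, inv_smul_smul, hc2]
    have e3 : (ρ (ι g * c * (ι g)⁻¹)).pos = 1 := by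
      rw [map_mul, map_mul, map_inv, hι1, hc1]
      change g * 1 * g⁻¹ = 1
      simp
    have e4 : (ρ c).pos = 1 := by rw [hc1]
    generalize ι g * c * (ι g)⁻¹ = d at e2 e3
    refine U _ _ (s' (g • x0)) ?_ ?_
    · rw [map_mul, map_mul]
      exact comm_pos e4 e3
    · rw [mul_smul, mul_smul, e1, e2, e1]
  · -- almost malnormal
    intro q hq
    refine h4 P Y G V B T s' ι q hTA hT.tree hιinj s'adj hι ?_
    obtain ⟨k, hk⟩ : ∃ k, k = (ρ q).pos := ⟨_, rfl⟩
    obtain ⟨q1, hq1⟩ : ∃ q1, q1 = q * (ι k)⁻¹ := ⟨_, rfl⟩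
    have hpos : (ρ q1).pos = 1 := by
      rw [hq1, map_mul, map_inv, hι1]
      change (ρ q).pos * k⁻¹ = 1
      rw [hk, mul_inv_cancel]
    have hset : ∀ x, (∃ y, s' x = q • s' y) → s' x = q1 • s' x ∧
        ∀ g ∈ (ρ q1).lamp, T.dist (g • x0) x ≤ r := by
      rintro x ⟨y, hy⟩
      have e1 : s' x = q1 • s' (k • y) := by
        rw [hy, hq1, ← hι, mul_smul, inv_smul_smul]
      have e2 : ρ q1 • s (k • y) = s x := by
        rw [← s'p, ← s'p, ← hPp, ← e1]
      obtain ⟨e3, e4⟩ := slast (ρ q1) (k • y) x hpos e2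
      rw [e3] at e1 e4
      exact ⟨e1, e4⟩
    by_cases hL : (ρ q1).lamp.Nonempty
    · obtain ⟨g, hg⟩ := hL
      exact (hball (g • x0) r).subset fun x hx => (hset x hx).2 g hg
    · rw [Finset.not_nonempty_iff_eq_empty] at hL
      have e1 : ρ q1 = 1 := WR.ext hL hpos
      have e2 : {x | ∃ y, s' x = q • s' y} = ∅ := by
        rw [Set.eq_empty_iff_forall_notMem]
        intro x hx
        have e3 := (hset x hx).1
        have e4 : q1 = 1 := U q1 1 (s' x) (by rw [e1, map_one]) (by rw [← e3, one_smul])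
        rw [hq1, mul_inv_eq_one] at e4
        exact hq ⟨k, e4.symm⟩
      rw [e2]
      exact Set.finite_empty
  · intro g
    rw [hι]
    exact dist_map hT.tree.connected hB s' s'inj s'adj _ _

end Pool.Agent.N571.SS
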