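import Pool.Agent.N571.SS.Stm

/-!
# Project SS: the graph of the lamplighter on a tree with restricted sight
-/

set_option autoImplicit false

namespace Pool.Agent.N571.SS

namespace STX

open scoped symmDiff
open Classical

noncomputable section

variable {G V : Type} [Group G] [MulAction G V] (T : SimpleGraph V) (x0 : V) (r : ℕ)

/-- the lamp `g` is near `x` -/
def near (x : V) (g : G) : Prop := T.dist (g • x0) x ≤ r

/-- position and lamps outside of the visible region -/
structure Pt (G : Type) {V : Type} [Group G] [MulAction G V] (T : SimpleGraph V) (x0 : V)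
    (r : ℕ) where
  pos : V
  lamp : Finset G
  far : ∀ g ∈ lamp, ¬ near T x0 r pos g

variable {T x0 r}

theorem Pt.ext' {a b : Pt G T x0 r} (h : a.pos = b.pos) (h' : ∀ g, g ∈ a.lamp ↔ g ∈ b.lamp) :
    a = b := by
  cases a
  cases b
  obtain rfl : _ = _ := h
  obtain rfl : _ = _ := Finset.ext h'
  rfl

/-- the action of the lamplighter group -/
def act (w : WR G) (a : Pt G T x0 r) : Pt G T x0 r where
  pos := w.pos • a.pos
  lamp := (w.lamp ∆ (a.lamp.map (mulLeftEmbedding w.pos))).filter
    fun g => ¬ near T x0 r (w.pos • a.pos) g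
  far _ hg := (Finset.mem_filter.1 hg).2

theorem mem_act (w : WR G) (a : Pt G T x0 r) (g : G) :
    g ∈ (act w a).lamp ↔ ¬ near T x0 r (w.pos • a.pos) g ∧
      ¬ (g ∈ w.lamp ↔ w.pos⁻¹ * g ∈ a.lamp) := by
  have h : g ∈ a.lamp.map (mulLeftEmbedding w.pos) ↔ w.pos⁻¹ * g ∈ a.lamp := by
    rw [Finset.mem_map]
    constructor
    · rintro ⟨x, hx, rfl⟩
      simpa using hx
    · intro hx
      exact ⟨_, hx, by simp⟩
  change g ∈ (w.lamp ∆ (a.lamp.map (mulLeftEmbedding w.pos))).filter _ ↔ _
  rw [Finset.mem_filter, Finset.mem_symmDiff, h]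
  tauto

theorem near_smul (hd : ∀ (g : G) x y, T.dist (g • x) (g • y) = T.dist x y) (k : G) (x : V)
    (g : G) : near T x0 r (k • x) g ↔ near T x0 r x (k⁻¹ * g) := by
  have h : T.dist (g • x0) (k • x) = T.dist ((k⁻¹ * g) • x0) x := by
    rw [← hd k ((k⁻¹ * g) • x0) x, smul_smul, mul_inv_cancel_left]
  rw [near, near, h]

/-- the action -/
@[reducible] def mact (hd : ∀ (g : G) x y, T.dist (g • x) (g • y) = T.dist x y) :
    MulAction (WR G) (Pt G T x0 r) where
  smul := act
  one_smul a := by
    refine Pt.ext' (one_smul G a.pos) fun g => ?_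
    refine (mem_act 1 a g).trans ?_
    have h := a.far g
    simp only [WR.one_pos, WR.one_lamp, one_smul, inv_one, one_mul, Finset.notMem_empty]
    tauto
  mul_smul w₁ w₂ a := by
    refine Pt.ext' (mul_smul w₁.pos w₂.pos a.pos) fun g => ?_
    refine (mem_act (w₁ * w₂) a g).trans (Iff.trans ?_ (mem_act w₁ (act w₂ a) g).symm)
    rw [mem_act, WR.mem_mul]
    have e : (act w₂ a).pos = w₂.pos • a.pos := rfl
    rw [e, near_smul hd w₁.pos (w₂.pos • a.pos) g, WR.mul_pos, mul_smul,
      near_smul hd w₁.pos (w₂.pos • a.pos) g, mul_inv_rev, mul_assoc]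
    tauto

/-- the graph -/
def gr (G : Type) {V : Type} [Group G] [MulAction G V] (T : SimpleGraph V) (x0 : V)
    (r : ℕ) : SimpleGraph (Pt G T x0 r) where
  Adj a b := T.Adj a.pos b.pos ∧
    ∀ g, ¬ near T x0 r a.pos g → ¬ near T x0 r b.pos g → (g ∈ a.lamp ↔ g ∈ b.lamp)
  symm := ⟨fun _ _ h => ⟨h.1.symm, fun g h₁ h₂ => (h.2 g h₂ h₁).symm⟩⟩
  loopless := ⟨fun _ h => T.loopless.irrefl _ h.1⟩

/-- the section -/
def sec (x : V) : Pt G T x0 r where
  pos := x
  lamp := ∅
  far g hg := by simp at hg

end

end STX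

open STX in
theorem t_stx (h : S_PRP) : S_STX := by
  classical
  intro G V _ _ T x0 r hT
  obtain ⟨hd, hball, hfin, -⟩ := h G V T hT
  have hnear : ∀ x : V, {g : G | near T x0 r x g}.Finite := by
    intro x
    refine (hfin x x0 r).subset fun g hg => ?_
    have : T.dist (g • x0) x ≤ r := hg
    rw [SimpleGraph.dist_comm] at this
    exact this
  have hadj : ∀ (k : G) x y, T.Adj x y → T.Adj (k • x) (k • y) := hT.adj
  refine ⟨Pt G T x0 r, gr G T x0 r, mact hd, sec, ?_, ?_, ?_, ?_, ?_, ?_, ?_, ?_⟩
  · intro w a b hab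
    change (gr G T x0 r).Adj (act w a) (act w b)
    refine ⟨hadj w.pos _ _ hab.1, fun g h₁ h₂ => ?_⟩
    rw [mem_act, mem_act]
    have h₁' : ¬ near T x0 r (w.pos • a.pos) g := h₁
    have h₂' : ¬ near T x0 r (w.pos • b.pos) g := h₂
    have := hab.2 (w.pos⁻¹ * g) (by rwa [← near_smul hd]) (by rwa [← near_smul hd])
    tauto
  · intro a
    -- neighbours
    have hf1 : {y | T.Adj a.pos y}.Finite := hT.lf a.pos
    have hf2 : {U : Finset G | U ⊆ (hnear a.pos).toFinset}.Finite :=
      ((hnear a.pos).toFinset.powerset.finite_toSet).subset fun U hU => by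
        simpa using hU
    let f : Pt G T x0 r → V × Finset G :=
      fun b => (b.pos, b.lamp.filter fun g => near T x0 r a.pos g)
    refine Set.Finite.of_finite_image (f := f) ((hf1.prod hf2).subset ?_) ?_
    · rintro _ ⟨b, hb, rfl⟩
      refine ⟨hb.1, fun g hg => ?_⟩
      rw [Set.Finite.mem_toFinset]
      exact (Finset.mem_filter.1 hg).2
    · intro b hb b' hb' hbb
      have e1 : b.pos = b'.pos := congrArg Prod.fst hbb
      have e2 : b.lamp.filter (fun g => near T x0 r a.pos g)
        = b'.lamp.filter (fun g => near T x0 r a.pos g) := congrArg Prod.snd hbb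
      refine Pt.ext' e1 fun g => ?_
      have e3 := Finset.ext_iff.1 e2 g
      rw [Finset.mem_filter, Finset.mem_filter] at e3
      have h1 := hb.2 g
      have h2 := hb'.2 g
      have h3 := b.far g
      have h4 := b'.far g
      rw [← e1] at h2 h4
      tauto
  · intro a
    -- stabiliser
    have hf1 : {k : G | k • a.pos = a.pos}.Finite := hT.stab a.pos
    have hf2 : {U : Finset G | U ⊆ (hnear a.pos).toFinset}.Finite :=
      ((hnear a.pos).toFinset.powerset.finite_toSet).subset fun U hU => by
        simpa using hU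
    let f : WR G → G × Finset G :=
      fun w => (w.pos, w.lamp.filter fun g => near T x0 r a.pos g)
    have key : ∀ w : WR G, act w a = a → w.pos • a.pos = a.pos ∧
        ∀ g, g ∈ a.lamp ↔ ¬ near T x0 r a.pos g ∧ ¬ (g ∈ w.lamp ↔ w.pos⁻¹ * g ∈ a.lamp) := by
      intro w hw
      have e : w.pos • a.pos = a.pos := congrArg Pt.pos hw
      refine ⟨e, fun g => ?_⟩
      have := mem_act w a g
      rw [hw, e] at this
      exact this
    refine Set.Finite.of_finite_image (f := f) ((hf1.prod hf2).subset ?_) ?_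
    · rintro _ ⟨w, hw, rfl⟩
      refine ⟨(key w hw).1, fun g hg => ?_⟩
      rw [Set.Finite.mem_toFinset]
      exact (Finset.mem_filter.1 hg).2
    · intro w hw w' hw' hww
      have e1 : w.pos = w'.pos := congrArg Prod.fst hww
      have e2 : w.lamp.filter (fun g => near T x0 r a.pos g)
        = w'.lamp.filter (fun g => near T x0 r a.pos g) := congrArg Prod.snd hww
      refine WR.ext (Finset.ext fun g => ?_) e1
      have e3 := Finset.ext_iff.1 e2 g
      rw [Finset.mem_filter, Finset.mem_filter] at e3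
      have h1 := (key w hw).2 g
      have h2 := (key w' hw').2 g
      rw [← e1] at h2
      tauto
  · intro x y hxy
    exact ⟨hxy, fun g _ _ => Iff.rfl⟩
  · intro x y hxy
    exact congrArg Pt.pos hxy
  · intro g x
    refine Pt.ext' rfl fun g' => ?_
    refine (mem_act _ _ g').trans ?_
    simp [sec]
  · intro g x hg
    refine Pt.ext' (one_smul G x) fun g' => ?_
    refine (mem_act _ _ g').trans ?_
    have : near T x0 r x g := hg
    have e : (sec x : Pt G T x0 r).lamp = ∅ := rfl
    have e' : (sec x : Pt G T x0 r).pos = x := rfl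
    simp only [e, e', Finset.notMem_empty, iff_false, not_not, Finset.mem_singleton, one_smul]
    rintro ⟨h1, rfl⟩
    exact h1 this
  · intro w x y hw hxy
    have e1 : w.pos • x = y := congrArg Pt.pos hxy
    rw [hw, one_smul] at e1
    refine ⟨e1, fun g hg => ?_⟩
    by_contra hn
    have hn' : ¬ near T x0 r x g := hn
    have h1 := (mem_act w (sec x : Pt G T x0 r) g)
    have e2 : act w (sec x : Pt G T x0 r) = sec y := hxy
    rw [e2] at h1
    have e : ∀ z, (sec z : Pt G T x0 r).lamp = ∅ := fun _ => rfl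
    have e' : (sec x : Pt G T x0 r).pos = x := rfl
    rw [e, e, e', hw, one_smul] at h1
    simp only [Finset.notMem_empty, iff_false, not_not, false_iff, not_and] at h1
    exact h1 hn' hg

end Pool.Agent.N571.SS
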