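import Pool.Agent.N571.SS.Stm

/-!
# Project SS: universal coverings of graphs (UC)
-/

set_option autoImplicit false

namespace Pool.Agent.N571.SS

namespace UCAux

/-- A graph with a height function such that neighbours have different heights and each vertex has
at most one lower neighbour is acyclic. -/
theorem acyclic_of_height {V : Type} (G : SimpleGraph V) (h : V → ℕ)
    (h1 : ∀ u v, G.Adj u v → h u ≠ h v)
    (h2 : ∀ v u w, G.Adj v u → G.Adj v w → h u < h v → h w < h v → u = w) : G.IsAcyclic := by
  classical
  intro v c hc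
  have hne : c.support.toFinset.Nonempty := ⟨v, by simp⟩
  obtain ⟨m, hm, hmax⟩ := Finset.exists_max_image c.support.toFinset h hne
  have hm' : m ∈ c.support := by simpa using hm
  set c' := c.rotate m hm' with hc'
  have hcyc : c'.IsCycle := hc.rotate hm'
  have hsup : ∀ x, x ∈ c'.support → h x ≤ h m := by
    intro x hx
    refine hmax x ?_
    rw [List.mem_toFinset]
    by_cases hxm : x = m
    · subst hxm; exact hm'
    · have h5 : x ∈ c'.support.tail := by
        rw [← SimpleGraph.Walk.cons_tail_support] at hx
        rcases List.mem_cons.mp hx with h6 | h6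
        · exact absurd h6 hxm
        · exact h6
      have h6 := (c.support_rotate m hm').mem_iff.mp h5
      exact List.mem_of_mem_tail h6
  have hnn := hcyc.not_nil
  have a1 : G.Adj m c'.snd := c'.adj_snd hnn
  have a2 : G.Adj m c'.penultimate := (c'.adj_penultimate hnn).symm
  have m1 : c'.snd ∈ c'.support := List.mem_of_mem_tail (c'.snd_mem_tail_support hnn)
  have m2 : c'.penultimate ∈ c'.support :=
    List.mem_of_mem_dropLast (c'.penultimate_mem_dropLast_support hnn)
  have l1 := lt_of_le_of_ne (hsup _ m1) (h1 _ _ a1).symm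
  have l2 := lt_of_le_of_ne (hsup _ m2) (h1 _ _ a2).symm
  exact hcyc.snd_ne_penultimate (h2 m _ _ a1 a2 l1 l2)

variable {X : Type}

/-- The non-backtracking walks starting at `o`, written in reverse order. -/
def R (A : SimpleGraph X) (o : X) : List X → Prop
  | [] => False
  | [x] => x = o
  | x :: y :: l => A.Adj y x ∧ l.head? ≠ some x ∧ R A o (y :: l)

/-- The vertices of the universal covering. -/
abbrev Y (A : SimpleGraph X) (o : X) : Type := {l : List X // R A o l}

theorem R_nil {A : SimpleGraph X} {o : X} : ¬ R A o [] := fun h => h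

theorem R_one {A : SimpleGraph X} {o x : X} : R A o [x] ↔ x = o := Iff.rfl

theorem R_two {A : SimpleGraph X} {o x y : X} {l : List X} :
    R A o (x :: y :: l) ↔ A.Adj y x ∧ l.head? ≠ some x ∧ R A o (y :: l) := Iff.rfl

/-- The projection. -/
def pr (A : SimpleGraph X) (o : X) (y : Y A o) : X := y.1.head (fun h => R_nil (h ▸ y.2))

theorem pr_cons {A : SimpleGraph X} {o x : X} {l : List X} (h : R A o (x :: l)) :
    pr A o ⟨x :: l, h⟩ = x := rfl

theorem ex_cons {A : SimpleGraph X} {o : X} (y : Y A o) :
    ∃ x l, ∃ h : R A o (x :: l), y = ⟨x :: l, h⟩ := by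
  obtain ⟨l, h⟩ := y
  cases l with
  | nil => exact absurd h R_nil
  | cons x l => exact ⟨x, l, h, rfl⟩

/-- The graph. -/
def B (A : SimpleGraph X) (o : X) : SimpleGraph (Y A o) where
  Adj u v := ∃ a, v.1 = a :: u.1 ∨ u.1 = a :: v.1
  symm := ⟨by
    rintro u v ⟨a, h | h⟩
    · exact ⟨a, Or.inr h⟩
    · exact ⟨a, Or.inl h⟩⟩
  loopless := ⟨by
    rintro u ⟨a, h | h⟩
    · have := congrArg List.length h
      simp at this
    · have := congrArg List.length h
      simp at this⟩

theorem B_adj {A : SimpleGraph X} {o : X} {u v : Y A o} :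
    (B A o).Adj u v ↔ ∃ a, v.1 = a :: u.1 ∨ u.1 = a :: v.1 := Iff.rfl

theorem acyclic (A : SimpleGraph X) (o : X) : (B A o).IsAcyclic := by
  refine acyclic_of_height (B A o) (fun u => u.1.length) ?_ ?_
  · rintro u v ⟨a, h | h⟩
    · have := congrArg List.length h
      simp only [List.length_cons] at this
      omega
    · have := congrArg List.length h
      simp only [List.length_cons] at this
      omega
  · rintro v u w ⟨a, h | h⟩ ⟨b, h' | h'⟩ h1 h2
    · have := congrArg List.length h
      simp only [List.length_cons] at this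
      beta_reduce at h1
      omega
    · have := congrArg List.length h
      simp only [List.length_cons] at this
      beta_reduce at h1
      omega
    · have := congrArg List.length h'
      simp only [List.length_cons] at this
      beta_reduce at h2
      omega
    · rw [h] at h'
      exact Subtype.ext (List.cons.inj h').2

theorem reach (A : SimpleGraph X) (o : X) (h0 : R A o [o]) :
    ∀ (l : List X) (x : X) (h : R A o (x :: l)), (B A o).Reachable ⟨[o], h0⟩ ⟨x :: l, h⟩ := by
  intro l
  induction l with
  | nil =>
    intro x h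
    have hx : x = o := h
    subst hx
    exact SimpleGraph.Reachable.refl _
  | cons y l ih =>
    intro x h
    have h1 : R A o (y :: l) := h.2.2
    refine (ih y h1).trans (SimpleGraph.Adj.reachable ?_)
    exact ⟨x, Or.inl rfl⟩

theorem tree (A : SimpleGraph X) (o : X) : (B A o).IsTree := by
  have h0 : R A o [o] := rfl
  have h1 : ∀ v : Y A o, (B A o).Reachable ⟨[o], h0⟩ v := by
    intro v
    obtain ⟨x, l, h, rfl⟩ := ex_cons v
    exact reach A o h0 l x h
  refine ⟨?_, acyclic A o⟩
  have : Nonempty (Y A o) := ⟨⟨[o], h0⟩⟩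
  exact ⟨fun u v => (h1 u).symm.trans (h1 v)⟩

theorem cov (A : SimpleGraph X) (o : X) : Cov (B A o) A (pr A o) := by
  constructor
  · have key : ∀ (u : Y A o) (a : X) (h : R A o (a :: u.1)), A.Adj (pr A o u) a := by
      intro u a h
      obtain ⟨x, l, hx, rfl⟩ := ex_cons u
      exact h.1
    rintro u v ⟨a, h | h⟩
    · obtain ⟨l, hl⟩ := v
      dsimp only at h
      subst h
      exact key u a hl
    · obtain ⟨l, hl⟩ := u
      dsimp only at h
      subst h
      exact (key v a hl).symm
  · intro u a hadj
    obtain ⟨x, l, hx, rfl⟩ := ex_cons u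
    rw [pr_cons] at hadj
    by_cases hc : l.head? = some a
    · cases l with
      | nil => simp at hc
      | cons z l1 =>
        have hz : z = a := by simpa using hc
        subst hz
        have hr : R A o (z :: l1) := hx.2.2
        refine ⟨⟨z :: l1, hr⟩, ⟨⟨x, Or.inr rfl⟩, rfl⟩, ?_⟩
        rintro w ⟨⟨b, hb | hb⟩, hp⟩
        · exfalso
          obtain ⟨lw, hw⟩ := w
          dsimp only at hb
          subst hb
          rw [pr_cons] at hp
          subst hp
          exact hw.2.1 rfl
        · apply Subtype.ext
          exact (List.cons.inj hb).2.symm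
    · have hr : R A o (a :: x :: l) := ⟨hadj, hc, hx⟩
      refine ⟨⟨a :: x :: l, hr⟩, ⟨⟨a, Or.inl rfl⟩, rfl⟩, ?_⟩
      rintro w ⟨⟨b, hb | hb⟩, hp⟩
      · obtain ⟨lw, hw⟩ := w
        dsimp only at hb
        subst hb
        rw [pr_cons] at hp
        subst hp
        rfl
      · exfalso
        obtain ⟨y, lw, hw, rfl⟩ := ex_cons w
        rw [pr_cons] at hp
        subst hp
        apply hc
        rw [(List.cons.inj hb).2]
        rfl

end UCAux

/-- UC: universal coverings of graphs. -/
theorem t_uc : S_UC := by
  intro X A o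
  exact ⟨UCAux.Y A o, UCAux.B A o, UCAux.pr A o, ⟨[o], rfl⟩, UCAux.tree A o, UCAux.cov A o, rfl⟩

end Pool.Agent.N571.SS
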