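import Pool.Agent.N571.SS.Stm

/-!
# Project SS: unions of groups with CMAP and of exact groups. By helper678.
-/

set_option autoImplicit false

namespace Pool.Agent.N571.SS

open Filter Topology

noncomputable section

namespace UN1

variable {Γ : Type} [Group Γ]

/-- a finite subset of an increasing union is contained in one of the subgroups -/
lemma fin_sub (K : ℕ → Subgroup Γ) (hm : Monotone K) (ht : ∀ x, ∃ n, x ∈ K n) (E : Finset Γ) :
    ∃ n, ∀ x ∈ E, x ∈ K n := by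
  choose m hm' using ht
  refine ⟨E.sup m, fun x hx => ?_⟩
  exact hm (Finset.le_sup hx) (hm' x)

/-- representative of the left coset -/
def rp (K : Subgroup Γ) (x : Γ) : Γ := Quotient.out (QuotientGroup.mk x : Γ ⧸ K)

lemma rp_mem (K : Subgroup Γ) (x : Γ) : (rp K x)⁻¹ * x ∈ K := by
  rw [← QuotientGroup.eq]
  exact QuotientGroup.out_eq' _

lemma rp_eq {K : Subgroup Γ} {x y : Γ} (h : y⁻¹ * x ∈ K) : rp K y = rp K x := by
  unfold rp
  rw [QuotientGroup.eq.2 h]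

/-- the component in `K` -/
def kk (K : Subgroup Γ) (x : Γ) : K := ⟨(rp K x)⁻¹ * x, rp_mem K x⟩

lemma kk_eq {K : Subgroup Γ} {x y : Γ} (h : y⁻¹ * x ∈ K) :
    (kk K y)⁻¹ * kk K x = ⟨y⁻¹ * x, h⟩ := by
  apply Subtype.ext
  show ((rp K y)⁻¹ * y)⁻¹ * ((rp K x)⁻¹ * x) = y⁻¹ * x
  rw [rp_eq h]
  group

open Classical in
/-- CMAP passes from subgroups -/
lemma cm (K : Subgroup Γ) (h : CMAP K) (E : Finset Γ) (hE : ∀ x ∈ E, x ∈ K) (ε : ℝ) (hε : 0 < ε) :
    ∃ φ : Γ → ℝ, {g | φ g ≠ 0}.Finite ∧ (∀ g ∈ E, |φ g - 1| < ε) ∧ HS φ (1 + ε) := by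
  obtain ⟨φ, h1, h2, ⟨H, i1, i2, i3, ξ, η, h3, h4⟩⟩ := h.ex (E.subtype (· ∈ K)) ε hε
  refine ⟨fun g => if hg : g ∈ K then φ ⟨g, hg⟩ else 0, ?_, ?_, ?_⟩
  · refine (h1.image (Subtype.val)).subset ?_
    intro g hg
    by_cases hK : g ∈ K
    · refine ⟨⟨g, hK⟩, ?_, rfl⟩
      simpa [hK] using hg
    · exfalso
      apply hg
      simp [hK]
  · intro g hg
    simp only [dif_pos (hE g hg)]
    exact h2 ⟨g, hE g hg⟩ (Finset.mem_subtype.2 hg)
  · refine ⟨lp (fun _ : Γ ⧸ K => H) 2, inferInstance, inferInstance, inferInstance,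
      fun x => lp.single 2 (QuotientGroup.mk x : Γ ⧸ K) (ξ (kk K x)),
      fun y => lp.single 2 (QuotientGroup.mk y : Γ ⧸ K) (η (kk K y)), fun x y => ?_, fun x => ?_⟩
    · rw [lp.inner_single_left]
      by_cases hK : y⁻¹ * x ∈ K
      · have hq : (QuotientGroup.mk x : Γ ⧸ K) = QuotientGroup.mk y := (QuotientGroup.eq.2 hK).symm
        rw [dif_pos hK, hq, lp.single_apply_self, h3, kk_eq hK]
      · have hq : (QuotientGroup.mk x : Γ ⧸ K) ≠ QuotientGroup.mk y := fun h =>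
          hK (QuotientGroup.eq.1 h.symm)
        rw [dif_neg hK, lp.single_apply_ne _ _ _ hq, inner_zero_right]
    · rw [lp.norm_single (by norm_num), lp.norm_single (by norm_num)]
      exact h4 (kk K x)

/-! exactness -/

/-- the component in `K` with respect to right cosets -/
lemma rr_mem (K : Subgroup Γ) (x : Γ) : x * rp K x⁻¹ ∈ K := by
  have h := K.inv_mem (rp_mem K x⁻¹)
  rwa [mul_inv_rev, inv_inv, inv_inv] at h

def rr (K : Subgroup Γ) (x : Γ) : K := ⟨x * rp K x⁻¹, rr_mem K x⟩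

lemma rr_mul (K : Subgroup Γ) (s : K) (x : Γ) : rr K (s * x) = s * rr K x := by
  apply Subtype.ext
  show (s : Γ) * x * rp K ((s : Γ) * x)⁻¹ = s * (x * rp K x⁻¹)
  have h : ((s : Γ) * x)⁻¹⁻¹ * x⁻¹ ∈ K := by
    have : ((s : Γ) * x)⁻¹⁻¹ * x⁻¹ = s := by group
    rw [this]
    exact s.2
  rw [rp_eq h, mul_assoc]

lemma l1_map {A B : Type} (f : A → B) (hf : Function.Injective f) (p : A →₀ ℝ) :
    l1 (p.mapDomain f) = l1 p := by
  unfold l1
  rw [Finsupp.sum_mapDomain_index_inj hf]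

lemma map_sub {A B : Type} (f : A → B) (p q : A →₀ ℝ) :
    (p - q).mapDomain f = p.mapDomain f - q.mapDomain f :=
  _root_.map_sub (Finsupp.mapDomain.addMonoidHom f) p q

lemma tr_map (K : Subgroup Γ) (s : K) (p : K →₀ ℝ) :
    tr (s : Γ) (p.mapDomain Subtype.val) = (tr s p).mapDomain Subtype.val := by
  unfold tr
  rw [← Finsupp.mapDomain_comp, ← Finsupp.mapDomain_comp]
  rfl

lemma pr_map (K : Subgroup Γ) (p : K →₀ ℝ) (h : Pr p) : Pr (p.mapDomain (Subtype.val : K → Γ)) := by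
  refine ⟨fun g => ?_, ?_⟩
  · by_cases hg : g ∈ K
    · have := Finsupp.mapDomain_apply Subtype.val_injective p (⟨g, hg⟩ : K)
      rw [show g = ((⟨g, hg⟩ : K) : Γ) from rfl, this]
      exact h.nonneg _
    · rw [Finsupp.mapDomain_of_notMem_range]
      simpa using hg
  · rw [Finsupp.sum_mapDomain_index_inj Subtype.val_injective]
    exact h.one

open Classical in
lemma exa (K : Subgroup Γ) (h : Exact K) (E : Finset Γ) (hE : ∀ x ∈ E, x ∈ K) (ε : ℝ)
    (hε : 0 < ε) : ∃ (F : Finset Γ) (ν : Γ → (Γ →₀ ℝ)),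
      (∀ x, Pr (ν x) ∧ (ν x).support ⊆ F) ∧ ∀ s ∈ E, ∀ x, l1 (ν (s * x) - tr s (ν x)) < ε := by
  obtain ⟨F, ν, h1, h2⟩ := h.ex (E.subtype (· ∈ K)) ε hε
  refine ⟨F.image Subtype.val, fun x => (ν (rr K x)).mapDomain Subtype.val, fun x => ⟨?_, ?_⟩,
    fun s hs x => ?_⟩
  · exact pr_map K _ (h1 _).1
  · exact Finsupp.mapDomain_support.trans (Finset.image_subset_image (h1 _).2)
  · have hsK := hE s hs
    have e1 := rr_mul K ⟨s, hsK⟩ x
    have e2 := tr_map K ⟨s, hsK⟩ (ν (rr K x))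
    simp only at e1 e2
    show l1 (Finsupp.mapDomain Subtype.val (ν (rr K (s * x))) -
      tr s (Finsupp.mapDomain Subtype.val (ν (rr K x)))) < ε
    rw [e1, e2, ← map_sub, l1_map _ Subtype.val_injective]
    exact h2 ⟨s, hsK⟩ (Finset.mem_subtype.2 hs) _

end UN1

/-- **UN1** -/
theorem t_un1 : S_UN1 := by
  intro Γ _ K hm ht
  refine ⟨fun h => ⟨fun E ε hε => ?_⟩, fun h => ⟨fun E ε hε => ?_⟩⟩
  · obtain ⟨n, hn⟩ := UN1.fin_sub K hm ht E
    exact UN1.cm (K n) (h n) E hn ε hε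
  · obtain ⟨n, hn⟩ := UN1.fin_sub K hm ht E
    exact UN1.exa (K n) (h n) E hn ε hε

end

end Pool.Agent.N571.SS
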