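import Pool.Agent.N571.SS.Stm

set_option autoImplicit false

/-!
# Leaf `UN2` of project SS: increasing unions of bi-exact groups (local form)

Each subgroup of the increasing union is almost malnormal in the next one.
-/

namespace Pool.Agent.N571.SS

namespace UN2Aux

open Classical in
/-- the uniform measure on the finite set `S` -/
noncomputable def un {G : Type} (S : Finset G) : G →₀ ℝ :=
  ∑ x ∈ S, Finsupp.single x ((S.card : ℝ)⁻¹)

theorem un_apply_nonneg {G : Type} (S : Finset G) (g : G) : 0 ≤ un S g := by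
  classical
  unfold un
  rw [Finsupp.finset_sum_apply]
  refine Finset.sum_nonneg fun x _ => ?_
  rw [Finsupp.single_apply]
  split_ifs
  · positivity
  · exact le_rfl

theorem un_pr {G : Type} {S : Finset G} (hS : S.Nonempty) : Pr (un S) := by
  classical
  refine ⟨un_apply_nonneg S, ?_⟩
  unfold un
  rw [← Finsupp.sum_finset_sum_index (fun _ => rfl) (fun _ _ _ => rfl)]
  have : ∀ x ∈ S, (Finsupp.single x ((S.card : ℝ)⁻¹)).sum (fun _ a => a) = (S.card : ℝ)⁻¹ :=
    fun x _ => Finsupp.sum_single_index rfl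
  rw [Finset.sum_congr rfl this, Finset.sum_const, nsmul_eq_mul]
  have : (S.card : ℝ) ≠ 0 := by
    have := hS.card_pos
    positivity
  field_simp

open Classical in
theorem tr_un {G : Type} [Group G] (s : G) (S : Finset G) :
    tr s (un S) = un (S.image (s * ·)) := by
  unfold tr un
  rw [Finsupp.mapDomain_finset_sum, Finset.sum_image (fun x _ y _ h => mul_left_cancel h),
    Finset.card_image_of_injective _ (mul_right_injective s)]
  refine Finset.sum_congr rfl fun x _ => ?_
  rw [Finsupp.mapDomain_single]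

theorem pr_map {G H : Type} {f : G → H} (p : G →₀ ℝ) (hp : Pr p) : Pr (p.mapDomain f) := by
  classical
  refine ⟨fun g => ?_, ?_⟩
  · unfold Finsupp.mapDomain
    rw [Finsupp.sum, Finsupp.finset_sum_apply]
    refine Finset.sum_nonneg fun x _ => ?_
    rw [Finsupp.single_apply]
    split_ifs
    · exact hp.nonneg x
    · exact le_rfl
  · rw [Finsupp.sum_mapDomain_index (fun _ => rfl) (fun _ _ _ => rfl)]
    exact hp.one

theorem l1_map {G H : Type} {f : G → H} (hf : Function.Injective f) (p : G →₀ ℝ) :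
    l1 (p.mapDomain f) = l1 p := by
  unfold l1
  rw [Finsupp.sum_mapDomain_index_inj hf]

theorem l1_zero {G : Type} : l1 (0 : G →₀ ℝ) = 0 := by
  unfold l1
  exact Finsupp.sum_zero_index

section

variable {Γ : Type} [Group Γ]

/-- the relation of lying in the same double coset -/
def dc (H : Subgroup Γ) : Setoid Γ where
  r p q := ∃ a ∈ H, ∃ b ∈ H, q = a * p * b
  iseqv := by
    refine ⟨fun p => ⟨1, H.one_mem, 1, H.one_mem, by simp⟩, ?_, ?_⟩
    · rintro p q ⟨a, ha, b, hb, rfl⟩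
      exact ⟨a⁻¹, H.inv_mem ha, b⁻¹, H.inv_mem hb, by group⟩
    · rintro p q r ⟨a, ha, b, hb, rfl⟩ ⟨c, hc, d, hd, rfl⟩
      exact ⟨c * a, H.mul_mem hc ha, b * d, H.mul_mem hb hd, by group⟩

/-- the representative of the double coset -/
noncomputable def rep (H : Subgroup Γ) (p : Γ) : Γ := (Quotient.mk (dc H) p).out

theorem rep_spec (H : Subgroup Γ) (p : Γ) : ∃ a ∈ H, ∃ b ∈ H, a * rep H p * b = p := by
  have h : (dc H).r (rep H p) p := Quotient.mk_out (s := dc H) p
  obtain ⟨a, ha, b, hb, e⟩ := h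
  exact ⟨a, ha, b, hb, e.symm⟩

theorem rep_mul (H : Subgroup Γ) (p s t : Γ) (hs : s ∈ H) (ht : t ∈ H) :
    rep H (s * p * t) = rep H p := by
  unfold rep
  congr 1
  apply Quotient.sound (s := dc H)
  show (dc H).r _ _
  exact ⟨s⁻¹, H.inv_mem hs, t⁻¹, H.inv_mem ht, by group⟩

/-- the finite set attached to `p` -/
def sg (H : Subgroup Γ) (p : Γ) : Set Γ := {a | a ∈ H ∧ ∃ b ∈ H, a * rep H p * b = p}

theorem sg_nonempty (H : Subgroup Γ) (p : Γ) : (sg H p).Nonempty := by
  obtain ⟨a, ha, b, hb, e⟩ := rep_spec H p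
  exact ⟨a, ha, b, hb, e⟩

theorem sg_mul (H : Subgroup Γ) (p s t : Γ) (hs : s ∈ H) (ht : t ∈ H) :
    sg H (s * p * t) = (s * ·) '' sg H p := by
  ext a
  constructor
  · rintro ⟨ha, b, hb, e⟩
    rw [rep_mul H p s t hs ht] at e
    refine ⟨s⁻¹ * a, ⟨H.mul_mem (H.inv_mem hs) ha, b * t⁻¹, H.mul_mem hb (H.inv_mem ht), ?_⟩, ?_⟩
    · calc s⁻¹ * a * rep H p * (b * t⁻¹) = s⁻¹ * (a * rep H p * b) * t⁻¹ := by group
        _ = p := by rw [e]; group
    · show s * (s⁻¹ * a) = a
      group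
  · rintro ⟨c, ⟨hc, b, hb, e⟩, rfl⟩
    refine ⟨H.mul_mem hs hc, b * t, H.mul_mem hb ht, ?_⟩
    rw [rep_mul H p s t hs ht]
    show s * c * rep H p * (b * t) = s * p * t
    calc s * c * rep H p * (b * t) = s * (c * rep H p * b) * t := by group
      _ = s * p * t := by rw [e]

theorem sg_finite (H : Subgroup Γ)
    (hC : ∀ q, q ∉ H → {a | a ∈ H ∧ ∃ b ∈ H, a * q = q * b}.Finite) {p : Γ} (hp : p ∉ H) :
    (sg H p).Finite := by
  obtain ⟨a0, ha0, b0, hb0, e0⟩ := rep_spec H p
  have hq : rep H p ∉ H := by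
    intro h
    apply hp
    rw [← e0]
    exact H.mul_mem (H.mul_mem ha0 h) hb0
  refine ((hC _ hq).image (a0 * ·)).subset ?_
  rintro a ⟨ha, b, hb, e⟩
  refine ⟨a0⁻¹ * a, ⟨H.mul_mem (H.inv_mem ha0) ha, b0 * b⁻¹, H.mul_mem hb0 (H.inv_mem hb), ?_⟩, ?_⟩
  · have h1 : a * rep H p * b = a0 * rep H p * b0 := e.trans e0.symm
    calc a0⁻¹ * a * rep H p = a0⁻¹ * (a * rep H p * b) * b⁻¹ := by group
      _ = rep H p * (b0 * b⁻¹) := by rw [h1]; group
  · show a0 * (a0⁻¹ * a) = a
    group

theorem claim (K : ℕ → Subgroup Γ) (hK : Monotone K) (htop : ∀ x, ∃ n, x ∈ K n)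
    (hmal : ∀ n, ∀ p ∈ K (n + 1), p ∉ K n → {g | g ∈ K n ∧ ∃ h ∈ K n, g * p = p * h}.Finite)
    (n : ℕ) (q : Γ) (hq : q ∉ K n) : {a | a ∈ K n ∧ ∃ b ∈ K n, a * q = q * b}.Finite := by
  classical
  have hspec := Nat.find_spec (htop q)
  have hmin := fun m => Nat.find_min (htop q) (m := m)
  set N := Nat.find (htop q) with hN
  rcases Nat.eq_zero_or_pos N with h0 | h0
  · exfalso
    apply hq
    rw [h0] at hspec
    exact hK (Nat.zero_le n) hspec
  · obtain ⟨m, hm⟩ : ∃ m, N = m + 1 := ⟨N - 1, by omega⟩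
    have h1 : q ∈ K (m + 1) := hm ▸ hspec
    have h2 : q ∉ K m := hmin m (by omega)
    have h3 : n ≤ m := by
      by_contra hlt
      exact hq (hK (by omega : m + 1 ≤ n) h1)
    refine (hmal m q h1 h2).subset ?_
    rintro a ⟨ha, b, hb, e⟩
    exact ⟨hK h3 ha, b, hK h3 hb, e⟩

end

end UN2Aux

open UN2Aux in
theorem t_un2 : S_UN2 := by
  classical
  intro Γ _ K hK htop hmal hBE
  refine ⟨fun E ε hε => ?_⟩
  -- a subgroup which contains `E`
  have hE : ∃ n, ∀ x ∈ E, x ∈ K n := by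
    induction E using Finset.induction_on with
    | empty => exact ⟨0, by simp⟩
    | insert a s _ ih =>
      obtain ⟨n, hn⟩ := ih
      obtain ⟨m, hm⟩ := htop a
      refine ⟨max n m, fun x hx => ?_⟩
      rcases Finset.mem_insert.1 hx with rfl | hx
      · exact hK (le_max_right n m) hm
      · exact hK (le_max_left n m) (hn x hx)
  obtain ⟨n, hn⟩ := hE
  have hC := claim K hK htop hmal n
  obtain ⟨F, μ, hμ, hF⟩ := (hBE n).ex (E.subtype (· ∈ K n)) ε hε
  let ν : Γ → (Γ →₀ ℝ) := fun p =>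
    if hp : p ∈ K n then (μ ⟨p, hp⟩).mapDomain Subtype.val
    else un (sg_finite (K n) hC hp).toFinset
  refine ⟨F.image Subtype.val, ν, ?_, ?_⟩
  · intro p
    by_cases hp : p ∈ K n
    · simp only [ν, dif_pos hp]
      exact pr_map _ (hμ _)
    · simp only [ν, dif_neg hp]
      exact un_pr (by
        rw [Set.Finite.toFinset_nonempty]
        exact sg_nonempty _ _)
  · intro x hx s hs t ht
    have hs' := hn s hs
    have ht' := hn t ht
    by_cases hp : x ∈ K n
    · have h1 : s * x * t ∈ K n := (K n).mul_mem ((K n).mul_mem hs' hp) ht'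
      simp only [ν, dif_pos hp, dif_pos h1]
      have h2 : (⟨x, hp⟩ : K n) ∉ F := by
        intro h
        exact hx (Finset.mem_image.2 ⟨_, h, rfl⟩)
      have h3 := hF ⟨x, hp⟩ h2 ⟨s, hs'⟩ (by simpa using hs) ⟨t, ht'⟩ (by simpa using ht)
      have h4 : tr s ((μ ⟨x, hp⟩).mapDomain Subtype.val) =
          (tr (⟨s, hs'⟩ : K n) (μ ⟨x, hp⟩)).mapDomain Subtype.val := by
        unfold tr
        rw [← Finsupp.mapDomain_comp, ← Finsupp.mapDomain_comp]
        rfl
      rw [h4]
      have h5 : (μ ⟨s * x * t, h1⟩).mapDomain Subtype.val -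
          (tr (⟨s, hs'⟩ : K n) (μ ⟨x, hp⟩)).mapDomain Subtype.val =
          (μ ⟨s * x * t, h1⟩ - tr (⟨s, hs'⟩ : K n) (μ ⟨x, hp⟩)).mapDomain
            (Subtype.val : K n → Γ) := by
        rw [sub_eq_add_neg, sub_eq_add_neg, Finsupp.mapDomain_add]
        congr 1
        ext y
        simp [Finsupp.mapDomain, Finsupp.sum_neg_index]
      rw [h5, l1_map Subtype.val_injective]
      exact h3
    · have h1 : s * x * t ∉ K n := by
        intro h
        apply hp
        have h2 := (K n).mul_mem ((K n).mul_mem ((K n).inv_mem hs') h) ((K n).inv_mem ht')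
        have h3 : s⁻¹ * (s * x * t) * t⁻¹ = x := by group
        rwa [h3] at h2
      simp only [ν, dif_neg hp, dif_neg h1]
      have h2 : (sg_finite (K n) hC h1).toFinset =
          (sg_finite (K n) hC hp).toFinset.image (s * ·) := by
        ext a
        rw [Set.Finite.mem_toFinset, sg_mul (K n) x s t hs' ht', Finset.mem_image]
        simp only [Set.Finite.mem_toFinset, Set.mem_image]
      rw [h2, tr_un, sub_self, l1_zero]
      exact hε

end Pool.Agent.N571.SS
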