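import Pool.Agent.N571.SS.Stm

/-!
# Groups acting properly on trees satisfy the bi-exactness condition
-/

set_option autoImplicit false

namespace Pool.Agent.N571.SS

namespace XBE

open scoped Classical

noncomputable section

theorem l1_zero {G : Type} : l1 (0 : G →₀ ℝ) = 0 := by simp [l1]

theorem l1_eq {G : Type} (p : G →₀ ℝ) (s : Finset G) (hs : p.support ⊆ s) :
    l1 p = ∑ g ∈ s, |p g| := by
  unfold l1
  exact Finsupp.sum_of_support_subset p hs _ (fun i _ => abs_zero)

theorem l1_add {G : Type} (p q : G →₀ ℝ) : l1 (p + q) ≤ l1 p + l1 q := by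
  have h1 : p.support ⊆ p.support ∪ q.support := Finset.subset_union_left
  have h2 : q.support ⊆ p.support ∪ q.support := Finset.subset_union_right
  rw [l1_eq _ _ Finsupp.support_add, l1_eq _ _ h1, l1_eq _ _ h2, ← Finset.sum_add_distrib]
  exact Finset.sum_le_sum fun g _ => abs_add_le _ _

theorem l1_neg {G : Type} (p : G →₀ ℝ) : l1 (-p) = l1 p := by
  rw [l1_eq (-p) p.support (by rw [Finsupp.support_neg]), l1_eq p _ subset_rfl]
  simp

theorem l1_sub {G : Type} (p q : G →₀ ℝ) : l1 (p - q) ≤ l1 p + l1 q := by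
  rw [sub_eq_add_neg, ← l1_neg q]
  exact l1_add _ _

theorem l1_smul {G : Type} (c : ℝ) (p : G →₀ ℝ) : l1 (c • p) = |c| * l1 p := by
  rw [l1_eq (c • p) p.support Finsupp.support_smul, l1_eq p _ subset_rfl, Finset.mul_sum]
  simp [abs_mul]

theorem l1_sum {G V : Type} (A : Finset V) (u : V → G →₀ ℝ) (h : ∀ v, l1 (u v) ≤ 1) :
    l1 (∑ v ∈ A, u v) ≤ A.card := by
  induction A using Finset.induction_on with
  | empty => simp [l1_zero]
  | insert a s ha ih =>
    rw [Finset.sum_insert ha, Finset.card_insert_of_notMem ha]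
    push_cast
    have := l1_add (u a) (∑ v ∈ s, u v)
    linarith [h a]

theorem l1_pr {G : Type} {p : G →₀ ℝ} (h : Pr p) : l1 p = 1 := by
  rw [← h.one]
  unfold l1
  exact Finsupp.sum_congr fun g _ => abs_of_nonneg (h.nonneg g)

/-- the mass -/
def mass {G : Type} : (G →₀ ℝ) →ₗ[ℝ] ℝ := Finsupp.lsum ℝ fun _ => LinearMap.id

theorem mass_apply {G : Type} (p : G →₀ ℝ) : mass p = p.sum fun _ a => a := rfl

/-- the average -/
def avg {G V : Type} (A : Finset V) (u : V → G →₀ ℝ) : G →₀ ℝ := (A.card : ℝ)⁻¹ • ∑ v ∈ A, u v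

theorem pr_avg {G V : Type} {A : Finset V} (hA : A.Nonempty) {u : V → G →₀ ℝ}
    (h : ∀ v, Pr (u v)) : Pr (avg A u) := by
  refine ⟨fun g => ?_, ?_⟩
  · rw [avg, Finsupp.smul_apply, Finsupp.finsetSum_apply, smul_eq_mul]
    exact mul_nonneg (by positivity) (Finset.sum_nonneg fun v _ => (h v).nonneg g)
  · rw [← mass_apply, avg, map_smul, map_sum]
    have : ∀ v ∈ A, mass (u v) = 1 := fun v _ => by rw [mass_apply]; exact (h v).one
    rw [Finset.sum_congr rfl this]
    have : (A.card : ℝ) ≠ 0 := by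
      have := hA.card_pos
      positivity
    simp [this]

theorem tr_avg {G V : Type} [Group G] (s : G) (A : Finset V) (u : V → G →₀ ℝ) :
    tr s (avg A u) = avg A fun v => tr s (u v) := by
  rw [avg, avg, tr, Finsupp.mapDomain_smul, Finsupp.mapDomain_finsetSum]
  rfl

theorem avg_image {G V W : Type} (A : Finset V) (u : W → G →₀ ℝ) (f : V → W)
    (hf : Function.Injective f) : avg (A.image f) u = avg A fun v => u (f v) := by
  rw [avg, avg, Finset.card_image_of_injective A hf, Finset.sum_image (fun a _ b _ h => hf h)]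

theorem l1_avg {G V : Type} {A B : Finset V} (hA : A.Nonempty) (hB : B.Nonempty)
    {u : V → G →₀ ℝ} (h : ∀ v, Pr (u v)) {D : ℕ} (h1 : (A \ B).card ≤ D)
    (h2 : (B \ A).card ≤ D) : l1 (avg A u - avg B u) ≤ 4 * D / B.card := by
  have hu : ∀ v, l1 (u v) ≤ 1 := fun v => (l1_pr (h v)).le
  have hA0 : (0 : ℝ) < A.card := by exact_mod_cast hA.card_pos
  have hB0 : (0 : ℝ) < B.card := by exact_mod_cast hB.card_pos
  have e1 : ∑ v ∈ A, u v = ∑ v ∈ A \ B, u v + ∑ v ∈ A ∩ B, u v := by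
    rw [add_comm]
    exact (Finset.sum_inter_add_sum_sdiff A B u).symm
  have e2 : ∑ v ∈ B, u v = ∑ v ∈ B \ A, u v + ∑ v ∈ A ∩ B, u v := by
    rw [add_comm, Finset.inter_comm]
    exact (Finset.sum_inter_add_sum_sdiff B A u).symm
  have c1 : (A.card : ℝ) = (A \ B).card + (A ∩ B).card := by
    have := Finset.card_inter_add_card_sdiff A B
    push_cast [← this]
    ring
  have c2 : (B.card : ℝ) = (B \ A).card + (A ∩ B).card := by
    have := Finset.card_inter_add_card_sdiff B A
    rw [Finset.inter_comm] at this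
    push_cast [← this]
    ring
  have e3 : avg A u - avg B u = (B.card : ℝ)⁻¹ • (∑ v ∈ A \ B, u v - ∑ v ∈ B \ A, u v) +
      ((A.card : ℝ)⁻¹ - (B.card : ℝ)⁻¹) • ∑ v ∈ A, u v := by
    have e4 : ∑ v ∈ A \ B, u v - ∑ v ∈ B \ A, u v = ∑ v ∈ A, u v - ∑ v ∈ B, u v := by
      rw [e1, e2]; abel
    rw [e4, avg, avg, smul_sub, sub_smul]
    abel
  have d1 : ((A \ B).card : ℝ) ≤ D := by exact_mod_cast h1
  have d2 : ((B \ A).card : ℝ) ≤ D := by exact_mod_cast h2
  have p1 : l1 ((B.card : ℝ)⁻¹ • (∑ v ∈ A \ B, u v - ∑ v ∈ B \ A, u v)) ≤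
      (B.card : ℝ)⁻¹ * (2 * D) := by
    rw [l1_smul, abs_of_pos (by positivity)]
    apply mul_le_mul_of_nonneg_left _ (by positivity)
    have := l1_sub (∑ v ∈ A \ B, u v) (∑ v ∈ B \ A, u v)
    linarith [l1_sum (A \ B) u hu, l1_sum (B \ A) u hu]
  have p2 : l1 (((A.card : ℝ)⁻¹ - (B.card : ℝ)⁻¹) • ∑ v ∈ A, u v) ≤
      (B.card : ℝ)⁻¹ * D := by
    rw [l1_smul]
    calc |(A.card : ℝ)⁻¹ - (B.card : ℝ)⁻¹| * l1 (∑ v ∈ A, u v)
        ≤ |(A.card : ℝ)⁻¹ - (B.card : ℝ)⁻¹| * A.card :=
          mul_le_mul_of_nonneg_left (l1_sum A u hu) (abs_nonneg _)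
      _ = |((A.card : ℝ)⁻¹ - (B.card : ℝ)⁻¹) * A.card| := by
          rw [abs_mul, abs_of_pos hA0]
      _ = |(B.card : ℝ)⁻¹ * (B.card - A.card)| := by
          congr 1
          field_simp
      _ = (B.card : ℝ)⁻¹ * |(B.card : ℝ) - A.card| := by
          rw [abs_mul, abs_of_pos (by positivity)]
      _ ≤ (B.card : ℝ)⁻¹ * D := by
          apply mul_le_mul_of_nonneg_left _ (by positivity)
          rw [abs_le]
          constructor <;> rw [c1, c2] <;>
            nlinarith [Nat.cast_nonneg (α := ℝ) (A \ B).card, Nat.cast_nonneg (α := ℝ) (B \ A).card]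
  rw [e3]
  have h5 := l1_add ((B.card : ℝ)⁻¹ • (∑ v ∈ A \ B, u v - ∑ v ∈ B \ A, u v))
    (((A.card : ℝ)⁻¹ - (B.card : ℝ)⁻¹) • ∑ v ∈ A, u v)
  have h6 : 4 * (D : ℝ) / B.card = (B.card : ℝ)⁻¹ * (2 * D) + (B.card : ℝ)⁻¹ * D +
      (B.card : ℝ)⁻¹ * D := by
    field_simp; ring
  rw [h6]
  have h7 : 0 ≤ (B.card : ℝ)⁻¹ * D := by positivity
  linarith

theorem pr_single {G : Type} (g : G) : Pr (Finsupp.single g (1 : ℝ)) := by
  refine ⟨fun x => ?_, ?_⟩
  · rw [Finsupp.single_apply]
    split_ifs <;> norm_num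
  · rw [Finsupp.sum_single_index rfl]

/-- equivariant measures -/
theorem exists_u {G V : Type} [Group G] [MulAction G V]
    (hf : ∀ v w : V, {g : G | g • w = v}.Finite) :
    ∃ u : V → G →₀ ℝ, (∀ v, Pr (u v)) ∧ ∀ (s : G) v, tr s (u v) = u (s • v) := by
  let rep : V → V := fun v => (Quotient.mk (MulAction.orbitRel G V) v).out
  have hrep : ∀ (s : G) v, rep (s • v) = rep v := by
    intro s v
    have : (Quotient.mk (MulAction.orbitRel G V) (s • v)) = Quotient.mk _ v := by
      apply Quotient.sound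
      exact (MulAction.orbitRel_apply).2 ⟨s, rfl⟩
    simp only [rep, this]
  have hex : ∀ v, ∃ g : G, g • rep v = v := by
    intro v
    have h1 : Quotient.mk (MulAction.orbitRel G V) (rep v) = Quotient.mk _ v := Quotient.out_eq _
    have h2 := Quotient.exact h1.symm
    exact (MulAction.orbitRel_apply).1 h2
  let σ : V → Finset G := fun v => (hf v (rep v)).toFinset
  have hσ : ∀ v g, g ∈ σ v ↔ g • rep v = v := by
    intro v g
    simp [σ]
  have hne : ∀ v, (σ v).Nonempty := fun v => by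
    obtain ⟨g, hg⟩ := hex v
    exact ⟨g, (hσ v g).2 hg⟩
  refine ⟨fun v => avg (σ v) fun g => Finsupp.single g 1, fun v => pr_avg (hne v) pr_single, ?_⟩
  intro s v
  rw [tr_avg]
  have e1 : (fun g : G => tr s (Finsupp.single g (1 : ℝ))) =
      fun g => Finsupp.single (s * g) (1 : ℝ) := by
    funext g
    rw [tr, Finsupp.mapDomain_single]
  rw [e1, ← avg_image (σ v) (fun g => Finsupp.single g (1 : ℝ)) (s * ·) (mul_right_injective s)]
  congr 1
  ext g
  rw [Finset.mem_image, hσ, hrep]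
  constructor
  · rintro ⟨a, ha, rfl⟩
    rw [mul_smul, (hσ v a).1 ha]
  · intro h
    refine ⟨s⁻¹ * g, (hσ v _).2 ?_, by simp⟩
    rw [mul_smul, h, inv_smul_smul]

end

end XBE

open scoped Classical in
theorem t_xbe (h : S_PRP) (h1 : S_SEG) : S_XBE := by
  intro G V _ _ T hT
  obtain ⟨hd, -, hpf, -⟩ := h G V T hT
  obtain ⟨seg, hseg, hcard, hfin, hdiff⟩ := h1 V T hT.tree
  obtain ⟨o⟩ : Nonempty V := hT.tree.connected.nonempty
  obtain ⟨u, hu, htr⟩ := XBE.exists_u (G := G) (V := V) (fun v w => by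
    refine (hpf v w 0).subset ?_
    intro g hg
    simp only [Set.mem_ofPred_eq] at hg ⊢
    rw [hg, SimpleGraph.dist_self])
  let S : V → V → Finset V := fun a b => (hfin a b).toFinset
  have hS : ∀ a b v, v ∈ S a b ↔ T.dist a v + T.dist v b = T.dist a b := by
    intro a b v
    simp [S, hseg]
  have hSc : ∀ a b, (S a b).card = T.dist a b + 1 := by
    intro a b
    rw [← hcard, Set.ncard_eq_toFinset_card _ (hfin a b)]
  have hSne : ∀ a b, (S a b).Nonempty := by
    intro a b
    rw [← Finset.card_pos, hSc]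
    omega
  have hSd : ∀ a a' b, (S a b \ S a' b).card ≤ T.dist a a' := by
    intro a a' b
    rw [← Set.ncard_coe_finset]
    push_cast
    simp only [S, Set.Finite.coe_toFinset]
    exact hdiff a a' b
  have hSs : ∀ a b, S a b = S b a := by
    intro a b
    ext v
    rw [hS, hS, T.dist_comm (u := b) (v := a), T.dist_comm (u := b) (v := v),
      T.dist_comm (u := v) (v := a), add_comm]
  have hSd' : ∀ a b b', (S a b \ S a b').card ≤ T.dist b b' := by
    intro a b b'
    rw [hSs a b, hSs a b']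
    exact hSd b b' a
  have hSi : ∀ (s : G) a b, (S a b).image (s • ·) = S (s • a) (s • b) := by
    intro s a b
    ext v
    rw [Finset.mem_image, hS]
    constructor
    · rintro ⟨w, hw, rfl⟩
      rw [hd, hd, hd]
      exact (hS _ _ _).1 hw
    · intro hv
      refine ⟨s⁻¹ • v, (hS _ _ _).2 ?_, smul_inv_smul _ _⟩
      rw [← hd s a, ← hd s _ b, ← hd s a b, smul_inv_smul]
      exact hv
  constructor
  intro E ε hε
  let D0 : ℕ := ∑ s ∈ E, T.dist o (s • o)
  have hD0 : ∀ s ∈ E, T.dist o (s • o) ≤ D0 := fun s hs =>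
    Finset.single_le_sum (f := fun s => T.dist o (s • o)) (fun _ _ => Nat.zero_le _) hs
  obtain ⟨M, hM⟩ := exists_nat_gt (4 * ((2 * D0 : ℕ) : ℝ) / ε)
  refine ⟨(hpf o o M).toFinset, fun x => XBE.avg (S o (x • o)) u,
    fun x => XBE.pr_avg (hSne _ _) hu, ?_⟩
  intro x hx s hs t ht
  have hx' : M < T.dist o (x • o) := by
    simpa using hx
  have e1 : tr s (XBE.avg (S o (x • o)) u) = XBE.avg (S (s • o) (s • x • o)) u := by
    rw [XBE.tr_avg]
    simp only [htr]
    rw [← XBE.avg_image _ u (s • ·) (MulAction.injective s), hSi]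
  rw [e1]
  have k1 : T.dist o (s • o) ≤ D0 := hD0 s hs
  have k2 : T.dist ((s * x * t) • o) (s • x • o) ≤ D0 := by
    rw [mul_smul, mul_smul, hd, hd, T.dist_comm]
    exact hD0 t ht
  have hAB : (S o ((s * x * t) • o) \ S (s • o) (s • x • o)).card ≤ 2 * D0 := by
    have i1 : S o ((s * x * t) • o) \ S (s • o) (s • x • o) ⊆
        (S o ((s * x * t) • o) \ S (s • o) ((s * x * t) • o)) ∪
        (S (s • o) ((s * x * t) • o) \ S (s • o) (s • x • o)) := by
      intro v hv
      simp only [Finset.mem_union, Finset.mem_sdiff] at hv ⊢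
      tauto
    have i2 := (Finset.card_le_card i1).trans (Finset.card_union_le _ _)
    have i3 := hSd o (s • o) ((s * x * t) • o)
    have i4 := hSd' (s • o) ((s * x * t) • o) (s • x • o)
    omega
  have hBA : (S (s • o) (s • x • o) \ S o ((s * x * t) • o)).card ≤ 2 * D0 := by
    have i1 : S (s • o) (s • x • o) \ S o ((s * x * t) • o) ⊆
        (S (s • o) (s • x • o) \ S (s • o) ((s * x * t) • o)) ∪
        (S (s • o) ((s * x * t) • o) \ S o ((s * x * t) • o)) := by
      intro v hv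
      simp only [Finset.mem_union, Finset.mem_sdiff] at hv ⊢
      tauto
    have i2 := (Finset.card_le_card i1).trans (Finset.card_union_le _ _)
    have i3 := hSd (s • o) o ((s * x * t) • o)
    have i4 := hSd' (s • o) (s • x • o) ((s * x * t) • o)
    rw [T.dist_comm] at i3 i4
    omega
  refine (XBE.l1_avg (hSne _ _) (hSne _ _) hu hAB hBA).trans_lt ?_
  have hc : (M : ℝ) < (S (s • o) (s • x • o)).card := by
    rw [hSc, hd]
    exact_mod_cast hx'.trans (Nat.lt_succ_self _)
  have hc0 : (0 : ℝ) < (S (s • o) (s • x • o)).card := lt_of_le_of_lt (Nat.cast_nonneg M) hc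
  rw [div_lt_iff₀ hε] at hM
  rw [div_lt_iff₀ hc0]
  nlinarith

end Pool.Agent.N571.SS
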