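import Pool.Agent.N571.SS.Stm

/-!
# Project SS: groups acting properly on trees have CMAP (helper572)
-/

set_option autoImplicit false

namespace Pool.Agent.N571.SS

open Filter Topology

noncomputable section

namespace XCMAux

/-! ### Kernels -/

/-- kernels given by vectors of norm square at most `C` -/
def SK {V : Type} (K : V → V → ℝ) (C : ℝ) : Prop :=
  ∃ (H : Type) (_ : NormedAddCommGroup H) (_ : InnerProductSpace ℝ H) (_ : CompleteSpace H)
    (ξ η : V → H), (∀ x y, inner ℝ (ξ x) (η y) = K x y) ∧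
      ∀ x, ‖ξ x‖ ^ 2 ≤ C ∧ ‖η x‖ ^ 2 ≤ C

theorem SK.congr {V : Type} {K K' : V → V → ℝ} {C : ℝ} (h : SK K C)
    (e : ∀ x y, K x y = K' x y) : SK K' C := by
  have h1 : K = K' := by
    funext x y
    exact e x y
  rwa [← h1]

theorem SK.mono {V : Type} {K : V → V → ℝ} {C C' : ℝ} (h : SK K C) (hC : C ≤ C') : SK K C' := by
  obtain ⟨H, i1, i2, i3, ξ, η, h1, h2⟩ := h
  exact ⟨H, i1, i2, i3, ξ, η, h1, fun x => ⟨(h2 x).1.trans hC, (h2 x).2.trans hC⟩⟩

theorem SK.add {V : Type} {K K' : V → V → ℝ} {C C' : ℝ} (h : SK K C) (h' : SK K' C') :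
    SK (fun x y => K x y + K' x y) (C + C') := by
  obtain ⟨H, i1, i2, i3, ξ, η, h1, h2⟩ := h
  obtain ⟨H', j1, j2, j3, ξ', η', h1', h2'⟩ := h'
  refine ⟨WithLp 2 (H × H'), inferInstance, inferInstance, inferInstance,
    fun x => WithLp.toLp 2 (ξ x, ξ' x), fun y => WithLp.toLp 2 (η y, η' y), ?_, ?_⟩
  · intro x y
    rw [WithLp.prod_inner_apply]
    show inner ℝ (ξ x) (η y) + inner ℝ (ξ' x) (η' y) = _
    rw [h1, h1']
  · intro x
    rw [WithLp.prod_norm_sq_eq_of_L2, WithLp.prod_norm_sq_eq_of_L2]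
    exact ⟨add_le_add (h2 x).1 (h2' x).1, add_le_add (h2 x).2 (h2' x).2⟩

theorem SK.neg {V : Type} {K : V → V → ℝ} {C : ℝ} (h : SK K C) : SK (fun x y => -K x y) C := by
  obtain ⟨H, i1, i2, i3, ξ, η, h1, h2⟩ := h
  refine ⟨H, inferInstance, inferInstance, inferInstance, ξ, fun y => -η y, ?_, ?_⟩
  · intro x y
    rw [inner_neg_right, h1]
  · intro x
    rw [norm_neg]
    exact h2 x

theorem SK.zero {V : Type} : SK (fun _ _ : V => (0 : ℝ)) 0 :=
  ⟨ℝ, inferInstance, inferInstance, inferInstance, fun _ => 0, fun _ => 0, by simp, by simp⟩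

theorem SK.sum {V ι : Type} (S : Finset ι) (K : ι → V → V → ℝ) (C : ι → ℝ)
    (h : ∀ i ∈ S, SK (K i) (C i)) : SK (fun x y => ∑ i ∈ S, K i x y) (∑ i ∈ S, C i) := by
  classical
  induction S using Finset.induction_on with
  | empty =>
    rw [Finset.sum_empty]
    exact SK.zero.congr fun x y => (Finset.sum_empty).symm
  | insert a S ha ih =>
    have h1 := (h a (Finset.mem_insert_self _ _)).add
      (ih fun i hi => h i (Finset.mem_insert_of_mem hi))
    rw [Finset.sum_insert ha]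
    refine h1.congr fun x y => ?_
    rw [Finset.sum_insert ha]

open Classical in
/-- the unit vectors -/
def ev {W : Type} (w : W) : lp (fun _ : W => ℝ) 2 := lp.single 2 w (1 : ℝ)

open Classical in
theorem ev_inner {W : Type} (v w : W) :
    inner ℝ (ev v) (ev w) = if v = w then (1 : ℝ) else 0 := by
  unfold ev
  rw [lp.inner_single_left, lp.single_apply, Pi.single_apply]
  split_ifs <;> simp

open Classical in
/-- coincidences of two maps -/
theorem SK.base {V W : Type} (f g : V → W) {c : ℝ} (hc : 0 ≤ c) :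
    SK (fun x y => if f x = g y then c else 0) c := by
  refine ⟨lp (fun _ : W => ℝ) 2, inferInstance, inferInstance, inferInstance,
    fun x => Real.sqrt c • ev (f x), fun y => Real.sqrt c • ev (g y), ?_, ?_⟩
  · intro x y
    rw [real_inner_smul_left, real_inner_smul_right, ev_inner, ← mul_assoc, Real.mul_self_sqrt hc]
    by_cases hxy : f x = g y <;> simp [hxy]
  · have h1 : ∀ w : W, ‖Real.sqrt c • ev w‖ ^ 2 ≤ c := by
      intro w
      rw [← real_inner_self_eq_norm_sq, real_inner_smul_left, real_inner_smul_right, ev_inner,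
        if_pos rfl, mul_one, Real.mul_self_sqrt hc]
    exact fun x => ⟨h1 _, h1 _⟩

open Classical in
/-- coincidences of two rays -/
theorem SK.rays {V W : Type} (ω : V → ℕ → W) (hω : ∀ x a b, ω x a = ω x b → a = b) (n : ℕ)
    (c : ℕ → ℝ) :
    SK (fun x y => ∑ p ∈ Finset.range n ×ˢ Finset.range n,
      if ω x p.1 = ω y p.2 then c p.1 * c p.2 else 0) (∑ a ∈ Finset.range n, c a * c a) := by
  have key : ∀ x y, inner ℝ (∑ a ∈ Finset.range n, c a • ev (ω x a))
      (∑ b ∈ Finset.range n, c b • ev (ω y b)) =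
      ∑ p ∈ Finset.range n ×ˢ Finset.range n,
        if ω x p.1 = ω y p.2 then c p.1 * c p.2 else 0 := by
    intro x y
    rw [Finset.sum_product, sum_inner]
    refine Finset.sum_congr rfl fun a _ => ?_
    rw [inner_sum]
    refine Finset.sum_congr rfl fun b _ => ?_
    rw [real_inner_smul_left, real_inner_smul_right, ev_inner]
    split_ifs <;> simp
  have hn : ∀ x, ‖∑ a ∈ Finset.range n, c a • ev (ω x a)‖ ^ 2 ≤
      ∑ a ∈ Finset.range n, c a * c a := by
    intro x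
    rw [← real_inner_self_eq_norm_sq, key, Finset.sum_product]
    refine Finset.sum_le_sum fun a ha => le_of_eq ?_
    rw [Finset.sum_eq_single a]
    · simp
    · intro b _ hb
      rw [if_neg fun h => hb (hω x a b h).symm]
    · intro h
      exact absurd ha h
  exact ⟨lp (fun _ : W => ℝ) 2, inferInstance, inferInstance, inferInstance, _, _, key,
    fun x => ⟨hn x, hn x⟩⟩

/-! ### Rays in a rooted tree -/

section
variable {V : Type} (T : SimpleGraph V) (o : V) (π : V → V)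

/-- the ray from `x` through the root -/
def om (x : V) (k : ℕ) : V ⊕ ℕ :=
  if k ≤ T.dist o x then Sum.inl (π^[k] x) else Sum.inr (k - T.dist o x)

variable {T o π}

theorem dist_iter (hπ : ∀ x, x ≠ o → T.dist o (π x) + 1 = T.dist o x) (x : V) :
    ∀ k, k ≤ T.dist o x → T.dist o (π^[k] x) + k = T.dist o x := by
  intro k
  induction k with
  | zero => intro _; rfl
  | succ k ih =>
    intro hk
    have h1 := ih (by omega)
    have h2 : π^[k] x ≠ o := by
      intro h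
      rw [h, SimpleGraph.dist_self] at h1
      omega
    have h3 := hπ _ h2
    rw [Function.iterate_succ_apply']
    omega

theorem om_iff (hπ : ∀ x, x ≠ o → T.dist o (π x) + 1 = T.dist o x) {x y : V} {i j : ℕ}
    (h1 : i ≤ T.dist o x) (h2 : j ≤ T.dist o y) (h3 : π^[i] x = π^[j] y)
    (h4 : ∀ a b, a ≤ T.dist o x → b ≤ T.dist o y → π^[a] x = π^[b] y →
      ∃ k, a = i + k ∧ b = j + k) (a b : ℕ) :
    om T o π x a = om T o π y b ↔ ∃ k, a = i + k ∧ b = j + k := by
  have e1 := dist_iter hπ x i h1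
  have e2 := dist_iter hπ y j h2
  rw [h3] at e1
  obtain ⟨m, hm⟩ : ∃ m, m = T.dist o (π^[j] y) := ⟨_, rfl⟩
  rw [← hm] at e1 e2
  unfold om
  constructor
  · intro h
    split_ifs at h with ha hb hb
    · exact h4 a b ha hb (Sum.inl.inj h)
    · have h5 := Sum.inr.inj h
      exact ⟨a - i, by omega, by omega⟩
  · rintro ⟨k, rfl, rfl⟩
    by_cases hk : k ≤ m
    · rw [if_pos (by omega), if_pos (by omega), add_comm i k, add_comm j k,
        Function.iterate_add_apply, Function.iterate_add_apply, h3]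
    · rw [if_neg (by omega), if_neg (by omega)]
      congr 1
      omega

end

/-! ### The function of the distance -/

/-- the kernel as a function of the distance -/
def KK (r : ℝ) (N d : ℕ) : ℝ :=
  ∑ k ∈ (Finset.range (N + 1)).filter (fun k => d + 2 * k ≤ N), (1 - r ^ 2) * r ^ (d + 2 * k)

theorem KK_zero (r : ℝ) {N d : ℕ} (h : N < d) : KK r N d = 0 := by
  unfold KK
  apply Finset.sum_eq_zero
  intro k hk
  have := (Finset.mem_filter.1 hk).2
  omega

theorem sum_geo (r : ℝ) (d M : ℕ) :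
    ∑ k ∈ Finset.range M, (1 - r ^ 2) * r ^ (d + 2 * k) = r ^ d - r ^ (d + 2 * M) := by
  induction M with
  | zero => simp
  | succ M ih =>
    rw [Finset.sum_range_succ, ih, show d + 2 * (M + 1) = d + 2 * M + 2 by ring, pow_add r _ 2]
    ring

theorem KK_near {r : ℝ} (h0 : 0 < r) (h1 : r < 1) {N d : ℕ} (h : d ≤ N) :
    |KK r N d - 1| ≤ (1 - r ^ d) + r ^ (N + 1) := by
  have e : (Finset.range (N + 1)).filter (fun k => d + 2 * k ≤ N) =
      Finset.range ((N - d) / 2 + 1) := by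
    ext k
    rw [Finset.mem_filter, Finset.mem_range, Finset.mem_range]
    omega
  unfold KK
  rw [e, sum_geo]
  have h2 : r ^ (d + 2 * ((N - d) / 2 + 1)) ≤ r ^ (N + 1) :=
    pow_le_pow_of_le_one h0.le h1.le (by omega)
  have h3 : 0 < r ^ (d + 2 * ((N - d) / 2 + 1)) := by positivity
  have h4 : r ^ d ≤ 1 := pow_le_one₀ h0.le h1.le
  rw [abs_le]
  constructor <;> linarith

open Classical in
theorem ker_eq {W : Type} (α β : ℕ → W) {i j : ℕ}
    (h : ∀ a b, α a = β b ↔ ∃ k, a = i + k ∧ b = j + k) (r : ℝ) (N : ℕ) :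
    ∑ p ∈ (Finset.range (N + 1) ×ˢ Finset.range (N + 1)).filter (fun p => p.1 + p.2 ≤ N),
      (if α p.1 = β p.2 then (1 - r ^ 2) * r ^ (p.1 + p.2) else 0) = KK r N (i + j) := by
  rw [← Finset.sum_filter]
  unfold KK
  symm
  refine Finset.sum_bij (fun k _ => (i + k, j + k)) ?_ ?_ ?_ ?_
  · intro k hk
    rw [Finset.mem_filter, Finset.mem_range] at hk
    rw [Finset.mem_filter, Finset.mem_filter, Finset.mem_product, Finset.mem_range,
      Finset.mem_range]
    refine ⟨⟨⟨?_, ?_⟩, ?_⟩, ?_⟩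
    · show i + k < N + 1
      omega
    · show j + k < N + 1
      omega
    · show i + k + (j + k) ≤ N
      omega
    · exact (h _ _).2 ⟨k, rfl, rfl⟩
  · intro k _ k' _ hkk
    have := congrArg Prod.fst hkk
    simpa using this
  · rintro ⟨a, b⟩ hp
    rw [Finset.mem_filter, Finset.mem_filter, Finset.mem_product, Finset.mem_range,
      Finset.mem_range] at hp
    obtain ⟨⟨⟨ha, hb⟩, hab⟩, he⟩ := hp
    obtain ⟨k, hk1, hk2⟩ := (h a b).1 he
    subst hk1
    subst hk2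
    have hab' : i + k + (j + k) ≤ N := hab
    have ha' : i + k < N + 1 := ha
    refine ⟨k, ?_, rfl⟩
    rw [Finset.mem_filter, Finset.mem_range]
    omega
  · intro k _
    show (1 - r ^ 2) * r ^ (i + j + 2 * k) = (1 - r ^ 2) * r ^ (i + k + (j + k))
    congr 2
    ring

open Classical in
/-- the truncated kernel -/
theorem SK.trunc {V W : Type} (ω : V → ℕ → W) (hω : ∀ x a b, ω x a = ω x b → a = b) {r : ℝ}
    (h0 : 0 < r) (h1 : r < 1) (N : ℕ) :
    SK (fun x y => ∑ p ∈ (Finset.range (N + 1) ×ˢ Finset.range (N + 1)).filter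
        (fun p => p.1 + p.2 ≤ N),
      (if ω x p.1 = ω y p.2 then (1 - r ^ 2) * r ^ (p.1 + p.2) else 0))
      (1 + ((N + 1 : ℕ) : ℝ) ^ 2 * r ^ (N + 1)) := by
  have hr2 : 0 < 1 - r ^ 2 := by nlinarith
  have hr2' : 1 - r ^ 2 ≤ 1 := by nlinarith [sq_nonneg r]
  -- the main part
  have s1 := SK.rays ω hω (N + 1) (fun a => Real.sqrt (1 - r ^ 2) * r ^ a)
  have hcc : ∀ a b : ℕ, (Real.sqrt (1 - r ^ 2) * r ^ a) * (Real.sqrt (1 - r ^ 2) * r ^ b) =
      (1 - r ^ 2) * r ^ (a + b) := by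
    intro a b
    have := Real.mul_self_sqrt hr2.le
    calc (Real.sqrt (1 - r ^ 2) * r ^ a) * (Real.sqrt (1 - r ^ 2) * r ^ b)
        = (Real.sqrt (1 - r ^ 2) * Real.sqrt (1 - r ^ 2)) * (r ^ a * r ^ b) := by ring
      _ = _ := by rw [this, ← pow_add]
  have hC1 : ∑ a ∈ Finset.range (N + 1),
      (Real.sqrt (1 - r ^ 2) * r ^ a) * (Real.sqrt (1 - r ^ 2) * r ^ a) ≤ 1 := by
    have h2 : ∀ a ∈ Finset.range (N + 1),
        (Real.sqrt (1 - r ^ 2) * r ^ a) * (Real.sqrt (1 - r ^ 2) * r ^ a) =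
          (1 - r ^ 2) * r ^ (0 + 2 * a) := by
      intro a _
      rw [hcc]
      congr 2
      ring
    rw [Finset.sum_congr rfl h2, sum_geo, pow_zero]
    have : 0 < r ^ (0 + 2 * (N + 1)) := by positivity
    linarith
  have s1' := s1.mono hC1
  -- the tail
  have s2 := SK.sum ((Finset.range (N + 1) ×ˢ Finset.range (N + 1)).filter
      (fun p => ¬ p.1 + p.2 ≤ N))
    (fun p x y => -(if ω x p.1 = ω y p.2 then (1 - r ^ 2) * r ^ (p.1 + p.2) else 0))
    (fun p => (1 - r ^ 2) * r ^ (p.1 + p.2)) (fun p _ =>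
      (SK.base (fun x => ω x p.1) (fun y => ω y p.2)
        (by positivity : 0 ≤ (1 - r ^ 2) * r ^ (p.1 + p.2))).neg)
  have hC2 : ∑ p ∈ (Finset.range (N + 1) ×ˢ Finset.range (N + 1)).filter
      (fun p => ¬ p.1 + p.2 ≤ N), (1 - r ^ 2) * r ^ (p.1 + p.2) ≤
      ((N + 1 : ℕ) : ℝ) ^ 2 * r ^ (N + 1) := by
    calc ∑ p ∈ (Finset.range (N + 1) ×ˢ Finset.range (N + 1)).filter
          (fun p => ¬ p.1 + p.2 ≤ N), (1 - r ^ 2) * r ^ (p.1 + p.2)
        ≤ ∑ _p ∈ (Finset.range (N + 1) ×ˢ Finset.range (N + 1)).filter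
          (fun p => ¬ p.1 + p.2 ≤ N), r ^ (N + 1) := by
          refine Finset.sum_le_sum fun p hp => ?_
          have h2 := (Finset.mem_filter.1 hp).2
          have h3 : r ^ (p.1 + p.2) ≤ r ^ (N + 1) :=
            pow_le_pow_of_le_one h0.le h1.le (by omega)
          have h4 : 0 < r ^ (p.1 + p.2) := by positivity
          nlinarith
      _ = (((Finset.range (N + 1) ×ˢ Finset.range (N + 1)).filter
          (fun p => ¬ p.1 + p.2 ≤ N)).card : ℝ) * r ^ (N + 1) := by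
          rw [Finset.sum_const, nsmul_eq_mul]
      _ ≤ ((N + 1 : ℕ) : ℝ) ^ 2 * r ^ (N + 1) := by
          refine mul_le_mul_of_nonneg_right ?_ (by positivity)
          have h2 := Finset.card_filter_le (Finset.range (N + 1) ×ˢ Finset.range (N + 1))
            (fun p => ¬ p.1 + p.2 ≤ N)
          rw [Finset.card_product, Finset.card_range] at h2
          have h3 : (((Finset.range (N + 1) ×ˢ Finset.range (N + 1)).filter
            (fun p => ¬ p.1 + p.2 ≤ N)).card : ℝ) ≤ (((N + 1) * (N + 1) : ℕ) : ℝ) := by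
            exact_mod_cast h2
          refine h3.trans (le_of_eq ?_)
          push_cast
          ring
  have s2' := s2.mono hC2
  refine (s1'.add s2').congr fun x y => ?_
  have h5 : ∑ p ∈ Finset.range (N + 1) ×ˢ Finset.range (N + 1),
      (if ω x p.1 = ω y p.2 then
        (Real.sqrt (1 - r ^ 2) * r ^ p.1) * (Real.sqrt (1 - r ^ 2) * r ^ p.2) else 0) =
      ∑ p ∈ Finset.range (N + 1) ×ˢ Finset.range (N + 1),
        (if ω x p.1 = ω y p.2 then (1 - r ^ 2) * r ^ (p.1 + p.2) else 0) := by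
    refine Finset.sum_congr rfl fun p _ => ?_
    rw [hcc]
  rw [h5, Finset.sum_neg_distrib, ← Finset.sum_filter_add_sum_filter_not
    (Finset.range (N + 1) ×ˢ Finset.range (N + 1)) (fun p => p.1 + p.2 ≤ N)]
  ring

theorem SK.dist {V : Type} {T : SimpleGraph V} {o : V} {π : V → V}
    (hπ : ∀ x, x ≠ o → T.dist o (π x) + 1 = T.dist o x)
    (hpar : ∀ x y, ∃ i j, i + j = T.dist x y ∧ i ≤ T.dist o x ∧ j ≤ T.dist o y ∧
      π^[i] x = π^[j] y ∧ ∀ a b, a ≤ T.dist o x → b ≤ T.dist o y → π^[a] x = π^[b] y →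
        ∃ k, a = i + k ∧ b = j + k) {r : ℝ} (h0 : 0 < r) (h1 : r < 1) (N : ℕ) :
    SK (fun x y => KK r N (T.dist x y)) (1 + ((N + 1 : ℕ) : ℝ) ^ 2 * r ^ (N + 1)) := by
  have hinj : ∀ x a b, om T o π x a = om T o π x b → a = b := by
    intro x a b hab
    obtain ⟨i, j, hij, hi, hj, he, hu⟩ := hpar x x
    rw [SimpleGraph.dist_self] at hij
    obtain ⟨k, hk1, hk2⟩ := (om_iff hπ hi hj he hu a b).1 hab
    omega
  refine (SK.trunc (om T o π) hinj h0 h1 N).congr fun x y => ?_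
  obtain ⟨i, j, hij, hi, hj, he, hu⟩ := hpar x y
  rw [← hij]
  exact ker_eq _ _ (om_iff hπ hi hj he hu) r N

theorem choose_r (D : ℕ) {δ : ℝ} (hδ : 0 < δ) : ∃ r : ℝ, 0 < r ∧ r < 1 ∧ 1 - r ^ D < δ := by
  have h1 : Tendsto (fun r : ℝ => r ^ D) (𝓝[<] 1) (𝓝 1) := by
    have h := (continuous_pow D).tendsto (1 : ℝ)
    rw [one_pow] at h
    exact h.mono_left nhdsWithin_le_nhds
  have h2 : ∀ᶠ r in 𝓝[<] (1 : ℝ), 1 - δ < r ^ D := h1.eventually (lt_mem_nhds (by linarith))
  have h3 : ∀ᶠ r in 𝓝[<] (1 : ℝ), 0 < r := nhdsWithin_le_nhds (lt_mem_nhds one_pos)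
  have h4 : ∀ᶠ r in 𝓝[<] (1 : ℝ), r < 1 := self_mem_nhdsWithin
  obtain ⟨r, hr1, hr2, hr3⟩ := (h2.and (h3.and h4)).exists
  exact ⟨r, hr2, hr3, by linarith⟩

end XCMAux

open XCMAux in
/-- XCM: groups acting properly on trees have CMAP. -/
theorem t_xcm (h : S_PRP) (h1 : S_PAR) : S_XCM := by
  classical
  intro G V _ _ T hT
  obtain ⟨hdist, -, hfin, -⟩ := h G V T hT
  obtain ⟨o⟩ := hT.tree.1.nonempty
  obtain ⟨π, hπo, hπ, hpar⟩ := h1 V T o hT.tree
  have hπ' : ∀ x, x ≠ o → T.dist o (π x) + 1 = T.dist o x := fun x hx => (hπ x hx).2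
  constructor
  intro E ε hε
  obtain ⟨D, hD⟩ : ∃ D, ∀ g ∈ E, T.dist o (g • o) ≤ D :=
    ⟨E.sup (fun g => T.dist o (g • o)), fun g hg =>
      Finset.le_sup (f := fun g => T.dist o (g • o)) hg⟩
  obtain ⟨r, hr0, hr1, hr⟩ := choose_r D (half_pos hε)
  obtain ⟨N, hDN, hN⟩ : ∃ N : ℕ, D ≤ N ∧ ((N + 1 : ℕ) : ℝ) ^ 2 * r ^ (N + 1) < ε / 2 := by
    have h2 := tendsto_pow_const_mul_const_pow_of_abs_lt_one 2
      (by rw [abs_of_pos hr0]; exact hr1 : |r| < 1)
    obtain ⟨n, hn1, hn2⟩ := ((h2.eventually (gt_mem_nhds (half_pos hε))).and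
      (eventually_ge_atTop (D + 1))).exists
    obtain ⟨N, rfl⟩ : ∃ N, n = N + 1 := ⟨n - 1, by omega⟩
    exact ⟨N, by omega, hn1⟩
  refine ⟨fun g => KK r N (T.dist o (g • o)), ?_, ?_, ?_⟩
  · refine (hfin o o N).subset ?_
    intro g hg
    have hg' : KK r N (T.dist o (g • o)) ≠ 0 := hg
    show T.dist o (g • o) ≤ N
    by_contra hcon
    exact hg' (KK_zero r (not_le.1 hcon))
  · intro g hg
    have h2 := hD g hg
    have h3 := KK_near hr0 hr1 (h2.trans hDN)
    have h4 : r ^ D ≤ r ^ (T.dist o (g • o)) := pow_le_pow_of_le_one hr0.le hr1.le h2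
    have h5 : r ^ (N + 1) ≤ ((N + 1 : ℕ) : ℝ) ^ 2 * r ^ (N + 1) := by
      have h6 : (1 : ℝ) ≤ ((N + 1 : ℕ) : ℝ) := by exact_mod_cast Nat.succ_le_succ (Nat.zero_le N)
      have h7 : 0 < r ^ (N + 1) := by positivity
      exact le_mul_of_one_le_left h7.le (one_le_pow₀ h6)
    show |KK r N (T.dist o (g • o)) - 1| < ε
    linarith
  · constructor
    have h2 := (SK.dist hπ' hpar hr0 hr1 N).mono
      (by linarith : 1 + ((N + 1 : ℕ) : ℝ) ^ 2 * r ^ (N + 1) ≤ 1 + ε)
    obtain ⟨H, i1, i2, i3, ξ, η, h3, h4⟩ := h2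
    refine ⟨H, i1, i2, i3, fun g => ξ (g • o), fun g => η (g • o), ?_, fun x => h4 _⟩
    intro x y
    rw [h3]
    show KK r N (T.dist (x • o) (y • o)) = KK r N (T.dist o ((y⁻¹ * x) • o))
    have h5 := hdist y o ((y⁻¹ * x) • o)
    rw [smul_smul, mul_inv_cancel_left, SimpleGraph.dist_comm] at h5
    rw [h5]

end

end Pool.Agent.N571.SS
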