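import Pool.Agent.N571.SS.Stm

/-!
# Project SS, XEX: groups acting properly on trees are exact (helper137)
-/

set_option autoImplicit false

namespace Pool.Agent.N571.SS

namespace XEX

open scoped Classical

noncomputable section

section l1

variable {G : Type}

theorem l1_eq (p : G →₀ ℝ) (S : Finset G) (h : p.support ⊆ S) : l1 p = ∑ g ∈ S, |p g| :=
  Finsupp.sum_of_support_subset p h _ (fun _ _ => abs_zero)

theorem l1_add (p q : G →₀ ℝ) : l1 (p + q) ≤ l1 p + l1 q := by
  rw [l1_eq (p + q) (p.support ∪ q.support) Finsupp.support_add,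
    l1_eq p (p.support ∪ q.support) Finset.subset_union_left,
    l1_eq q (p.support ∪ q.support) Finset.subset_union_right, ← Finset.sum_add_distrib]
  exact Finset.sum_le_sum fun g _ => abs_add_le _ _

theorem l1_neg (p : G →₀ ℝ) : l1 (-p) = l1 p := by
  rw [l1_eq (-p) p.support (by rw [Finsupp.support_neg]), l1_eq p p.support subset_rfl]
  simp

theorem l1_sub (p q : G →₀ ℝ) : l1 (p - q) ≤ l1 p + l1 q := by
  rw [sub_eq_add_neg]
  exact (l1_add _ _).trans (by rw [l1_neg])

theorem l1_smul (c : ℝ) (p : G →₀ ℝ) : l1 (c • p) = |c| * l1 p := by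
  rw [l1_eq (c • p) p.support Finsupp.support_smul, l1_eq p p.support subset_rfl, Finset.mul_sum]
  exact Finset.sum_congr rfl fun g _ => by rw [Finsupp.smul_apply, smul_eq_mul, abs_mul]

theorem l1_sum {ι : Type} (s : Finset ι) (f : ι → G →₀ ℝ) :
    l1 (∑ i ∈ s, f i) ≤ ∑ i ∈ s, l1 (f i) := by
  induction s using Finset.induction_on with
  | empty => simp [l1]
  | insert a s ha ih =>
    rw [Finset.sum_insert ha, Finset.sum_insert ha]
    exact (l1_add _ _).trans (by linarith)

theorem l1_pr {p : G →₀ ℝ} (hp : Pr p) : l1 p = 1 := by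
  rw [← hp.one]
  unfold l1
  exact Finset.sum_congr rfl fun g _ => abs_of_nonneg (hp.nonneg g)

/-- the average -/
def avg {ι : Type} (s : Finset ι) (p : ι → G →₀ ℝ) : G →₀ ℝ := ((s.card : ℝ)⁻¹) • ∑ i ∈ s, p i

theorem tot_sum {ι : Type} (s : Finset ι) (p : ι → G →₀ ℝ) :
    ((∑ i ∈ s, p i).sum fun _ a => a) = ∑ i ∈ s, (p i).sum fun _ a => a := by
  induction s using Finset.induction_on with
  | empty => simp
  | insert a s ha ih =>
    rw [Finset.sum_insert ha, Finset.sum_insert ha, ← ih]
    exact Finsupp.sum_add_index' (fun _ => rfl) (fun _ _ _ => rfl)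

theorem pr_avg {ι : Type} {s : Finset ι} (hs : s.Nonempty) {p : ι → G →₀ ℝ}
    (hp : ∀ i ∈ s, Pr (p i)) : Pr (avg s p) := by
  have hc : (0 : ℝ) < s.card := by exact_mod_cast hs.card_pos
  constructor
  · intro g
    unfold avg
    rw [Finsupp.smul_apply, Finsupp.finsetSum_apply, smul_eq_mul]
    exact mul_nonneg (inv_nonneg.2 hc.le) (Finset.sum_nonneg fun i hi => (hp i hi).nonneg g)
  · unfold avg
    rw [Finsupp.sum_smul_index (fun _ => rfl)]
    have h1 := tot_sum s p
    rw [Finset.sum_congr rfl fun i hi => (hp i hi).one, Finset.sum_const, nsmul_eq_mul,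
      mul_one] at h1
    have h2 : ((∑ i ∈ s, p i).sum fun _ a => (s.card : ℝ)⁻¹ * a) =
        (s.card : ℝ)⁻¹ * (∑ i ∈ s, p i).sum fun _ a => a := by
      unfold Finsupp.sum
      rw [Finset.mul_sum]
    rw [h2, h1, inv_mul_cancel₀ hc.ne']

theorem supp_avg {ι : Type} {s : Finset ι} {p : ι → G →₀ ℝ} {F : Finset G}
    (hp : ∀ i ∈ s, (p i).support ⊆ F) : (avg s p).support ⊆ F := by
  intro g hg
  by_contra hF
  rw [Finsupp.mem_support_iff] at hg
  apply hg
  unfold avg
  rw [Finsupp.smul_apply, Finsupp.finsetSum_apply, Finset.sum_eq_zero, smul_zero]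
  intro i hi
  by_contra hne
  exact hF (hp i hi (Finsupp.mem_support_iff.2 hne))

theorem tr_avg [Group G] {ι : Type} (s : Finset ι) (p : ι → G →₀ ℝ) (g : G) :
    tr g (avg s p) = avg s fun i => tr g (p i) := by
  unfold avg tr
  rw [Finsupp.mapDomain_smul, Finsupp.mapDomain_finsetSum]

theorem pr_single (g : G) : Pr (Finsupp.single g (1 : ℝ)) := by
  constructor
  · intro h
    rw [Finsupp.single_apply]
    split_ifs <;> norm_num
  · rw [Finsupp.sum_single_index rfl]

/-- the main estimate -/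
theorem est {N i j : ℕ} (hN : 0 < N) {a b : ℕ → G →₀ ℝ} (ha : ∀ k, l1 (a k) ≤ 1)
    (hb : ∀ k, l1 (b k) ≤ 1) (hab : ∀ k, a (i + k) = b (j + k)) :
    l1 (avg (Finset.range N) a - avg (Finset.range N) b) ≤ 2 * (i + j) / N := by
  have h1 : ∑ k ∈ Finset.range N, a k = ∑ k ∈ Finset.range i, a k +
      ∑ k ∈ Finset.range N, a (i + k) - ∑ k ∈ Finset.range i, a (N + k) := by
    rw [← Finset.sum_range_add, add_comm i N, Finset.sum_range_add, add_sub_cancel_right]
  have h2 : ∑ k ∈ Finset.range N, b k = ∑ k ∈ Finset.range j, b k +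
      ∑ k ∈ Finset.range N, b (j + k) - ∑ k ∈ Finset.range j, b (N + k) := by
    rw [← Finset.sum_range_add, add_comm j N, Finset.sum_range_add, add_sub_cancel_right]
  have h3 : avg (Finset.range N) a - avg (Finset.range N) b =
      (N : ℝ)⁻¹ • ((∑ k ∈ Finset.range i, a k - ∑ k ∈ Finset.range i, a (N + k)) -
        (∑ k ∈ Finset.range j, b k - ∑ k ∈ Finset.range j, b (N + k))) := by
    unfold avg
    rw [← smul_sub, Finset.card_range, h1, h2]
    congr 1
    simp only [hab]
    abel
  have hN' : (0 : ℝ) < N := by exact_mod_cast hN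
  have bd : ∀ (c : ℕ → G →₀ ℝ) (n : ℕ), (∀ k, l1 (c k) ≤ 1) →
      l1 (∑ k ∈ Finset.range n, c k) ≤ n := by
    intro c n hc
    refine (l1_sum _ _).trans ((Finset.sum_le_sum fun k _ => hc k).trans ?_)
    simp
  rw [h3, l1_smul, abs_of_nonneg (inv_nonneg.2 hN'.le), inv_mul_eq_div]
  gcongr
  have e1 := bd a i ha
  have e2 := bd (fun k => a (N + k)) i fun k => ha _
  have e3 := bd b j hb
  have e4 := bd (fun k => b (N + k)) j fun k => hb _
  have f1 := l1_sub (∑ k ∈ Finset.range i, a k) (∑ k ∈ Finset.range i, a (N + k))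
  have f2 := l1_sub (∑ k ∈ Finset.range j, b k) (∑ k ∈ Finset.range j, b (N + k))
  refine (l1_sub _ _).trans ?_
  linarith

end l1

section equi

variable {G V : Type} [Group G] [MulAction G V]

/-- a representative of the orbit -/
def rep (v : V) : V := Quotient.out (Quotient.mk (MulAction.orbitRel G V) v)

theorem rep_smul (g : G) (v : V) : rep (G := G) (g • v) = rep (G := G) v := by
  unfold rep
  congr 1
  exact Quotient.sound ⟨g, rfl⟩

theorem exists_rep (v : V) : ∃ g : G, g • rep (G := G) v = v := by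
  have h : (MulAction.orbitRel G V).r (rep (G := G) v) v := Quotient.mk_out (s := MulAction.orbitRel G V) v
  have h' := (MulAction.orbitRel G V).symm h
  obtain ⟨g, hg⟩ := h'
  exact ⟨g, hg⟩

theorem fin_sigma (hst : ∀ x : V, {g : G | g • x = x}.Finite) (v : V) :
    {g : G | g • rep (G := G) v = v}.Finite := by
  obtain ⟨g0, h0⟩ := exists_rep (G := G) v
  refine ((hst (rep (G := G) v)).image fun g => g0 * g).subset ?_
  intro g hg
  refine ⟨g0⁻¹ * g, ?_, by simp⟩
  change (g0⁻¹ * g) • _ = _
  rw [mul_smul, show g • rep (G := G) v = v from hg, inv_smul_eq_iff, h0]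

/-- the set of the elements which map the representative to `v` -/
def sg (hst : ∀ x : V, {g : G | g • x = x}.Finite) (v : V) : Finset G :=
  (fin_sigma hst v).toFinset

theorem mem_sg (hst : ∀ x : V, {g : G | g • x = x}.Finite) (v : V) (g : G) :
    g ∈ sg hst v ↔ g • rep (G := G) v = v := by
  unfold sg
  rw [Set.Finite.mem_toFinset]
  rfl

/-- the uniform measure -/
def um (hst : ∀ x : V, {g : G | g • x = x}.Finite) (v : V) : G →₀ ℝ :=
  avg (sg hst v) fun g => Finsupp.single g (1 : ℝ)

theorem pr_um (hst : ∀ x : V, {g : G | g • x = x}.Finite) (v : V) : Pr (um hst v) := by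
  apply pr_avg
  · obtain ⟨g, hg⟩ := exists_rep (G := G) v
    exact ⟨g, (mem_sg hst v g).2 hg⟩
  · intro g _
    exact pr_single g

theorem supp_um (hst : ∀ x : V, {g : G | g • x = x}.Finite) (v : V) :
    (um hst v).support ⊆ sg hst v := by
  apply supp_avg
  intro g hg
  exact Finsupp.support_single_subset.trans (Finset.singleton_subset_iff.2 hg)

theorem tr_um (hst : ∀ x : V, {g : G | g • x = x}.Finite) (v : V) (g : G) :
    tr g (um hst v) = um hst (g • v) := by
  have h1 : sg hst (g • v) = (sg hst v).map (mulLeftEmbedding g) := by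
    ext h
    rw [mem_sg, rep_smul, Finset.mem_map]
    constructor
    · intro hh
      refine ⟨g⁻¹ * h, ?_, by simp⟩
      rw [mem_sg, mul_smul, hh, inv_smul_smul]
    · rintro ⟨k, hk, rfl⟩
      rw [mem_sg] at hk
      rw [mulLeftEmbedding_apply, mul_smul, hk]
  unfold um
  rw [tr_avg]
  unfold avg
  rw [h1, Finset.card_map, Finset.sum_map]
  congr 1
  refine Finset.sum_congr rfl fun k _ => ?_
  exact Finsupp.mapDomain_single

end equi

end

end XEX

open XEX in
open scoped Classical in
theorem t_xex (h : S_PRP) (h1 : S_PAR) : S_XEX := by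
  intro G V _ _ T hT
  obtain ⟨hd, hball, -, -⟩ := h G V T hT
  have hconn : T.Connected := hT.tree.1
  have o : V := hconn.nonempty.some
  obtain ⟨π, hπo, hπ, hπ2⟩ := h1 V T o hT.tree
  have hst := hT.stab
  have hstep : ∀ w : V, T.dist w (π w) ≤ 1 := by
    intro w
    by_cases hw : w = o
    · rw [hw, hπo, SimpleGraph.dist_self]
      exact Nat.zero_le _
    · exact (SimpleGraph.dist_eq_one_iff_adj.2 (hπ w hw).1).le
  have hiter : ∀ (k : ℕ) (w : V), T.dist w (π^[k] w) ≤ k := by
    intro k
    induction k with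
    | zero =>
      intro w
      simp
    | succ k ih =>
      intro w
      rw [Function.iterate_succ_apply']
      exact (hconn.dist_triangle (v := π^[k] w)).trans (Nat.add_le_add (ih w) (hstep _))
  constructor
  intro E ε hε
  obtain ⟨N, hN⟩ := exists_nat_gt (2 * ((E.sup fun s => T.dist (s⁻¹ • o) o : ℕ) : ℝ) / ε)
  have hN0 : (0 : ℝ) < N := lt_of_le_of_lt (by positivity) hN
  have hN1 : 0 < N := by exact_mod_cast hN0
  refine ⟨(hball o N).toFinset.biUnion fun v => sg hst v,
    fun x => avg (Finset.range N) fun k => um hst (x • π^[k] (x⁻¹ • o)), ?_, ?_⟩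
  · intro x
    refine ⟨pr_avg (Finset.nonempty_range_iff.2 hN1.ne') fun k _ => pr_um hst _, ?_⟩
    apply supp_avg
    intro k hk
    rw [Finset.mem_range] at hk
    refine (supp_um hst _).trans ?_
    intro g hg
    rw [Finset.mem_biUnion]
    refine ⟨_, ?_, hg⟩
    rw [Set.Finite.mem_toFinset]
    change T.dist o (x • π^[k] (x⁻¹ • o)) ≤ N
    have h2 := hd x (x⁻¹ • o) (π^[k] (x⁻¹ • o))
    rw [smul_inv_smul] at h2
    rw [h2]
    exact (hiter k _).trans hk.le
  · intro s hs x
    have e1 : tr s (avg (Finset.range N) fun k => um hst (x • π^[k] (x⁻¹ • o))) =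
        avg (Finset.range N) fun k => um hst ((s * x) • π^[k] (x⁻¹ • o)) := by
      rw [tr_avg]
      congr 1
      funext k
      rw [tr_um, mul_smul]
    rw [e1]
    obtain ⟨i, j, hij, -, -, hc, -⟩ := hπ2 ((s * x)⁻¹ • o) (x⁻¹ • o)
    have h3 : i + j = T.dist (s⁻¹ • o) o := by
      rw [hij, mul_inv_rev, mul_smul, hd]
    have h4 := est (G := G) (i := i) (j := j) hN1
      (a := fun k => um hst ((s * x) • π^[k] ((s * x)⁻¹ • o)))
      (b := fun k => um hst ((s * x) • π^[k] (x⁻¹ • o)))
      (fun k => (l1_pr (pr_um hst _)).le) (fun k => (l1_pr (pr_um hst _)).le) (by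
        intro k
        rw [add_comm i k, add_comm j k, Function.iterate_add_apply, Function.iterate_add_apply, hc])
    refine lt_of_le_of_lt h4 ?_
    have h5 : ((i : ℝ) + j) ≤ ((E.sup fun s => T.dist (s⁻¹ • o) o : ℕ) : ℝ) := by
      have : i + j ≤ E.sup fun s => T.dist (s⁻¹ • o) o := by
        rw [h3]
        exact Finset.le_sup (f := fun s => T.dist (s⁻¹ • o) o) hs
      exact_mod_cast this
    rw [div_lt_iff₀ hε] at hN
    rw [div_lt_iff₀ hN0]
    linarith

end Pool.Agent.N571.SS
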