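import Pool.Agent.N571.SS.Asm
import Pool.Agent.N571.SS.BASE
import Pool.Agent.N571.SS.CAR
import Pool.Agent.N571.SS.CHN
import Pool.Agent.N571.SS.CIC
import Pool.Agent.N571.SS.COM
import Pool.Agent.N571.SS.EXG
import Pool.Agent.N571.SS.GLB
import Pool.Agent.N571.SS.LF
import Pool.Agent.N571.SS.LIFT
import Pool.Agent.N571.SS.LIM
import Pool.Agent.N571.SS.MALG
import Pool.Agent.N571.SS.NAM
import Pool.Agent.N571.SS.PAR
import Pool.Agent.N571.SS.PRP
import Pool.Agent.N571.SS.SEG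
import Pool.Agent.N571.SS.STEP
import Pool.Agent.N571.SS.STX
import Pool.Agent.N571.SS.UC
import Pool.Agent.N571.SS.UN1
import Pool.Agent.N571.SS.UN2
import Pool.Agent.N571.SS.XBE
import Pool.Agent.N571.SS.XCM
import Pool.Agent.N571.SS.XEX
import Pool.Agent.N571.EX.TR
import Pool.Agent.N571.EX.FAC
import Pool.Agent.N571.EX.RC
import Pool.Agent.N571.EX.PF

/-!
# Project SS: final assembly
-/

set_option autoImplicit false

namespace Pool.Agent.N571.SS

theorem final : Final := by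
  have hTR : Pool.Agent.N571.EX.S_TR := Pool.Agent.N571.EX.t_tr
  have hDEN : Pool.Agent.N571.EX.S_DEN := Pool.Agent.N571.EX.t_den hTR
  have hPF : Pool.Agent.N571.EX.W.S_PF := Pool.Agent.N571.EX.W.t_pf hTR hDEN
  have hEXI : Pool.Agent.N571.EX.W.S_EXI :=
    Pool.Agent.N571.EX.W.t_exi hTR Pool.Agent.N571.EX.t_res Pool.Agent.N571.EX.t_cay hPF
      (Pool.Agent.N571.EX.W.t_rl1 hTR hPF)
      (Pool.Agent.N571.EX.W.t_rl2 hTR Pool.Agent.N571.EX.t_res hPF)
  have hPRP : S_PRP := t_prp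
  have hPAR : S_PAR := t_par
  have hSEG : S_SEG := t_seg hPAR
  have hLF : S_LF := t_lf hPAR
  have hLIFT : S_LIFT := t_lift t_uc hLF
  have hSTX : S_STX := t_stx hPRP
  have hMALG : S_MALG := t_malg hPRP hPAR hSEG
  have hSTEP : S_STEP := t_step hPRP hLF hLIFT hSTX hMALG
  have hCOM : S_COM := t_com hTR
  exact final_of hTR (Pool.Agent.N571.EX.t_fac hTR) hEXI hPRP (t_xcm hPRP hPAR)
    (t_xex hPRP hPAR) (t_xbe hPRP hSEG) t_glb (t_chn hSTEP t_base t_lim) t_un1 t_un2 t_cic t_exg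
    hCOM (t_car hTR hCOM) t_nam

end Pool.Agent.N571.SS
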