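import Pool.Agent.N571.SS.Stm

/-!
# Geodesic segments in trees (part SEG of project SS of helper571; this part by helper400)
-/

set_option autoImplicit false

namespace Pool.Agent.N571.SS

namespace SegAux

variable {V : Type} {T : SimpleGraph V}

/-- the levels along the iterates of the parent map -/
theorem level {b : V} {π : V → V}
    (hπ : ∀ x, x ≠ b → T.Adj x (π x) ∧ T.dist b (π x) + 1 = T.dist b x) (x : V) :
    ∀ k, k ≤ T.dist b x → T.dist b (π^[k] x) + k = T.dist b x := by
  intro k
  induction k with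
  | zero => intro _; rfl
  | succ k ih =>
    intro hk
    have h1 := ih (by omega)
    have h2 : π^[k] x ≠ b := by
      intro h
      rw [h, SimpleGraph.dist_self] at h1
      omega
    have h3 := (hπ _ h2).2
    rw [Function.iterate_succ_apply']
    omega

theorem dist_iter (hT : T.Connected) {b : V} {π : V → V}
    (hπ : ∀ x, x ≠ b → T.Adj x (π x) ∧ T.dist b (π x) + 1 = T.dist b x) (x : V) :
    ∀ k, k ≤ T.dist b x → T.dist x (π^[k] x) ≤ k := by
  intro k
  induction k with
  | zero => intro _; simp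
  | succ k ih =>
    intro hk
    have h1 := ih (by omega)
    have h0 := level hπ x k (by omega)
    have h2 : π^[k] x ≠ b := by
      intro h
      rw [h, SimpleGraph.dist_self] at h0
      omega
    have h3 : T.dist (π^[k] x) (π (π^[k] x)) = 1 := SimpleGraph.dist_eq_one_iff_adj.2 (hπ _ h2).1
    rw [Function.iterate_succ_apply']
    have h4 := hT.dist_triangle (u := x) (v := π^[k] x) (w := π (π^[k] x))
    omega

/-- the points of the segment are the iterates of the parent map -/
theorem mem_iff (hT : T.Connected) {b : V} {π : V → V}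
    (hπ : ∀ x, x ≠ b → T.Adj x (π x) ∧ T.dist b (π x) + 1 = T.dist b x)
    (hp : ∀ x y, ∃ i j, i + j = T.dist x y ∧ i ≤ T.dist b x ∧ j ≤ T.dist b y ∧ π^[i] x = π^[j] y)
    (a v : V) :
    T.dist a v + T.dist v b = T.dist a b ↔ ∃ k, k ≤ T.dist b a ∧ π^[k] a = v := by
  constructor
  · intro h
    obtain ⟨i, j, h1, h2, h3, h4⟩ := hp a v
    have l1 := level hπ a i h2
    have l2 := level hπ v j h3
    rw [h4] at l1
    rw [SimpleGraph.dist_comm (u := v) (v := b), SimpleGraph.dist_comm (u := a) (v := b)] at h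
    have hj : j = 0 := by omega
    subst hj
    exact ⟨i, h2, h4⟩
  · rintro ⟨k, hk, rfl⟩
    have h1 := dist_iter hT hπ a k hk
    have h2 := level hπ a k hk
    have h3 := hT.dist_triangle (u := a) (v := π^[k] a) (w := b)
    rw [SimpleGraph.dist_comm (u := π^[k] a) (v := b), SimpleGraph.dist_comm (u := a) (v := b)]
      at h3 ⊢
    omega

theorem seg_eq (hT : T.Connected) {b : V} {π : V → V}
    (hπ : ∀ x, x ≠ b → T.Adj x (π x) ∧ T.dist b (π x) + 1 = T.dist b x)
    (hp : ∀ x y, ∃ i j, i + j = T.dist x y ∧ i ≤ T.dist b x ∧ j ≤ T.dist b y ∧ π^[i] x = π^[j] y)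
    (a : V) :
    {v | T.dist a v + T.dist v b = T.dist a b} =
      (fun k => π^[k] a) '' (Set.Iio (T.dist b a + 1)) := by
  ext v
  rw [Set.mem_ofPred_eq, mem_iff hT hπ hp a v]
  simp only [Set.mem_image, Set.mem_Iio, Nat.lt_succ_iff]

end SegAux

theorem t_seg (h : S_PAR) : S_SEG := by
  intro V T hT
  have hc : T.Connected := hT.connected
  refine ⟨fun a b => {v | T.dist a v + T.dist v b = T.dist a b}, fun a b v => Iff.rfl, ?_, ?_, ?_⟩
  · intro a b
    obtain ⟨π, -, h1, h2⟩ := h V T b hT
    have hp : ∀ x y, ∃ i j, i + j = T.dist x y ∧ i ≤ T.dist b x ∧ j ≤ T.dist b y ∧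
        π^[i] x = π^[j] y := fun x y => by
      obtain ⟨i, j, e1, e2, e3, e4, -⟩ := h2 x y
      exact ⟨i, j, e1, e2, e3, e4⟩
    change ({v | T.dist a v + T.dist v b = T.dist a b} : Set V).ncard = _
    rw [SegAux.seg_eq hc h1 hp a, Set.ncard_image_of_injOn, Set.ncard_Iio_nat,
      SimpleGraph.dist_comm]
    intro k hk l hl hkl
    have e1 := SegAux.level h1 a k (Nat.lt_succ_iff.1 hk)
    have e2 := SegAux.level h1 a l (Nat.lt_succ_iff.1 hl)
    simp only at hkl
    rw [hkl] at e1
    omega
  · intro a b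
    obtain ⟨π, -, h1, h2⟩ := h V T b hT
    have hp : ∀ x y, ∃ i j, i + j = T.dist x y ∧ i ≤ T.dist b x ∧ j ≤ T.dist b y ∧
        π^[i] x = π^[j] y := fun x y => by
      obtain ⟨i, j, e1, e2, e3, e4, -⟩ := h2 x y
      exact ⟨i, j, e1, e2, e3, e4⟩
    change ({v | T.dist a v + T.dist v b = T.dist a b} : Set V).Finite
    rw [SegAux.seg_eq hc h1 hp a]
    exact (Set.finite_Iio _).image _
  · intro a a' b
    obtain ⟨π, -, h1, h2⟩ := h V T b hT
    have hp : ∀ x y, ∃ i j, i + j = T.dist x y ∧ i ≤ T.dist b x ∧ j ≤ T.dist b y ∧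
        π^[i] x = π^[j] y := fun x y => by
      obtain ⟨i, j, e1, e2, e3, e4, -⟩ := h2 x y
      exact ⟨i, j, e1, e2, e3, e4⟩
    obtain ⟨i, j, e1, e2, e3, e4⟩ := hp a a'
    have hsub : {v | T.dist a v + T.dist v b = T.dist a b} \
        {v | T.dist a' v + T.dist v b = T.dist a' b} ⊆ (fun k => π^[k] a) '' (Set.Iio i) := by
      rintro v ⟨hv1, hv2⟩
      rw [Set.mem_ofPred_eq, SegAux.mem_iff hc h1 hp a v] at hv1
      obtain ⟨k, hk, rfl⟩ := hv1
      refine ⟨k, ?_, rfl⟩
      rw [Set.mem_Iio]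
      by_contra hki
      push Not at hki
      apply hv2
      rw [Set.mem_ofPred_eq, SegAux.mem_iff hc h1 hp a']
      have l1 := SegAux.level h1 a i e2
      have l2 := SegAux.level h1 a' j e3
      rw [e4] at l1
      refine ⟨k - i + j, by omega, ?_⟩
      rw [Function.iterate_add_apply, ← e4, ← Function.iterate_add_apply]
      congr 2
      omega
    calc ({v | T.dist a v + T.dist v b = T.dist a b} \
          {v | T.dist a' v + T.dist v b = T.dist a' b}).ncard
        ≤ ((fun k => π^[k] a) '' (Set.Iio i)).ncard :=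
          Set.ncard_le_ncard hsub ((Set.finite_Iio _).image _)
      _ ≤ (Set.Iio i).ncard := Set.ncard_image_le (Set.finite_Iio _)
      _ = i := Set.ncard_Iio_nat i
      _ ≤ T.dist a a' := by omega

end Pool.Agent.N571.SS
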