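import Mathlib

/-!
# Project SS: the lamplighter group `Z/2 wr G`
-/

set_option autoImplicit false

namespace Pool.Agent.N571.SS

open scoped symmDiff

/-- The lamplighter group `Z/2 wr G`: `lamp` is the finite set of lit lamps, `pos` the position. The
product is `(S, g) (T, h) = (S ∆ g T, g h)`. -/
@[ext] structure WR (G : Type) where
  lamp : Finset G
  pos : G

namespace WR

open Classical in
noncomputable instance {G : Type} [Group G] : Mul (WR G) :=
  ⟨fun a b => ⟨a.lamp ∆ (b.lamp.map (mulLeftEmbedding a.pos)), a.pos * b.pos⟩⟩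

instance {G : Type} [Group G] : One (WR G) := ⟨⟨∅, 1⟩⟩

instance {G : Type} [Group G] : Inv (WR G) :=
  ⟨fun a => ⟨a.lamp.map (mulLeftEmbedding a.pos⁻¹), a.pos⁻¹⟩⟩

variable {G : Type} [Group G]

@[simp] theorem mul_pos (a b : WR G) : (a * b).pos = a.pos * b.pos := rfl

@[simp] theorem one_pos : (1 : WR G).pos = 1 := rfl

@[simp] theorem one_lamp : (1 : WR G).lamp = ∅ := rfl

@[simp] theorem inv_pos (a : WR G) : (a⁻¹).pos = a.pos⁻¹ := rfl

theorem mem_mul (a b : WR G) (g : G) :
    g ∈ (a * b).lamp ↔ ¬ (g ∈ a.lamp ↔ a.pos⁻¹ * g ∈ b.lamp) := by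
  classical
  have h : g ∈ b.lamp.map (mulLeftEmbedding a.pos) ↔ a.pos⁻¹ * g ∈ b.lamp := by
    rw [Finset.mem_map]
    constructor
    · rintro ⟨x, hx, rfl⟩
      simpa using hx
    · intro hx
      exact ⟨_, hx, by simp⟩
  change g ∈ a.lamp ∆ (b.lamp.map (mulLeftEmbedding a.pos)) ↔ _
  rw [Finset.mem_symmDiff, h]
  tauto

theorem mem_inv (a : WR G) (g : G) : g ∈ (a⁻¹).lamp ↔ a.pos * g ∈ a.lamp := by
  change g ∈ a.lamp.map (mulLeftEmbedding a.pos⁻¹) ↔ _
  rw [Finset.mem_map]
  constructor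
  · rintro ⟨x, hx, rfl⟩
    simpa using hx
  · intro hx
    exact ⟨_, hx, by simp⟩

noncomputable instance : Group (WR G) where
  mul_assoc a b c := by
    ext g
    · simp only [mem_mul, mul_pos, mul_inv_rev, mul_assoc]
      tauto
    · simp [mul_assoc]
  one_mul a := by
    ext g
    · simp [mem_mul]
    · simp
  mul_one a := by
    ext g
    · simp [mem_mul]
    · simp
  inv_mul_cancel a := by
    ext g
    · simp [mem_mul, mem_inv]
    · simp

end WR

end Pool.Agent.N571.SS
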