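import Pool.Agent.N571.EX.PTM
import Pool.Agent.N571.EX.TR
import Pool.Agent.N571.EX.RC
import Pool.Agent.N571.EX.PF

/-!
# Project SS: existential inclusions `L(K) ⊆ L(G)` for general `K` (statements of project EX
without the finiteness of the subgroups `Kn n`)
-/

set_option autoImplicit false

namespace Pool.Agent.N571.EX.W

open Filter Topology
open scoped InnerProductSpace ComplexOrder
open Pool.Agent.H494R3.GT (L2 dl)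
open Pool.Agent.N557.QW (lam rgt LG LK cf rc)

noncomputable section

/-- as `EX.ExD`, without finiteness -/
structure ExD (G : Type) [Group G] (K : Subgroup G) (Kn : ℕ → Subgroup G) (θ : ℕ → G → G) :
    Prop where
  mono : Monotone Kn
  mem : ∀ x, x ∈ K ↔ ∃ n, x ∈ Kn n
  val : ∀ n x, θ n x ∈ K
  mul : ∀ x y, ∀ᶠ n in atTop, θ n (x * y) = θ n x * θ n y
  ne : ∀ x, x ≠ 1 → ∀ᶠ n in atTop, θ n x ≠ 1
  id : ∀ x ∈ K, ∀ᶠ n in atTop, θ n x = x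

/-- PF: finite sums. -/
def S_PF : Prop :=
  ∀ (G : Type) [Group G] (K : Subgroup G) (Kn : ℕ → Subgroup G) (θ : ℕ → G → G),
    ExD G K Kn θ →
    (∀ (f : G → G) (p : G →₀ ℂ), pf f p ∈ LG G) ∧ (∀ (n : ℕ) (p : G →₀ ℂ), pf (θ n) p ∈ LK K) ∧
    (∀ p : G →₀ ℂ, ∃ C : ℝ, ∀ f : G → G, ‖pf f p‖ ≤ C) ∧
    (∀ p : G →₀ ℂ, ∀ᶠ n in atTop, ‖pf (θ n) p (dl (1 : G))‖ = ‖pf id p (dl (1 : G))‖) ∧
    (∀ (f : G → G) (p q : G →₀ ℂ), pf f (p + q) = pf f p + pf f q) ∧ (∀ (f : G → G) (c : ℂ) (p : G →₀ ℂ), pf f (c • p) = c • pf f p) ∧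
    (∀ p q : G →₀ ℂ, ∃ r : G →₀ ℂ, pf id r = pf id p * pf id q ∧
      ∀ᶠ n in atTop, pf (θ n) r = pf (θ n) p * pf (θ n) q) ∧
    (∀ p : G →₀ ℂ, ∃ r : G →₀ ℂ, pf id r = star (pf id p) ∧ ∀ᶠ n in atTop, pf (θ n) r = star (pf (θ n) p)) ∧
    (∀ p : G →₀ ℂ, (∀ g ∈ p.support, g ∈ K) → ∀ᶠ n in atTop, pf (θ n) p = pf id p) ∧
    (∃ r : G →₀ ℂ, pf id r = 1 ∧ ∀ᶠ n in atTop, pf (θ n) r = 1) ∧
    (∀ x ∈ LG G, ∀ ε : ℝ, 0 < ε → ∃ p : G →₀ ℂ, ‖x (dl 1) - pf id p (dl (1 : G))‖ < ε ∧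
      (star x = x → star (pf id p) = pf id p ∧ ∀ᶠ n in atTop, star (pf (θ n) p) = pf (θ n) p) ∧
      (x ∈ LK K → ∀ g ∈ p.support, g ∈ K))

/-- RL1: formal properties of `Rel`. -/
def S_RL1 : Prop :=
  ∀ (G : Type) [Group G] (K : Subgroup G) (Kn : ℕ → Subgroup G) (θ : ℕ → G → G),
    ExD G K Kn θ →
    (∀ x x' y y', Rel K θ x y → Rel K θ x' y' → Rel K θ (x + x') fun n => y n + y' n) ∧
    (∀ (c : ℂ) x y, Rel K θ x y → Rel K θ (c • x) fun n => c • y n) ∧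
    (∀ x y, x ∈ LG G → Rel K θ x y → Rel K θ (star x) fun n => star (y n)) ∧
    (∀ x x' y y', x ∈ LG G → x' ∈ LG G → Rel K θ x y → Rel K θ x' y' →
      Rel K θ (x * x') fun n => y n * y' n) ∧
    (∀ x y y', Rel K θ x y → Rel K θ x y' →
      Tendsto (fun n => ‖(y n - y' n) (dl 1)‖) atTop (𝓝 0)) ∧
    (∀ x y, Rel K θ x y →
      Tendsto (fun n => ⟪dl (1 : G), (y n) (dl 1)⟫_ℂ) atTop (𝓝 ⟪dl (1 : G), x (dl 1)⟫_ℂ)) ∧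
    (∀ x ∈ LK K, Rel K θ x fun _ => x)

/-- RL2: resolvents and limits. -/
def S_RL2 : Prop :=
  ∀ (G : Type) [Group G] (K : Subgroup G) (Kn : ℕ → Subgroup G) (θ : ℕ → G → G),
    ExD G K Kn θ →
    (∀ p : G →₀ ℂ, star (pf id p) = pf id p → (∀ᶠ n in atTop, star (pf (θ n) p) = pf (θ n) p) →
      ∀ r, (1 - Complex.I • pf id p) * r = 1 → r * (1 - Complex.I • pf id p) = 1 →
      ∃ y : ℕ → L2 G →L[ℂ] L2 G, (∀ n, ‖y n‖ ≤ 1) ∧ Rel K θ r y) ∧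
    (∀ (x : L2 G →L[ℂ] L2 G) (xk : ℕ → L2 G →L[ℂ] L2 G) (y : ℕ → ℕ → L2 G →L[ℂ] L2 G),
      Tendsto (fun k => ‖(xk k) (dl 1) - x (dl 1)‖) atTop (𝓝 0) → (∀ k n, ‖y k n‖ ≤ 1) →
      (∀ k, Rel K θ (xk k) (y k)) → ∃ z : ℕ → L2 G →L[ℂ] L2 G, (∀ n, ‖z n‖ ≤ 1) ∧ Rel K θ x z)

/-- EXI: the inclusion `L(K) ⊆ L(G)` is existential. -/
def S_EXI : Prop :=
  ∀ (G : Type) [Group G] (K : Subgroup G) (Kn : ℕ → Subgroup G) (θ : ℕ → G → G),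
    ExD G K Kn θ → ∀ U : Ultrafilter ℕ, (U : Filter ℕ) ≤ cofinite →
      Existential (LK K) (LG G) (dl (1 : G)) U

end

end Pool.Agent.N571.EX.W
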